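import Mathlib

/-! # Project MP_0bb520_al: definitions and task statements

Theorem: if `G` is a nilpotent, precompact, sequentially complete, locally minimal group with
`c(G) = {1}` then `c(K) = {1}` for its (compact) completion `K`. -/

namespace R658.CN

open Topology Filter Set

universe u

/-- every (two-sided) Cauchy sequence converges -/
def SeqComplete (G : Type u) [Group G] [TopologicalSpace G] : Prop :=
  ∀ g : ℕ → G,
    (∀ U ∈ 𝓝 (1 : G), ∃ N, ∀ m ≥ N, ∀ n ≥ N, (g m)⁻¹ * g n ∈ U ∧ g m * (g n)⁻¹ ∈ U) →
    ∃ x, Tendsto g atTop (𝓝 x)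

/-- there is a neighbourhood `U` of the identity such that every coarser Hausdorff group topology
in which `U` is still a neighbourhood of the identity coincides with the given topology -/
def LocallyMinimal (G : Type u) [Group G] [τ : TopologicalSpace G] : Prop :=
  ∃ U ∈ 𝓝 (1 : G), ∀ σ : TopologicalSpace G, @IsTopologicalGroup G σ _ → @T2Space G σ → τ ≤ σ →
    U ∈ @nhds G σ 1 → σ = τ

end R658.CN
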