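import Mathlib
import Pool.Agent.R658.CN.Defs

/-! # Project MP_0bb520_al: task statements -/

namespace R658.CN

open Topology Filter Set TopologicalSpace

universe u

/-- TASK CHAR: compact Hausdorff abelian groups have enough characters.
From `Pool.Agent.H481R3.CG.exists_char` (file `Pool/Agent/H481R3/CGB.lean`) with the Borel
sigma-algebra and the normalised Haar measure. -/
def TaskChar : Prop :=
  ∀ (C : Type u) [CommGroup C] [TopologicalSpace C] [IsTopologicalGroup C] [CompactSpace C]
    [T2Space C] (x : C), x ≠ 1 → ∃ χ : C →ₜ* Circle, χ x ≠ 1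

/-- TASK M: a dense locally minimal subgroup is locally essential.
Let `U` witness local minimality, `V` a neighbourhood of `1` in `K` with `i⁻¹(V * V) ⊆ U`.  If `N ⊆ V` is a
closed normal subgroup of `K` with `N ∩ i(G) = 1`, then the topology `σ` on `G` induced by the injective
homomorphism `G → K ⧸ N` is a coarser Hausdorff group topology and `U` is a `σ`-neighbourhood of `1` (it contains the
preimage of `W * N` for a small `W`).  So `σ` is the given topology; hence for every neighbourhood `O` of `1` in `K` there
is an open `W ∋ 1` with `i g ∈ W * N → i g ∈ O`; as `W * N` is open and `i(G)` dense,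
`N ⊆ W * N ⊆ closure O`.  So `N = 1`. -/
def TaskM : Prop :=
  ∀ (G K : Type u) [Group G] [TopologicalSpace G] [IsTopologicalGroup G] [Group K]
    [TopologicalSpace K] [IsTopologicalGroup K] [CompactSpace K] [T2Space K] (i : G →* K),
    IsEmbedding i → DenseRange i → LocallyMinimal G →
    ∃ V ∈ 𝓝 (1 : K), ∀ N : Subgroup K, N.Normal → IsClosed (N : Set K) → (N : Set K) ⊆ V →
      N ≠ ⊥ → ∃ g : G, g ≠ 1 ∧ i g ∈ N

/-- TASK N: nilpotency passes to the closure (for example by the lower central series:
`lowerCentralSeries K n` is contained in the closure of the image of `lowerCentralSeries G n`). -/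
def TaskN : Prop :=
  ∀ (G K : Type u) [Group G] [Group K] [TopologicalSpace K] [IsTopologicalGroup K] [T2Space K]
    (i : G →* K), DenseRange i → Group.IsNilpotent G → Group.IsNilpotent K

/-- TASK F: the identity component of a compact nilpotent group is central (uses TaskChar).
Induction on the nilpotency class, `K ⧸ center K` is compact Hausdorff of smaller class, the image of `c(K)` is connected,
so `[x,k] ∈ Z = center K` for `x ∈ c(K)`, `k ∈ K`.  Let `χ` be a character of the compact abelian group `Z`.
`b(x,k) = χ [x,k]` is continuous on `c(K) × K` and multiplicative in both variables.  By compactness of `K` there is a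
neighbourhood `O` of `1` in `c(K)` with `b(x,k)` close to `1` for all `x ∈ O, k ∈ K`; the image of `b(x,·)` is a small
subgroup of the circle so trivial.  So `{x | b(x,·) = 1}` is an open subgroup of `c(K)`, hence everything.
As characters separate the points of `Z`, `[x,k] = 1`. -/
def TaskF : Prop :=
  ∀ (K : Type u) [Group K] [TopologicalSpace K] [IsTopologicalGroup K] [CompactSpace K]
    [T2Space K], Group.IsNilpotent K → ∀ x ∈ connectedComponent (1 : K), ∀ k : K, x * k = k * x

/-- TASK DIV: compact connected abelian groups are divisible (uses TaskChar).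
The image `D` of `x ↦ x^n` is a closed subgroup; a character `χ` of `C ⧸ D` gives a continuous homomorphism from the connected
group `C` to the finite group of `n`-th roots of unity, so it is trivial; hence `C ⧸ D` is trivial. -/
def TaskDiv : Prop :=
  ∀ (C : Type u) [CommGroup C] [TopologicalSpace C] [IsTopologicalGroup C] [CompactSpace C]
    [T2Space C] [ConnectedSpace C] (n : ℕ), n ≠ 0 → ∀ c : C, ∃ d : C, d ^ n = c

/-- TASK D (duality): every homomorphism from the character group to the circle is an
evaluation.
By compactness it is enough to find for finitely many characters `χ_1..χ_n` a `c` with `χ_i c = h χ_i` for all `i`.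
Let `f(c) = ∏ |1 + conj(h χ_i) χ_i c|^2`, `f₁(c) = ∏ |1 + χ_i c|^2`.  If no such `c` exists then by compactness
`f ≤ M < 4^n`.  Expanding the products in `MonoidAlgebra ℂ (C →ₜ* Circle)` (twisting by `ψ ↦ conj(h ψ) • ψ` is an
algebra automorphism which does not change the coefficient of `ψ = 1`, and `∫ ψ = 0` for `ψ ≠ 1`, Haar probability
measure) we get `∫ f^N = ∫ f₁^N` for all `N`.  But `f₁(1) = 4^n`, so for `M < M' < 4^n` the open set `{f₁ > M'}` has positive
measure `m` and `m M'^N ≤ ∫ f₁^N = ∫ f^N ≤ M^N` for all `N`, a contradiction. -/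
def TaskD : Prop :=
  ∀ (C : Type u) [CommGroup C] [TopologicalSpace C] [IsTopologicalGroup C] [CompactSpace C]
    [T2Space C] (h : (C →ₜ* Circle) →* Circle), ∃ c : C, ∀ χ : C →ₜ* Circle, χ c = h χ

/-- TASK C: the metrizable case.
(1) For every open `W ⊇ c(K)` there is `m` with `x^(n!) ∈ W` for all `n ≥ m` and all `x ∈ K`: `c(K)` is the intersection of the clopen
sets containing `1`, so there is a clopen `Z` with `c(K) ⊆ Z ⊆ W`, and by
`exist_openNormalSubgroup_sub_clopen_nhds_of_one` an open normal subgroup `H' ⊆ Z`, of finite index `m`.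
(2) A sequence `y n ∈ K` which is eventually in every open `W ⊇ c(K)` has a subsequence converging to a point of `c(K)`:
take countably many continuous `f_j : K → [0,1]` (Tietze) separating the points of the metrizable compact `c(K)`, and a
subsequence along which all `f_j (y n)` converge; it has exactly one cluster point in the compact space `K`.
(3) Suppose `c₀ ∈ c(K)`, `c₀ ∉ H`.  `A = H ∩ c(K)` is sequentially closed in the metrizable `c(K)`, so closed.  Choose an open
`O ∋ c₀` with `closure O ∩ A = ∅`.  For each `n` take `d ∈ c(K)` with `d^(n!) = c₀`, and by density `h n ∈ H` with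
`(h n)^(n!) ∈ O`.  By (1),(2) a subsequence of `(h n)^(n!)` converges to a point of `c(K) ∩ closure O`, which is in `H`.
Contradiction. -/
def TaskC : Prop :=
  ∀ (K : Type u) [Group K] [TopologicalSpace K] [IsTopologicalGroup K] [CompactSpace K]
    [T2Space K] (H : Subgroup K), Dense (H : Set K) → IsSeqClosed (H : Set K) →
    (∀ n : ℕ, n ≠ 0 → ∀ c ∈ connectedComponent (1 : K), ∃ d ∈ connectedComponent (1 : K),
      d ^ n = c) →
    MetrizableSpace (connectedComponent (1 : K)) → connectedComponent (1 : K) ⊆ H

/-- TASK EA: dichotomy (uses TaskChar; `hchar` may be taken as a hypothesis `TaskChar.{u}`).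
Let `X = Additive (C →ₜ* Circle)`; it is torsion free since `C` is connected (if `χ^n = 1` then `χ` has finite image).
`V = ℚ ⊗[ℤ] X`, `j : X → V` injective (localization), every `v ∈ V` has a nonzero multiple in `j X`, `W` = span of `j F`.
If `V ⧸ W` is finite dimensional then `V` is finite dimensional over the countable field `ℚ`, so countable, so `X` is countable, and
`c ↦ (χ c)_χ` is a closed embedding of `C` in a countable product of circles (enough characters), so `C` is metrizable.
Otherwise take a basis `b_i` of `V ⧸ W`, an injection `ℕ → I` and let `Θ` be the coordinates with these indices. -/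
def TaskEa : Prop :=
  ∀ (C : Type u) [CommGroup C] [TopologicalSpace C] [IsTopologicalGroup C] [CompactSpace C]
    [T2Space C] [ConnectedSpace C] (F : Finset (C →ₜ* Circle)),
    MetrizableSpace C ∨ ∃ Θ : Additive (C →ₜ* Circle) →+ (ℕ →₀ ℚ),
      (∀ χ ∈ F, Θ (Additive.ofMul χ) = 0) ∧
      ∀ n : ℕ, ∃ (χ : C →ₜ* Circle) (m : ℕ), m ≠ 0 ∧
        Θ (Additive.ofMul χ) = Finsupp.single n (m : ℚ)

/-- TASK E: the rank argument (uses TaskChar, TaskD).  See the file of helper658. -/
def TaskE : Prop :=
  ∀ (C : Type u) [CommGroup C] [TopologicalSpace C] [IsTopologicalGroup C] [CompactSpace C]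
    [T2Space C] [ConnectedSpace C] (A : Subgroup C) (V : Set C), IsSeqClosed (A : Set C) →
    V ∈ 𝓝 (1 : C) →
    (∀ S : Set C, S ⊆ A → IsPreconnected S → (1 : C) ∈ S → S ⊆ {1}) →
    (∀ L : Subgroup C, IsClosed (L : Set C) → (L : Set C) ⊆ V → L ≠ ⊥ → L ⊓ A ≠ ⊥) →
    MetrizableSpace C

end R658.CN
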