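import Mathlib
import Pool.Agent.R658.CN.Stmts
import Pool.Agent.H481R3.CGB

/-! # TASK CHAR: enough characters (helper883, from `Pool.Agent.H481R3.CG.exists_char`) -/

namespace R658.CN

open Topology Filter Set MeasureTheory

universe u

theorem taskChar : TaskChar.{u} := by
  intro C _ _ _ _ _ x hx
  let _ : MeasurableSpace C := borel C
  have _ : BorelSpace C := ⟨rfl⟩
  have hp : IsProbabilityMeasure
      (Measure.haarMeasure (⊤ : TopologicalSpace.PositiveCompacts C)) := by
    constructor
    have := Measure.haarMeasure_self (K₀ := (⊤ : TopologicalSpace.PositiveCompacts C))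
    simpa using this
  obtain ⟨χ, hχ, hne⟩ := Pool.Agent.H481R3.CG.exists_char
    (Measure.haarMeasure (⊤ : TopologicalSpace.PositiveCompacts C)) x 1 hx
  refine ⟨⟨χ, hχ⟩, ?_⟩
  change χ x ≠ 1
  rwa [map_one] at hne

end R658.CN
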