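import Mathlib
import Pool.Agent.R658.CN.Stmts

namespace R658.CN

open Topology Filter Set TopologicalSpace

universe u

theorem seqClosed_range {G K : Type u} [Group G] [TopologicalSpace G] [IsTopologicalGroup G]
    [Group K] [TopologicalSpace K] [IsTopologicalGroup K] [T2Space K] (i : G →* K)
    (hi : IsEmbedding i) (hseq : SeqComplete G) : IsSeqClosed (i.range : Set K) := by
  intro x k hx hk
  choose g hg using fun n => (hx n : x n ∈ i.range)
  obtain ⟨y, hy⟩ := hseq g (by
    intro U hU
    rw [hi.isInducing.nhds_eq_comap, map_one] at hU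
    obtain ⟨U', hU', hUU⟩ := hU
    have h1 : Tendsto (fun p : ℕ × ℕ => (x p.1)⁻¹ * x p.2) atTop (𝓝 (1 : K)) := by
      have h2 : Tendsto (fun p : ℕ × ℕ => x p.1) atTop (𝓝 k) :=
        hk.comp (by rw [← prod_atTop_atTop_eq]; exact tendsto_fst)
      have h3 : Tendsto (fun p : ℕ × ℕ => x p.2) atTop (𝓝 k) :=
        hk.comp (by rw [← prod_atTop_atTop_eq]; exact tendsto_snd)
      simpa using h2.inv.mul h3
    have h1' : Tendsto (fun p : ℕ × ℕ => x p.1 * (x p.2)⁻¹) atTop (𝓝 (1 : K)) := by
      have h2 : Tendsto (fun p : ℕ × ℕ => x p.1) atTop (𝓝 k) :=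
        hk.comp (by rw [← prod_atTop_atTop_eq]; exact tendsto_fst)
      have h3 : Tendsto (fun p : ℕ × ℕ => x p.2) atTop (𝓝 k) :=
        hk.comp (by rw [← prod_atTop_atTop_eq]; exact tendsto_snd)
      simpa using h2.mul h3.inv
    obtain ⟨⟨a, b⟩, hab⟩ := (((h1.eventually hU').and (h1'.eventually hU')).exists_forall_of_atTop)
    refine ⟨max a b, fun m hm n hn => ?_⟩
    have h4 := hab (m, n) ⟨le_trans (le_max_left _ _) hm, le_trans (le_max_right _ _) hn⟩
    constructor
    · apply hUU
      show i ((g m)⁻¹ * g n) ∈ U'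
      rw [map_mul, map_inv, hg, hg]
      exact h4.1
    · apply hUU
      show i (g m * (g n)⁻¹) ∈ U'
      rw [map_mul, map_inv, hg, hg]
      exact h4.2)
  have h5 : Tendsto x atTop (𝓝 (i y)) := by
    have := (hi.continuous.tendsto y).comp hy
    refine this.congr fun n => ?_
    exact hg n
  rw [tendsto_nhds_unique hk h5]
  exact ⟨y, rfl⟩

theorem conn_trivial {G K : Type u} [Group G] [TopologicalSpace G] [Group K]
    [TopologicalSpace K] (i : G →* K) (hi : IsEmbedding i)
    (hc : connectedComponent (1 : G) = {1}) (T : Set K) (hT : T ⊆ Set.range i)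
    (hTc : IsPreconnected T) (h1 : (1 : K) ∈ T) : T ⊆ {1} := by
  have h2 : i '' (i ⁻¹' T) = T := by
    rw [Set.image_preimage_eq_inter_range, Set.inter_eq_left.mpr hT]
  have h3 : IsPreconnected (i ⁻¹' T) := by
    rw [← hi.isInducing.isPreconnected_image, h2]
    exact hTc
  have h4 : (1 : G) ∈ i ⁻¹' T := by
    show i 1 ∈ T
    rw [map_one]; exact h1
  have h5 := h3.subset_connectedComponent h4
  rw [hc] at h5
  rw [← h2]
  rintro _ ⟨g, hg, rfl⟩
  have := h5 hg
  rw [Set.mem_singleton_iff] at this
  rw [this, map_one]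
  rfl

theorem main (hM : TaskM.{u}) (hN : TaskN.{u}) (hF : TaskF.{u}) (hDiv : TaskDiv.{u})
    (hC : TaskC.{u}) (hE : TaskE.{u})
    {G K : Type u} [Group G] [TopologicalSpace G] [IsTopologicalGroup G] [Group K]
    [TopologicalSpace K] [IsTopologicalGroup K] [CompactSpace K] [T2Space K] (i : G →* K)
    (hi : IsEmbedding i) (hd : DenseRange i) (hnil : Group.IsNilpotent G) (hseq : SeqComplete G)
    (hloc : LocallyMinimal G) (hc : connectedComponent (1 : G) = {1}) :
    connectedComponent (1 : K) = {1} := by
  have hKn : Group.IsNilpotent K := hN G K i hd hnil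
  have hcen := hF K hKn
  let C : Subgroup K := Subgroup.connectedComponentOfOne K
  have hCcl : IsClosed (C : Set K) := isClosed_connectedComponent
  have hCc : CompactSpace C := isCompact_iff_compactSpace.mp hCcl.isCompact
  have hCcon : ConnectedSpace C :=
    isConnected_iff_connectedSpace.mp (isConnected_connectedComponent (x := (1 : K)))
  letI : CommGroup C := { (inferInstance : Group C) with
    mul_comm := fun a b => Subtype.ext (hcen a.1 a.2 b.1) }
  have hseqK := seqClosed_range i hi hseq
  obtain ⟨V, hV, hVN⟩ := hM G K i hi hd hloc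
  have hmet : MetrizableSpace C := by
    refine hE C (i.range.comap C.subtype) (C.subtype ⁻¹' V) ?_ ?_ ?_ ?_
    · intro x y hx hy
      exact hseqK hx ((continuous_subtype_val.tendsto y).comp hy)
    · exact continuous_subtype_val.continuousAt.preimage_mem_nhds hV
    · intro S hSA hS h1
      have h2 : (Subtype.val '' S : Set K) ⊆ {1} := by
        apply conn_trivial i hi hc
        · rintro _ ⟨s, hs, rfl⟩
          exact hSA hs
        · exact hS.image _ continuous_subtype_val.continuousOn
        · exact ⟨1, h1, rfl⟩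
      intro s hs
      exact Subtype.ext (h2 ⟨s, hs, rfl⟩)
    · intro L hLc hLV hL
      have hnorm : (L.map C.subtype).Normal := by
        refine ⟨?_⟩
        rintro _ ⟨l, hl, rfl⟩ g
        refine ⟨l, hl, ?_⟩
        have := hcen l.1 l.2 g
        show (l : K) = g * (l : K) * g⁻¹
        rw [← this, mul_inv_cancel_right]
      have hcl' : IsClosed ((L.map C.subtype : Subgroup K) : Set K) := by
        rw [Subgroup.coe_map]
        exact hCcl.isClosedEmbedding_subtypeVal.isClosedMap _ hLc
      obtain ⟨g, hg1, hg⟩ := hVN (L.map C.subtype) hnorm hcl' (by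
        rintro _ ⟨l, hl, rfl⟩
        exact hLV hl) (by
        intro hbot
        apply hL
        rw [eq_bot_iff]
        intro l hl
        have h3 : (l : K) ∈ L.map C.subtype := ⟨l, hl, rfl⟩
        rw [hbot] at h3
        exact Subtype.ext h3)
      obtain ⟨l, hl, hlg⟩ := hg
      intro hbot
      have h4 : l ∈ L ⊓ i.range.comap C.subtype := ⟨hl, g, hlg.symm⟩
      rw [hbot] at h4
      have h5 : l = 1 := h4
      apply hg1
      apply hi.injective
      rw [← hlg, h5, map_one, map_one]
  have hsub : connectedComponent (1 : K) ⊆ i.range := by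
    refine hC K i.range ?_ hseqK ?_ hmet
    · rw [MonoidHom.coe_range]; exact hd
    · intro n hn c hcc
      obtain ⟨d, hd'⟩ := hDiv C n hn ⟨c, hcc⟩
      exact ⟨d.1, d.2, congrArg Subtype.val hd'⟩
  apply Set.Subset.antisymm
  · exact conn_trivial i hi hc _ hsub isPreconnected_connectedComponent mem_connectedComponent
  · rintro _ rfl
    exact mem_connectedComponent

end R658.CN
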