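import Mathlib
import Pool.Agent.R658.CN.Stmts

namespace R658.CN

open Topology Filter Set TopologicalSpace

universe u

/-- the circle has no small subgroups -/
theorem circle_nss (z : Circle) (h : ∀ j : ℕ, ‖((z ^ j : Circle) : ℂ) - 1‖ < 1) : z = 1 := by
  by_contra hz
  have hz1 : (z : ℂ) ≠ 1 := fun h' => hz (Circle.ext (by simpa using h'))
  have hd : 0 < ‖(z : ℂ) - 1‖ := norm_pos_iff.mpr (sub_ne_zero.mpr hz1)
  obtain ⟨N, hN⟩ := exists_nat_gt (4 / ‖(z : ℂ) - 1‖)
  have hN0 : 0 < (N : ℝ) := lt_trans (by positivity) hN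
  have h1 : (∑ j ∈ Finset.range N, (z : ℂ) ^ j) * ((z : ℂ) - 1) = (z : ℂ) ^ N - 1 :=
    geom_sum_mul (z : ℂ) N
  have h2 : ‖(z : ℂ) ^ N - 1‖ ≤ 2 := by
    calc ‖(z : ℂ) ^ N - 1‖ ≤ ‖(z : ℂ) ^ N‖ + ‖(1 : ℂ)‖ := norm_sub_le _ _
      _ = 2 := by rw [norm_pow, Circle.norm_coe, one_pow, norm_one]; norm_num
  have h3 : (N : ℝ) / 2 ≤ (∑ j ∈ Finset.range N, (z : ℂ) ^ j).re := by
    rw [Complex.re_sum]
    have : ∀ j ∈ Finset.range N, (1 : ℝ) / 2 ≤ ((z : ℂ) ^ j).re := by
      intro j _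
      have h4 := h j
      have h5 : ((z ^ j : Circle) : ℂ) = (z : ℂ) ^ j := by simp
      rw [h5] at h4
      have h6 : ‖(z : ℂ) ^ j‖ = 1 := by rw [norm_pow, Circle.norm_coe, one_pow]
      have h7 : ‖(z : ℂ) ^ j - 1‖ ^ 2 < 1 := by
        have := norm_nonneg ((z : ℂ) ^ j - 1)
        nlinarith
      rw [Complex.sq_norm, Complex.normSq_apply] at h7
      have h8 : ‖(z : ℂ) ^ j‖ ^ 2 = 1 := by rw [h6]; norm_num
      rw [Complex.sq_norm, Complex.normSq_apply] at h8
      simp only [Complex.sub_re, Complex.one_re, Complex.sub_im, Complex.one_im, sub_zero] at h7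
      nlinarith
    calc (N : ℝ) / 2 = ∑ _j ∈ Finset.range N, (1 : ℝ) / 2 := by simp; ring
      _ ≤ _ := Finset.sum_le_sum this
  have h4 : (N : ℝ) / 2 ≤ ‖∑ j ∈ Finset.range N, (z : ℂ) ^ j‖ := h3.trans (Complex.re_le_norm _)
  have h5 : ‖∑ j ∈ Finset.range N, (z : ℂ) ^ j‖ * ‖(z : ℂ) - 1‖ ≤ 2 := by
    rw [← norm_mul, h1]; exact h2
  rw [div_lt_iff₀ hd] at hN
  nlinarith

section char
variable {Q : Type*} [AddCommGroup Q]

/-- the group of homomorphisms from `Q` to the circle, as a subgroup of the product -/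
def Hm (Q : Type*) [AddCommGroup Q] : Subgroup (Q → Circle) where
  carrier := {x | ∀ a b, x (a + b) = x a * x b}
  mul_mem' := by
    intro x y hx hy a b
    simp only [Pi.mul_apply, hx a b, hy a b]
    exact mul_mul_mul_comm _ _ _ _
  one_mem' := by intro a b; simp
  inv_mem' := by
    intro x hx a b
    simp only [Pi.inv_apply, hx a b, mul_inv]

theorem Hm.add (x : Hm Q) (a b : Q) : x.1 (a + b) = x.1 a * x.1 b := x.2 a b

theorem Hm.zero (x : Hm Q) : x.1 0 = 1 := by
  have := Hm.add x 0 0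
  rw [add_zero] at this
  exact (mul_eq_left.mp this.symm)

theorem Hm.neg (x : Hm Q) (a : Q) : x.1 (-a) = (x.1 a)⁻¹ := by
  have := Hm.add x a (-a)
  rw [add_neg_cancel, Hm.zero] at this
  exact (inv_eq_of_mul_eq_one_right this.symm).symm

theorem Hm.nsmul (x : Hm Q) (n : ℕ) (a : Q) : x.1 (n • a) = x.1 a ^ n := by
  induction n with
  | zero => simp [Hm.zero]
  | succ n ih => rw [succ_nsmul, Hm.add, ih, pow_succ]

theorem Hm.zsmul (x : Hm Q) (n : ℤ) (a : Q) : x.1 (n • a) = x.1 a ^ n := by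
  cases n with
  | ofNat n => simp only [Int.ofNat_eq_natCast, natCast_zsmul, zpow_natCast]; exact Hm.nsmul x n a
  | negSucc n => rw [negSucc_zsmul, Hm.neg, Hm.nsmul, zpow_negSucc]

theorem Hm.isClosed : IsClosed ((Hm Q : Subgroup (Q → Circle)) : Set (Q → Circle)) := by
  have : ((Hm Q : Subgroup (Q → Circle)) : Set (Q → Circle)) =
      ⋂ a : Q, ⋂ b : Q, {x | x (a + b) = x a * x b} := by
    ext x; simp [Hm]
  rw [this]
  refine isClosed_iInter fun a => isClosed_iInter fun b => isClosed_eq ?_ ?_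
  · exact continuous_apply _
  · exact (continuous_apply _).mul (continuous_apply _)

instance : CompactSpace (Hm Q) := isCompact_iff_compactSpace.mp Hm.isClosed.isCompact

end char

section ev

set_option linter.unusedSectionVars false

variable (C : Type u) [CommGroup C] [TopologicalSpace C] [IsTopologicalGroup C] [CompactSpace C]
  [T2Space C]

/-- evaluation -/
noncomputable def ev (c : C) : (C →ₜ* Circle) → Circle := fun χ => χ c

theorem ev_cont : Continuous (ev C) := continuous_pi fun χ => χ.continuous_toFun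

theorem ev_inj (hchar : TaskChar.{u}) : Function.Injective (ev C) := by
  intro c d hcd
  by_contra hne
  have h1 : c * d⁻¹ ≠ 1 := fun h => hne (mul_inv_eq_one.mp h)
  obtain ⟨χ, hχ⟩ := hchar C (c * d⁻¹) h1
  apply hχ
  have h2 : χ c = χ d := congrFun hcd χ
  rw [map_mul, map_inv, h2, mul_inv_cancel]

theorem ev_emb (hchar : TaskChar.{u}) : IsClosedEmbedding (ev C) :=
  (ev_cont C).isClosedEmbedding (ev_inj C hchar)

variable {C}

theorem exists_pt (hD : TaskD.{u}) {Q : Type} [AddCommGroup Q]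
    (Θ : Additive (C →ₜ* Circle) →+ Q) (x : Hm Q) :
    ∃ c : C, ∀ χ : C →ₜ* Circle, χ c = x.1 (Θ (Additive.ofMul χ)) := by
  let h : (C →ₜ* Circle) →* Circle :=
    { toFun := fun χ => x.1 (Θ (Additive.ofMul χ))
      map_one' := by
        rw [ofMul_one, map_zero, Hm.zero]
      map_mul' := by
        intro χ ψ
        rw [ofMul_mul, map_add, Hm.add] }
  exact hD C h

/-- the point of `C` defined by `x : Hom(Q, T)` and `Θ : C^ → Q` -/
theorem exists_hom (hchar : TaskChar.{u}) (hD : TaskD.{u}) {Q : Type} [AddCommGroup Q]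
    (Θ : Additive (C →ₜ* Circle) →+ Q) :
    ∃ G : Hm Q →* C, Continuous G ∧ ∀ x (χ : C →ₜ* Circle), χ (G x) = x.1 (Θ (Additive.ofMul χ)) := by
  choose g hg using fun x : Hm Q => exists_pt hD Θ x
  have hinj := ev_inj C hchar
  let G : Hm Q →* C :=
    { toFun := g
      map_one' := by
        apply hinj
        funext χ
        show χ (g 1) = χ 1
        rw [hg, map_one]
        rfl
      map_mul' := by
        intro x y
        apply hinj
        funext χ
        show χ (g (x * y)) = χ (g x * g y)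
        rw [map_mul, hg, hg, hg]
        rfl }
  refine ⟨G, ?_, hg⟩
  rw [(ev_emb C hchar).isInducing.continuous_iff]
  refine continuous_pi fun χ => ?_
  have : (fun x : Hm Q => (ev C ∘ G) x χ) = fun x : Hm Q => x.1 (Θ (Additive.ofMul χ)) := by
    funext x
    exact hg x χ
  rw [this]
  exact (continuous_apply _).comp continuous_subtype_val

theorem exists_finset (hchar : TaskChar.{u}) (V : Set C) (hV : V ∈ 𝓝 (1 : C)) :
    ∃ F : Finset (C →ₜ* Circle), ∀ c : C, (∀ χ ∈ F, χ c = 1) → c ∈ V := by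
  have hcomp : IsCompact ((interior V)ᶜ) := isOpen_interior.isClosed_compl.isCompact
  obtain ⟨F, hF⟩ := hcomp.elim_finite_subfamily_closed (fun χ : C →ₜ* Circle => {c | χ c = 1})
    (fun χ => isClosed_eq χ.continuous_toFun continuous_const) (by
      rw [Set.eq_empty_iff_forall_notMem]
      rintro c ⟨hc1, hc2⟩
      have hc3 : c = 1 := by
        by_contra hne
        obtain ⟨χ, hχ⟩ := hchar C c hne
        exact hχ (Set.mem_iInter.mp hc2 χ)
      apply hc1
      rw [hc3]
      exact mem_interior_iff_mem_nhds.mpr hV)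
  refine ⟨F, fun c hc => ?_⟩
  by_contra hcV
  have : c ∈ (interior V)ᶜ ∩ ⋂ χ ∈ F, {c | χ c = 1} := by
    refine ⟨fun h => hcV (interior_subset h), ?_⟩
    simpa using hc
  rw [hF] at this
  exact this

end ev

/-- every element has a nonzero multiple in the group generated by the `m n • ε n` -/
theorem mult_mem (m : ℕ → ℕ) (hm : ∀ n, m n ≠ 0) (q : ℕ →₀ ℚ) :
    ∃ N : ℕ, N ≠ 0 ∧ ∀ t : Hm (ℕ →₀ ℚ), (∀ n, t.1 (Finsupp.single n (m n : ℚ)) = 1) →
      t.1 q ^ N = 1 := by
  induction q using Finsupp.induction with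
  | zero => exact ⟨1, one_ne_zero, fun t _ => by rw [Hm.zero, one_pow]⟩
  | single_add i r q _ _ ih =>
    obtain ⟨N, hN, hN'⟩ := ih
    refine ⟨(r.den * m i) * N, by
      have := r.den_nz
      have := hm i
      positivity, fun t ht => ?_⟩
    have h1 : t.1 (Finsupp.single i r) ^ (r.den * m i) = 1 := by
      rw [← Hm.nsmul]
      have h2 : (r.den * m i) • (Finsupp.single i r : ℕ →₀ ℚ) =
          r.num • (Finsupp.single i (m i : ℚ)) := by
        rw [Finsupp.smul_single, Finsupp.smul_single]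
        congr 1
        rw [nsmul_eq_mul, zsmul_eq_mul]
        push_cast
        have := r.mul_den_eq_num
        calc ((r.den : ℚ) * (m i : ℚ)) * r = (r * r.den) * m i := by ring
          _ = _ := by rw [this]
      rw [h2, Hm.zsmul, ht i, one_zpow]
    rw [Hm.add, mul_pow, pow_mul, h1, one_pow, one_mul, mul_comm, pow_mul, hN' t ht, one_pow]


section main

set_option linter.unusedSectionVars false

variable {C : Type u} [CommGroup C] [TopologicalSpace C] [IsTopologicalGroup C] [CompactSpace C]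
  [T2Space C]

theorem kill_of_conn (A : Subgroup C)
    (hconn : ∀ S : Set C, S ⊆ A → IsPreconnected S → (1 : C) ∈ S → S ⊆ {1})
    (Θ : Additive (C →ₜ* Circle) →+ (ℕ →₀ ℚ))
    (hΘ : ∀ n : ℕ, ∃ (χ : C →ₜ* Circle) (m : ℕ), m ≠ 0 ∧
        Θ (Additive.ofMul χ) = Finsupp.single n (m : ℚ))
    (G : Hm (ℕ →₀ ℚ) →* C) (hGc : Continuous G)
    (hG : ∀ x (χ : C →ₜ* Circle), χ (G x) = x.1 (Θ (Additive.ofMul χ)))
    (S : Set (Hm (ℕ →₀ ℚ))) (hS : IsPreconnected S) (hSA : ∀ x ∈ S, G x ∈ A) (h1 : 1 ∈ S) :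
    ∀ x ∈ S, x = 1 := by
  have h2 : ∀ x ∈ S, G x = 1 := by
    have h3 := hconn (G '' S) (by rintro _ ⟨x, hx, rfl⟩; exact hSA x hx)
      (hS.image G hGc.continuousOn) ⟨1, h1, map_one G⟩
    intro x hx
    exact h3 ⟨x, hx, rfl⟩
  choose χ m hm hχ using hΘ
  have h4 : ∀ x ∈ S, ∀ n, x.1 (Finsupp.single n (m n : ℚ)) = 1 := by
    intro x hx n
    rw [← hχ n, ← hG x (χ n), h2 x hx, map_one]
  intro x hx
  apply Subtype.ext
  funext q
  obtain ⟨N, hN, hN'⟩ := mult_mem m hm q
  -- the image of `S` under evaluation at `q` is preconnected and finite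
  have h5 : IsPreconnected ((fun y : Hm (ℕ →₀ ℚ) => y.1 q) '' S) :=
    hS.image _ ((continuous_apply q).comp continuous_subtype_val).continuousOn
  have hfin : ({z : Circle | z ^ N = 1}).Finite := by
    have hroots : ({z : ℂ | z ^ N = 1}).Finite := by
      have : {z : ℂ | z ^ N = 1} ⊆ ((Polynomial.nthRoots N (1 : ℂ)).toFinset : Set ℂ) := by
        intro z hz
        simp only [Finset.mem_coe, Multiset.mem_toFinset]
        rw [Polynomial.mem_nthRoots (Nat.pos_of_ne_zero hN)]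
        exact hz
      exact (Finset.finite_toSet _).subset this
    refine Set.Finite.of_finite_image (f := fun z : Circle => (z : ℂ)) (hroots.subset ?_)
      (fun a _ b _ h => Circle.ext h)
    rintro _ ⟨z, hz, rfl⟩
    show (z : ℂ) ^ N = 1
    have hz' : z ^ N = 1 := hz
    rw [← Circle.coe_pow, hz', Circle.coe_one]
  have h6 : (fun y : Hm (ℕ →₀ ℚ) => y.1 q) '' S ⊆ {z : Circle | z ^ N = 1} := by
    rintro _ ⟨y, hy, rfl⟩
    exact hN' y (h4 y hy)
  have h7 : ((fun y : Hm (ℕ →₀ ℚ) => y.1 q) '' S).Subsingleton :=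
    (hfin.subset h6).countable.isTotallyDisconnected _ Subset.rfl h5
  exact h7 ⟨x, hx, rfl⟩ ⟨1, h1, rfl⟩

/-- a closed subgroup of `Hom(Q, T)` without nontrivial connected subsets has bounded exponent
in every coordinate -/
theorem exists_expo {Q : Type} [AddCommGroup Q] (B : Subgroup (Hm Q))
    (hB : IsClosed (B : Set (Hm Q)))
    (hconn : ∀ S : Set (Hm Q), S ⊆ B → IsPreconnected S → (1 : Hm Q) ∈ S → ∀ x ∈ S, x = 1)
    (q : Q) : ∃ M : ℕ, M ≠ 0 ∧ ∀ x ∈ B, x.1 q ^ M = 1 := by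
  have hcomp : CompactSpace B := isCompact_iff_compactSpace.mp hB.isCompact
  have htd : TotallyDisconnectedSpace B := by
    refine ⟨fun S _ hS => ?_⟩
    intro x hx y hy
    let T : Set (Hm Q) := (fun z : B => ((x⁻¹ * z : B) : Hm Q)) '' S
    have hcont : Continuous (fun z : B => ((x⁻¹ * z : B) : Hm Q)) :=
      continuous_subtype_val.comp (continuous_const.mul continuous_id)
    have h1 := hconn T (by rintro _ ⟨z, _, rfl⟩; exact (x⁻¹ * z : B).2)
      (hS.image _ hcont.continuousOn) ⟨x, hx, by simp⟩ _ ⟨y, hy, rfl⟩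
    have h2 : (x⁻¹ * y : B) = 1 := Subtype.ext h1
    exact (inv_mul_eq_one.mp h2)
  let φ : B →* Circle :=
    { toFun := fun x => x.1.1 q
      map_one' := rfl
      map_mul' := fun x y => rfl }
  have hφ : Continuous φ :=
    (continuous_apply q).comp (continuous_subtype_val.comp continuous_subtype_val)
  let U : Set B := {x | ‖((φ x : Circle) : ℂ) - 1‖ < 1}
  have hU : IsOpen U := isOpen_lt
    (((continuous_subtype_val.comp hφ).sub continuous_const).norm) continuous_const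
  have h1U : (1 : B) ∈ U := by simp [U]
  obtain ⟨H, hH⟩ := ProfiniteGrp.exist_openNormalSubgroup_sub_open_nhds_of_one hU h1U
  have hfin : Finite (B ⧸ H.toSubgroup) := H.toSubgroup.quotient_finite_of_isOpen H.isOpen'
  have hidx : H.toSubgroup.index ≠ 0 := by
    rw [Subgroup.index_eq_card]
    exact Nat.card_pos.ne'
  refine ⟨H.toSubgroup.index, hidx, fun x hx => ?_⟩
  have h2 : (⟨x, hx⟩ : B) ^ H.toSubgroup.index ∈ H.toSubgroup := Subgroup.pow_index_mem _ _
  have h3 : φ ((⟨x, hx⟩ : B) ^ H.toSubgroup.index) = 1 := by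
    apply circle_nss
    intro j
    rw [← map_pow]
    exact hH (H.toSubgroup.pow_mem h2 j)
  rw [map_pow] at h3
  exact h3

/-- the functional `q ↦ ∑ q n / (M n * n!)` -/
noncomputable def fM (M : ℕ → ℕ) : (ℕ →₀ ℚ) →ₗ[ℚ] ℚ :=
  Finsupp.linearCombination ℚ (fun n => (1 / ((M n : ℚ) * (n.factorial : ℚ)) : ℚ))

theorem fM_single (M : ℕ → ℕ) (n : ℕ) (r : ℚ) :
    fM M (Finsupp.single n r) = r * (1 / ((M n : ℚ) * (n.factorial : ℚ))) := by
  simp [fM, Finsupp.linearCombination_single]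

theorem eq_one_of_factorial (x : Hm ℚ) (h : ∀ n : ℕ, x.1 (1 / (n.factorial : ℚ)) = 1) : x = 1 := by
  apply Subtype.ext
  funext q
  have h1 : q = (q.num * ((q.den - 1).factorial : ℤ)) • (1 / (q.den.factorial : ℚ)) := by
    have hd : q.den ≠ 0 := q.den_nz
    have h2 : (q.den.factorial : ℚ) = (q.den : ℚ) * ((q.den - 1).factorial : ℚ) := by
      have := Nat.mul_factorial_pred hd
      exact_mod_cast this.symm
    have h3 : ((q.den - 1).factorial : ℚ) ≠ 0 := by exact_mod_cast Nat.factorial_ne_zero _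
    have h4 : (q.den : ℚ) ≠ 0 := by exact_mod_cast hd
    rw [zsmul_eq_mul, h2]
    push_cast
    have hq : (q.num : ℚ) / (q.den : ℚ) = q := Rat.num_div_den q
    nth_rewrite 1 [← hq]
    field_simp
  rw [h1, Hm.zsmul, h, one_zpow]
  rfl

/-- TASK E -/
theorem taskE (hchar : TaskChar.{u}) (hD : TaskD.{u}) (hEa : TaskEa.{u}) : TaskE.{u} := by
  intro C _ _ _ _ _ _ A V hseq hV hconn hess
  obtain ⟨F, hF⟩ := exists_finset hchar V hV
  rcases hEa C F with hmet | ⟨Θ, hΘF, hΘ⟩
  · exact hmet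
  exfalso
  obtain ⟨G, hGc, hG⟩ := exists_hom hchar hD Θ
  -- the closed subgroup `B`
  let B : Subgroup (Hm (ℕ →₀ ℚ)) := A.comap G
  have hBseq : IsSeqClosed (B : Set (Hm (ℕ →₀ ℚ))) := by
    intro x y hx hy
    exact hseq hx ((hGc.tendsto y).comp hy)
  have hBc : IsClosed (B : Set (Hm (ℕ →₀ ℚ))) := hBseq.isClosed
  have hBconn : ∀ S : Set (Hm (ℕ →₀ ℚ)), S ⊆ B → IsPreconnected S → (1 : Hm (ℕ →₀ ℚ)) ∈ S →
      ∀ x ∈ S, x = 1 :=
    fun S hSB hS h1 => kill_of_conn A hconn Θ hΘ G hGc hG S hS (fun x hx => hSB hx) h1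
  choose M hM hM' using fun n : ℕ => exists_expo B hBc hBconn (Finsupp.single n (1 : ℚ))
  -- the homomorphism from `Hom(ℚ, T)`
  obtain ⟨G₁, hG₁c, hG₁⟩ := exists_hom hchar hD ((fM M).toAddMonoidHom.comp Θ)
  have hG₁G : ∀ x : Hm ℚ, ∃ y : Hm (ℕ →₀ ℚ), (∀ q, y.1 q = x.1 (fM M q)) ∧ G y = G₁ x := by
    intro x
    refine ⟨⟨fun q => x.1 (fM M q), fun a b => by
      show x.1 (fM M (a + b)) = x.1 (fM M a) * x.1 (fM M b)
      rw [map_add, Hm.add]⟩, fun q => rfl, ?_⟩
    apply ev_inj C hchar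
    funext χ
    show χ (G _) = χ (G₁ x)
    rw [hG, hG₁]
    rfl
  have hcl : IsClosed ((G₁.range : Subgroup C) : Set C) := by
    rw [MonoidHom.coe_range]
    exact (isCompact_range hG₁c).isClosed
  refine hess G₁.range hcl ?_ ?_ ?_
  · rintro _ ⟨x, rfl⟩
    apply hF
    intro χ hχ
    rw [hG₁]
    show x.1 (fM M (Θ (Additive.ofMul χ))) = 1
    rw [hΘF χ hχ, map_zero, Hm.zero]
  · -- nontrivial
    intro hbot
    obtain ⟨χ, m, hm, hχ⟩ := hΘ 0
    set r : ℚ := fM M (Finsupp.single 0 (m : ℚ)) with hr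
    have hr0 : r ≠ 0 := by
      rw [hr, fM_single]
      have h1 := hM 0
      have h2 : (M 0 : ℚ) ≠ 0 := by exact_mod_cast h1
      have h3 : (m : ℚ) ≠ 0 := by exact_mod_cast hm
      simp [h2, h3]
    let x : Hm ℚ := ⟨fun q => Circle.exp (Real.pi * (q / r : ℚ)), fun a b => by
      show Circle.exp _ = Circle.exp _ * Circle.exp _
      rw [← Circle.exp_add, add_div]
      push_cast
      rw [mul_add]⟩
    have h4 : G₁ x = 1 := by
      have : G₁ x ∈ G₁.range := ⟨x, rfl⟩
      rw [hbot] at this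
      exact this
    have h5 := hG₁ x χ
    rw [h4, map_one] at h5
    have h6 : x.1 (fM M (Θ (Additive.ofMul χ))) = Circle.exp Real.pi := by
      rw [hχ, ← hr]
      show Circle.exp (Real.pi * (r / r : ℚ)) = _
      rw [div_self hr0]
      simp
    have h7 : (1 : Circle) = Circle.exp Real.pi := by
      rw [← h6]; exact h5
    have h8 := congrArg (fun z : Circle => (z : ℂ)) h7
    simp only [Circle.coe_one, Circle.coe_exp, Complex.exp_pi_mul_I] at h8
    norm_num at h8
  · rw [eq_bot_iff]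
    rintro c ⟨⟨x, rfl⟩, hxA⟩
    obtain ⟨y, hy, hGy⟩ := hG₁G x
    have hyB : y ∈ B := by
      show G y ∈ A
      rw [hGy]; exact hxA
    have h1 : x = 1 := by
      apply eq_one_of_factorial
      intro n
      have h2 := hM' n y hyB
      rw [hy, fM_single, one_mul, ← Hm.nsmul] at h2
      rw [← h2]
      congr 1
      have h3 : (M n : ℚ) ≠ 0 := by exact_mod_cast hM n
      rw [nsmul_eq_mul]
      field_simp
    rw [h1, map_one]
    exact Subgroup.one_mem _

end main

end R658.CN
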