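import Mathlib
import Pool.Agent.R658.CN.TE

/-! # Project MP_12f6a1_al: definitions and task statements

Theorem: if `G` is a nilpotent, precompact, sequentially complete, locally minimal group with
`w(c(G))` not Ulam-measurable then `c(G) = c(K)` for its (compact) completion `K`.

`Hm Q` (homomorphisms from `Q` to the circle as a subgroup of the compact group `Q → Circle`), `exists_hom`, `exists_finset`,
`ev_emb`, `ev_inj`, `circle_nss`, `exists_expo`, `fM`, `eq_one_of_factorial` are in `Pool.Agent.R658.CN.TE`.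
`TaskChar` (enough characters) is proved in `Char.lean` (`taskChar`), `TaskD` (duality) in `TD.lean` (`taskD`). -/

namespace R658.CN

open Topology Filter Set TopologicalSpace Function

universe u

/-- the weight of a topological space -/
noncomputable def weight (Z : Type u) [TopologicalSpace Z] : Cardinal.{u} :=
  sInf {κ | ∃ B : Set (Set Z), IsTopologicalBasis B ∧ Cardinal.mk B = κ}

/-- a cardinal `κ` is Ulam-measurable if a set of size `κ` carries a free ultrafilter closed under
countable intersections -/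
def UlamMeasurable (κ : Cardinal.{u}) : Prop :=
  ∃ (α : Type u), Cardinal.mk α = κ ∧ ∃ U : Ultrafilter α, (∀ a : α, {a} ∉ U) ∧
    ∀ s : ℕ → Set α, (∀ n, s n ∈ U) → (⋂ n, s n) ∈ U

/-- the (additively written) group of continuous characters -/
abbrev XX (C : Type u) [CommGroup C] [TopologicalSpace C] := Additive (C →ₜ* Circle)

section defs
variable {C : Type u} [CommGroup C] [TopologicalSpace C]

/-- `d` is the point of `C` given by the functional `θ ∘ κ` and `x : Hom(ℚ, T)`:
`χ d = x (∑ i, κ(χ) i * θ i)` for all characters `χ`. -/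
def Pt {I : Type u} (κ : XX C →+ (I →₀ ℚ)) (θ : I → ℚ) (x : Hm ℚ) (d : C) : Prop :=
  ∀ χ : C →ₜ* Circle, χ d = x.1 (Finsupp.linearCombination ℚ θ (κ (Additive.ofMul χ)))

/-- a set `J` of coordinates is good if `A` contains all points `Pt κ θ x` with `θ` supported
in `J` -/
def Good (A : Subgroup C) {I : Type u} (κ : XX C →+ (I →₀ ℚ)) (J : Set I) : Prop :=
  ∀ θ : I → ℚ, (∀ i ∉ J, θ i = 0) → ∀ (x : Hm ℚ) (d : C), Pt κ θ x d → d ∈ A

/-- every coordinate vector has a nonzero multiple in the image -/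
def Coord {I : Type u} (κ : XX C →+ (I →₀ ℚ)) : Prop :=
  ∀ i, ∃ (χ : C →ₜ* Circle) (m : ℕ), m ≠ 0 ∧ κ (Additive.ofMul χ) = Finsupp.single i (m : ℚ)

/-- the annihilator of the characters which do not involve the coordinates in `J` -/
def CJ {I : Type u} (κ : XX C →+ (I →₀ ℚ)) (J : Set I) : Subgroup C where
  carrier := {c | ∀ χ : C →ₜ* Circle, (∀ i ∈ J, κ (Additive.ofMul χ) i = 0) → χ c = 1}
  mul_mem' := by
    intro a b ha hb χ hχ
    rw [map_mul, ha χ hχ, hb χ hχ, mul_one]
  one_mem' := fun χ _ => map_one χ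
  inv_mem' := by
    intro a ha χ hχ
    rw [map_inv, ha χ hχ, inv_one]

end defs

/-- TASK B0: coordinates on the character group (same proof as TaskEa; uses TaskChar).
`V = ℚ ⊗[ℤ] X`, `W` = span of the image of `F`, basis `(b_i)` of `V ⧸ W`, `κ` = coordinates.  The kernel of `κ` is the set of
`χ` mapped into the finite dimensional, hence countable, space `W`; `X → V` is injective as `C` is connected. -/
def TaskB0 : Prop :=
  ∀ (C : Type u) [CommGroup C] [TopologicalSpace C] [IsTopologicalGroup C] [CompactSpace C]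
    [T2Space C] [ConnectedSpace C] (F : Finset (C →ₜ* Circle)),
    ∃ (I : Type u) (κ : XX C →+ (I →₀ ℚ)), (∀ χ ∈ F, κ (Additive.ofMul χ) = 0) ∧ Coord κ ∧
      (κ.ker : Set (XX C)).Countable

/-- TASK DD: the characters of `Hom(Q, T)` are the evaluations (uses TaskD, TaskChar).
If `ψ` is not an evaluation, then there is a homomorphism `h` from the character group of `Hm Q` to the circle, trivial on the
evaluations, with `h ψ ≠ 1` (the circle is divisible; or extend from the subgroup by `ℤ`-injectivity).  By TaskD `h` is the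
evaluation at some `z : Hm Q`, so `z q = h (ev q) = 1` for all `q`, `z = 1` and `h ψ = ψ 1 = 1`. -/
def TaskDD : Prop :=
  ∀ (Q : Type) [AddCommGroup Q] (ψ : Hm Q →ₜ* Circle), ∃ q : Q, ∀ x : Hm Q, ψ x = x.1 q

/-- TASK BAD: there is no infinite disjoint family of bad sets (uses TaskChar, TaskD, TaskDD).
Suppose all `J n` are bad, witnessed by `θ_n` (supported in `J n`), `x_n`, `d_n ∉ A`.
`Θ : X → (ℕ →₀ ℚ)`, `Θ χ = ∑ n, (∑ i ∈ J n, κ(χ) i * θ_n i) ε_n` (finite support); `G : Hm (ℕ →₀ ℚ) → C` from `exists_hom`;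
`B = G⁻¹ A` is sequentially closed, so closed in the metrizable `Hm (ℕ →₀ ℚ)`.  `B⁰` = connected component of `1` in `B`
(a closed subgroup), `U = {q | ∀ y ∈ B⁰, y q = 1}`, a `ℚ`-subspace (if `m q ∈ U` then `y ↦ y q` has finite image on the
connected `B⁰`).
(a) `U` is finite dimensional: otherwise take linearly independent `u_0, u_1, …` in `U`.  The continuous homomorphism
`y ↦ y (u_n)` on the compact group `B` is trivial on `B⁰`; as `B⁰` is the intersection of the clopen neighbourhoods of `1` and
by `exist_openNormalSubgroup_sub_clopen_nhds_of_one` and `circle_nss` it is trivial on an open normal subgroup of `B`, so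
`y (u_n)^(M n) = 1` on `B` for some `M n ≠ 0`.  Take a linear `f : (ℕ →₀ ℚ) → ℚ` with `f u_n = 1/(M n * n!)`.  If
`G (x ∘ f) ∈ A` then `x (1/n!) = x (f (M n u_n)) = 1` for all `n`, so `x = 1`.  So `L = {G (x ∘ f) : x ∈ Hm ℚ}` is a closed subgroup of `C`,
contained in `V` (`Θ` vanishes on `F`), with `L ⊓ A = ⊥`, and `L ≠ ⊥` since `f ∘ Θ ≠ 0` (by `Coord` the image of `Θ` spans
`ℕ →₀ ℚ`).  This contradicts `hess`.
(b) Choose `n` with `u n = 0` for all `u ∈ U`.  By enough characters of `Hm (ℕ →₀ ℚ) ⧸ B⁰` and TaskDD, `B⁰ = {y | ∀ u ∈ U, y u = 1}`.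
So `y := x_n ∘ (n-th coordinate)` is in `B⁰ ⊆ B`, that is `d_n ∈ A`, a contradiction. -/
def TaskBad : Prop :=
  ∀ (C : Type u) [CommGroup C] [TopologicalSpace C] [IsTopologicalGroup C] [CompactSpace C]
    [T2Space C] [ConnectedSpace C] (A : Subgroup C) (V : Set C) (F : Finset (C →ₜ* Circle)),
    IsSeqClosed (A : Set C) →
    (∀ c : C, (∀ χ ∈ F, χ c = 1) → c ∈ V) →
    (∀ L : Subgroup C, IsClosed (L : Set C) → (L : Set C) ⊆ V → L ≠ ⊥ → L ⊓ A ≠ ⊥) →
    ∀ (I : Type u) (κ : XX C →+ (I →₀ ℚ)), (∀ χ ∈ F, κ (Additive.ofMul χ) = 0) → Coord κ →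
    ∀ J : ℕ → Set I, Pairwise (Disjoint on J) → ∃ n, Good A κ (J n)

/-- TASK SIGMA: countable unions of good sets are good (uses TaskChar, TaskD).
Pass to disjoint sets (subsets of good sets are good).  `θ` supported in the union, `d = Pt κ θ x`, `d_N = Pt κ θ_N x` with
`θ_N` = `θ` restricted to `J_0 ∪ … ∪ J_(N-1)` is a product of elements of `A`, and `d_N → d` since `χ d_N = χ d` for large `N`
(`κ χ` has finite support) and `ev` is an embedding (`ev_emb`). -/
def TaskSigma : Prop :=
  ∀ (C : Type u) [CommGroup C] [TopologicalSpace C] [IsTopologicalGroup C] [CompactSpace C]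
    [T2Space C] (A : Subgroup C), IsSeqClosed (A : Set C) →
    ∀ (I : Type u) (κ : XX C →+ (I →₀ ℚ)) (J : ℕ → Set I), (∀ n, Good A κ (J n)) →
    Good A κ (⋃ n, J n)

/-- TASK COMB (pure set theory): call sets in `𝓖` good.  A bad set which is not a disjoint union of two bad sets is
an atom.  Every bad set contains an atom (otherwise there is an infinite disjoint sequence of bad sets).  For an atom `J` the sets `S`
with `S ∩ J` bad form a countably complete ultrafilter; it is principal as `#I` is not Ulam-measurable (if free it would witness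
measurability), so `J` contains a bad singleton.  The set `F` of bad singletons is finite and its complement contains no atom, so is good. -/
def TaskComb : Prop :=
  ∀ (I : Type u) (𝓖 : Set (Set I)), (∀ s ∈ 𝓖, ∀ t ⊆ s, t ∈ 𝓖) →
    (∀ s : ℕ → Set I, (∀ n, s n ∈ 𝓖) → (⋃ n, s n) ∈ 𝓖) →
    (∀ s : ℕ → Set I, Pairwise (Disjoint on s) → ∃ n, s n ∈ 𝓖) →
    ¬ UlamMeasurable (Cardinal.mk I) → ∃ F : Set I, F.Finite ∧ Fᶜ ∈ 𝓖

/-- TASK APX: approximation of the points of `CJ κ J` (uses TaskChar, TaskD).
`c ∈ CJ κ J`: `χ ↦ χ c` factors through the restriction `κ_J : X → (I →₀ ℚ)` of `κ` to `J`; as the circle is divisible there is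
`y : (I →₀ ℚ) → T` with `y (κ_J χ) = χ c`.  Let `y_i ∈ Hm ℚ`, `y_i r = y (single i r)`.  `Hm ℚ` is compact metrizable; for each
`n` take a finite `1/n`-net `z_1..z_K` and for `i ∈ J` an index `k(i)` with `dist (z_(k(i))) y_i < 1/n`.  Let `c_n` be the
product over `k` of the points `Pt κ θ_k z_k` with `θ_k` the indicator function of `{i ∈ J | k(i) = k}` (they exist by
`exists_pt`).  Then `χ c_n → χ c` for every `χ` (finite support), so `c_n → c` (`ev_emb`). -/
def TaskApx : Prop :=
  ∀ (C : Type u) [CommGroup C] [TopologicalSpace C] [IsTopologicalGroup C] [CompactSpace C]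
    [T2Space C] (I : Type u) (κ : XX C →+ (I →₀ ℚ)) (J : Set I), ∀ c ∈ CJ κ J,
    ∃ s : ℕ → C, Tendsto s atTop (𝓝 c) ∧
      ∀ n, s n ∈ Subgroup.closure {d : C | ∃ θ : I → ℚ, (∀ i ∉ J, θ i = 0) ∧ ∃ x : Hm ℚ,
        Pt κ θ x d}

/-- TASK CONN (uses TaskApx, TaskChar, TaskD): `CJ κ J` is connected.
`Hm ℚ` is connected (`t ↦ (q ↦ exp(2 π i t q))` has dense image); so the points `Pt κ θ x`, `x ∈ Hm ℚ`, form a connected subgroup (a
continuous image, `exists_hom`), all contained in `CJ κ J`; the subgroup generated by all these is preconnected (finite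
products), and its closure, which is `CJ κ J` by TaskApx, too. -/
def TaskConn : Prop :=
  ∀ (C : Type u) [CommGroup C] [TopologicalSpace C] [IsTopologicalGroup C] [CompactSpace C]
    [T2Space C] (I : Type u) (κ : XX C →+ (I →₀ ℚ)) (J : Set I),
    IsPreconnected (CJ κ J : Set C)

/-- TASK WEIGHT (uses TaskChar, TaskD): lower bound for the weight.
Let `B` be a basis of `Z` of size `w`; `J` is infinite, so `w` is infinite.  For `i ∈ J` take `χ_i` with `κ χ_i = m_i ε_i`.  Cover the
circle by 100 small arcs.  By compactness of `CJ κ J` there is a finite set `code i ⊆ B × Fin 100` such that the first components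
cover `j⁻¹ (CJ κ J)` and `χ_i (j (b)) ⊆ arc` for `(b, arc) ∈ code i`.  If `code i = code i'` then
`|χ_i c - χ_i' c| < 1` for all `c ∈ CJ κ J`, so `χ_i = χ_i'` on the group `CJ κ J` by `circle_nss`; but for `i ≠ i'` in `J` there is
`c ∈ CJ κ J` with `χ_i c = -1`, `χ_i' c = 1` (`Pt` with `θ` supported in `{i}`).  So `#J ≤ #(Finset (B × Fin 100)) = w`. -/
def TaskWeight : Prop :=
  ∀ (C : Type u) [CommGroup C] [TopologicalSpace C] [IsTopologicalGroup C] [CompactSpace C]
    [T2Space C] (I : Type u) (κ : XX C →+ (I →₀ ℚ)), Coord κ → ∀ J : Set I, J.Infinite →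
    ∀ (Z : Type u) [TopologicalSpace Z] (j : Z → C), IsEmbedding j → (CJ κ J : Set C) ⊆ range j →
    Cardinal.mk J ≤ weight Z

/-- TASK LIFT (uses TaskChar, TaskD): lifting of convergent sequences modulo a compact central
subgroup `D` of a compact group `K`.
For a character `χ` of `D` let `f : K → ℂ` be a continuous extension (Tietze) of `k * d ↦ χ d` from `k D` and
`F_χ(z) = ∫_D f(z d) conj(χ d) dd` (Haar probability): continuous, `F_χ(z d) = F_χ(z) χ(d)`, `F_χ(k) = 1`.  Then
`|F_χ(x n)| → 1`, so `a_χ(n) = F_χ(x n)/|F_χ(x n)|` (`1` if `F_χ (x n) = 0`) is a sequence in the circle, and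
`a_(χψ)(n) / (a_χ(n) a_ψ(n)) → 1` (the function `F_(χψ)/(F_χ F_ψ)` is `D`-invariant, continuous and `1` at `k D`).  So `a` induces a
homomorphism from the character group of `D` to `(ℕ → Circle) ⧸ N`, `N` = sequences tending to `1`.  `N` is divisible so
`(ℕ → Circle) → (ℕ → Circle) ⧸ N` has a section which is a homomorphism (divisible groups are injective), giving
homomorphisms `h n` to the circle with `h n χ / a_χ(n) → 1`.  By TaskD `h n χ = χ (d' n)`, put `d n = (d' n)⁻¹`.  Then
`F_χ (x n * d n) → 1`; every cluster point of `x n * d n` is of the form `k * e`, `e ∈ D`, with `χ e = 1` for all `χ`,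
so it is `k`. -/
def TaskLift : Prop :=
  ∀ (K : Type u) [Group K] [TopologicalSpace K] [IsTopologicalGroup K] [CompactSpace K]
    [T2Space K] (D : Subgroup K), D.Normal → IsClosed (D : Set K) →
    (∀ d ∈ D, ∀ k : K, d * k = k * d) → ∀ (x : ℕ → K) (k : K),
    Tendsto (fun n => (QuotientGroup.mk (x n) : K ⧸ D)) atTop (𝓝 (QuotientGroup.mk k : K ⧸ D)) →
    ∃ d : ℕ → K, (∀ n, d n ∈ D) ∧ Tendsto (fun n => x n * d n) atTop (𝓝 k)

end R658.CN
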