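import Mathlib
import Pool.Agent.R658.CN.Stmts

/-! # Project MP_0bb520_al: task C (the metrizable case) -/

namespace R658.CN

open Topology Filter Set TopologicalSpace

universe u

namespace TC

/-- Sequences converging to a closed metrizable subset have convergent subsequences. -/
theorem subseq {K : Type u} [TopologicalSpace K] [CompactSpace K] [T2Space K] (A : Set K)
    (hA : IsClosed A) (hm : MetrizableSpace A) (y : ℕ → K)
    (hy : ∀ W : Set K, IsOpen W → A ⊆ W → ∀ᶠ n in atTop, y n ∈ W) :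
    ∃ x ∈ A, ∃ φ : ℕ → ℕ, StrictMono φ ∧ Tendsto (y ∘ φ) atTop (𝓝 x) := by
  have : CompactSpace A := isCompact_iff_compactSpace.1 hA.isCompact
  let _ : MetricSpace A := metrizableSpaceMetric A
  have : SecondCountableTopology A := inferInstance
  obtain ⟨f, hf⟩ := exists_embedding_l_infty A
  have hext : ∀ j : ℕ, ∃ F : C(K, ℝ), ∀ a : A, F a = f a j := by
    intro j
    have hc : Continuous fun a : A => f a j :=
      (continuous_eval_const j).comp hf.continuous
    obtain ⟨F, hF⟩ := ContinuousMap.exists_restrict_eq hA (⟨fun a : A => f a j, hc⟩ : C(A, ℝ))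
    refine ⟨F, fun a => ?_⟩
    have := congrArg (fun g : C(A, ℝ) => g a) hF
    simpa using this
  choose F hF using hext
  set Φ : K → ℕ → ℝ := fun x j => F j x with hΦ
  have hΦc : Continuous Φ := continuous_pi fun j => (F j).continuous
  have hcomp : IsCompact (range Φ) := isCompact_range hΦc
  obtain ⟨p, _, φ, hφ, hlim⟩ := hcomp.tendsto_subseq (x := fun n => Φ (y n))
    (fun n => mem_range_self _)
  have hmem : ∀ x, ClusterPt x (map (y ∘ φ) atTop) → x ∈ A ∧ Φ x = p := by
    intro x hx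
    constructor
    · by_contra hxA
      obtain ⟨W, O, hW, hO, hAW, hxO, hd⟩ :=
        hA.isCompact.separation_of_notMem hxA |> fun ⟨U, V, h1, h2, h3, h4, h5⟩ =>
          (⟨U, V, h1, h2, h3, h4, h5⟩ : ∃ U V : Set K, IsOpen U ∧ IsOpen V ∧ A ⊆ U ∧ x ∈ V ∧
            Disjoint U V)
      have h1 : ∀ᶠ n in atTop, (y ∘ φ) n ∈ W := hφ.tendsto_atTop.eventually (hy W hW hAW)
      have h2 : ∃ᶠ n in atTop, (y ∘ φ) n ∈ O := by
        have := hx.frequently (hO.mem_nhds hxO)
        exact frequently_map.1 this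
      obtain ⟨n, h3, h4⟩ := (h2.and_eventually h1).exists
      exact disjoint_left.1 hd h4 h3
    · have h1 : ClusterPt (Φ x) (map (Φ ∘ (y ∘ φ)) atTop) := by
        have := hx.map hΦc.continuousAt (tendsto_map (f := Φ) (x := map (y ∘ φ) atTop))
        rwa [map_map] at this
      have h2 : Tendsto (Φ ∘ (y ∘ φ)) atTop (𝓝 p) := hlim
      have h3 : ClusterPt (Φ x) (𝓝 p) := h1.mono h2
      exact (eq_of_nhds_neBot h3)
  have hinj : ∀ x x' : K, x ∈ A → x' ∈ A → Φ x = Φ x' → x = x' := by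
    intro x x' hx hx' h
    have h1 : f ⟨x, hx⟩ = f ⟨x', hx'⟩ := by
      ext j
      rw [← hF j ⟨x, hx⟩, ← hF j ⟨x', hx'⟩]
      exact congrFun h j
    have := hf.injective h1
    simpa using this
  obtain ⟨x, hx⟩ := exists_clusterPt_of_compactSpace (map (y ∘ φ) atTop)
  obtain ⟨hxA, hxp⟩ := hmem x hx
  refine ⟨x, hxA, φ, hφ, ?_⟩
  apply le_nhds_of_unique_clusterPt
  intro x' hx'
  obtain ⟨h1, h2⟩ := hmem x' hx'
  exact hinj x' x h1 hxA (h2.trans hxp.symm)

/-- Factorial powers go to the identity component. -/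
theorem powers {K : Type u} [Group K] [TopologicalSpace K] [IsTopologicalGroup K]
    [CompactSpace K] [T2Space K] (W : Set K) (hW : IsOpen W)
    (hcW : connectedComponent (1 : K) ⊆ W) :
    ∃ m : ℕ, ∀ n ≥ m, ∀ x : K, x ^ n.factorial ∈ W := by
  have : Nonempty { s : Set K // IsClopen s ∧ (1 : K) ∈ s } :=
    ⟨⟨univ, isClopen_univ, mem_univ _⟩⟩
  obtain ⟨⟨Z, hZ1, hZ2⟩, hZW⟩ := exists_subset_nhds_of_compactSpace
    (V := fun s : { s : Set K // IsClopen s ∧ (1 : K) ∈ s } => (s : Set K))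
    (by
      intro s t
      exact ⟨⟨s.1 ∩ t.1, s.2.1.inter t.2.1, s.2.2, t.2.2⟩, inter_subset_left, inter_subset_right⟩)
    (fun s => s.2.1.isClosed) (U := W)
    (by
      intro x hx
      rw [← connectedComponent_eq_iInter_isClopen] at hx
      exact hW.mem_nhds (hcW hx))
  obtain ⟨H, hH⟩ := IsTopologicalGroup.exist_openNormalSubgroup_sub_clopen_nhds_of_one hZ1 hZ2
  have hfin : H.toSubgroup.FiniteIndex := H.toOpenSubgroup.finiteIndex_of_finite_quotient
  refine ⟨H.toSubgroup.index, fun n hn x => hZW (hH ?_)⟩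
  have h1 : x ^ H.toSubgroup.index ∈ H.toSubgroup := Subgroup.pow_index_mem _ x
  have h2 : H.toSubgroup.index ∣ n.factorial :=
    Nat.dvd_factorial (Nat.pos_of_ne_zero hfin.index_ne_zero) hn
  obtain ⟨k, hk⟩ := h2
  rw [hk, pow_mul]
  exact H.toSubgroup.pow_mem h1 k

end TC

open TC in
theorem taskC : TaskC.{u} := by
  intro K _ _ _ _ _ H hd hs hdiv hm c₀ hc₀
  by_contra hcH
  set A : Set K := (H : Set K) ∩ connectedComponent (1 : K) with hA
  have hAc : IsClosed A := by
    have h1 : IsSeqClosed ((fun a : connectedComponent (1 : K) => (a : K)) ⁻¹' (H : Set K)) := by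
      intro x p hx hp
      exact hs hx ((continuous_subtype_val.tendsto p).comp hp)
    have h2 := h1.isClosed
    have h3 := (isClosed_connectedComponent (x := (1 : K))).isClosedEmbedding_subtypeVal.isClosedMap _ h2
    rw [Subtype.image_preimage_coe] at h3
    rw [hA, inter_comm]
    exact h3
  have hcA : c₀ ∈ Aᶜ := fun h => hcH h.1
  obtain ⟨O, hO, hcO, hOA⟩ : ∃ O : Set K, IsOpen O ∧ c₀ ∈ O ∧ closure O ⊆ Aᶜ := by
    obtain ⟨t, ht, htc, hts⟩ := exists_mem_nhds_isClosed_subset (hAc.isOpen_compl.mem_nhds hcA)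
    obtain ⟨O, hOt, hO, hcO⟩ := mem_nhds_iff.1 ht
    exact ⟨O, hO, hcO, (closure_minimal hOt htc).trans hts⟩
  have hex : ∀ n : ℕ, ∃ h ∈ H, h ^ n.factorial ∈ O := by
    intro n
    obtain ⟨d, _, hd2⟩ := hdiv n.factorial (Nat.factorial_ne_zero n) c₀ hc₀
    have h1 : IsOpen {x : K | x ^ n.factorial ∈ O} := hO.preimage (continuous_pow _)
    obtain ⟨h, hh1, hh2⟩ := hd.inter_open_nonempty _ h1 ⟨d, by
      change d ^ n.factorial ∈ O
      rw [hd2]; exact hcO⟩
    exact ⟨h, hh2, hh1⟩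
  choose h hhH hhO using hex
  obtain ⟨x, hxA, φ, hφ, hlim⟩ := subseq (connectedComponent (1 : K))
    isClosed_connectedComponent hm (fun n => h n ^ n.factorial) (by
      intro W hW hcW
      obtain ⟨m, hm⟩ := powers W hW hcW
      exact eventually_atTop.2 ⟨m, fun n hn => hm n hn (h n)⟩)
  have hxH : x ∈ (H : Set K) := hs (fun n => H.pow_mem (hhH _) _) hlim
  have hxO : x ∈ closure O := mem_closure_of_tendsto hlim (Eventually.of_forall fun n => hhO _)
  exact hOA hxO ⟨hxH, hxA⟩

end R658.CN
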