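import Mathlib
import Pool.Agent.R658.CN.Stmts2
import Pool.Agent.R658.CN.TC
import Pool.Agent.R658.CN.Main

namespace R658.CN

open Topology Filter Set TopologicalSpace Function

universe u

theorem taskC2 {K : Type u} [Group K] [TopologicalSpace K] [IsTopologicalGroup K]
    [CompactSpace K] [T2Space K] (C' : Set K) (hC' : IsClosed C')
    (hpow : ∀ W : Set K, IsOpen W → C' ⊆ W → ∃ m : ℕ, ∀ n ≥ m, ∀ x : K, x ^ n.factorial ∈ W)
    (H : Subgroup K) (hd : Dense (H : Set K)) (hs : IsSeqClosed (H : Set K))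
    (hdiv : ∀ n : ℕ, n ≠ 0 → ∀ c ∈ C', ∃ d ∈ C', d ^ n = c)
    (hm : MetrizableSpace C') : C' ⊆ H := by
  intro c₀ hc₀
  by_contra hcH
  set A : Set K := (H : Set K) ∩ C' with hA
  have hAc : IsClosed A := by
    have h1 : IsSeqClosed ((fun a : C' => (a : K)) ⁻¹' (H : Set K)) := by
      intro x p hx hp
      exact hs hx ((continuous_subtype_val.tendsto p).comp hp)
    have h2 := h1.isClosed
    have h3 := hC'.isClosedEmbedding_subtypeVal.isClosedMap _ h2
    rw [Subtype.image_preimage_coe] at h3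
    rw [hA, inter_comm]
    exact h3
  have hcA : c₀ ∈ Aᶜ := fun h => hcH h.1
  obtain ⟨O, hO, hcO, hOA⟩ : ∃ O : Set K, IsOpen O ∧ c₀ ∈ O ∧ closure O ⊆ Aᶜ := by
    obtain ⟨t, ht, htc, hts⟩ := exists_mem_nhds_isClosed_subset (hAc.isOpen_compl.mem_nhds hcA)
    obtain ⟨O, hOt, hO, hcO⟩ := mem_nhds_iff.1 ht
    exact ⟨O, hO, hcO, (closure_minimal hOt htc).trans hts⟩
  have hex : ∀ n : ℕ, ∃ h ∈ H, h ^ n.factorial ∈ O := by
    intro n
    obtain ⟨d, _, hd2⟩ := hdiv n.factorial (Nat.factorial_ne_zero n) c₀ hc₀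
    have h1 : IsOpen {x : K | x ^ n.factorial ∈ O} := hO.preimage (continuous_pow _)
    obtain ⟨h, hh1, hh2⟩ := hd.inter_open_nonempty _ h1 ⟨d, by
      change d ^ n.factorial ∈ O
      rw [hd2]; exact hcO⟩
    exact ⟨h, hh2, hh1⟩
  choose h hhH hhO using hex
  obtain ⟨x, hxA, φ, hφ, hlim⟩ := TC.subseq C' hC' hm (fun n => h n ^ n.factorial) (by
      intro W hW hcW
      obtain ⟨m, hm⟩ := hpow W hW hcW
      exact eventually_atTop.2 ⟨m, fun n hn => hm n hn (h n)⟩)
  have hxH : x ∈ (H : Set K) := hs (fun n => H.pow_mem (hhH _) _) hlim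
  have hxO : x ∈ closure O := mem_closure_of_tendsto hlim (Eventually.of_forall fun n => hhO _)
  exact hOA hxO ⟨hxH, hxA⟩

theorem ulam_mono {a b : Cardinal.{u}} (hab : a ≤ b) (h : UlamMeasurable a) :
    UlamMeasurable b := by
  obtain ⟨α, rfl, U, hU1, hU2⟩ := h
  obtain ⟨β, rfl⟩ : ∃ β : Type u, Cardinal.mk β = b := ⟨b.out, Cardinal.mk_out b⟩
  obtain ⟨f⟩ := hab
  refine ⟨β, rfl, U.map f, ?_, ?_⟩
  · intro b hb
    rw [Ultrafilter.mem_map] at hb
    by_cases hne : ∃ a, f a = b
    · obtain ⟨a, rfl⟩ := hne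
      have : f ⁻¹' {f a} = {a} := by
        ext x; simp
      rw [this] at hb
      exact hU1 a hb
    · have : f ⁻¹' {b} = ∅ := by
        ext x
        simp only [mem_preimage, mem_singleton_iff, mem_empty_iff_false, iff_false]
        exact fun h => hne ⟨x, h⟩
      rw [this] at hb
      exact U.empty_notMem hb
  · intro s hs
    rw [Ultrafilter.mem_map, Set.preimage_iInter]
    exact hU2 _ fun n => hs n

theorem ulam_infinite {α : Type u} (h : UlamMeasurable (Cardinal.mk α)) : Infinite α := by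
  obtain ⟨β, hβ, U, hU1, hU2⟩ := h
  have h1 : Infinite β := by
    by_contra hfin
    rw [not_infinite_iff_finite] at hfin
    obtain ⟨a, -, ha⟩ := Ultrafilter.eq_pure_of_finite_mem (Set.finite_univ) (Filter.univ_mem : univ ∈ (U : Filter β))
    apply hU1 a
    rw [ha]
    exact Set.mem_singleton a
  obtain ⟨e⟩ := Cardinal.eq.mp hβ
  exact Infinite.of_injective e e.injective

theorem apx_le (hApx : TaskApx.{u}) {C : Type u} [CommGroup C] [TopologicalSpace C]
    [IsTopologicalGroup C] [CompactSpace C] [T2Space C] (A : Subgroup C)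
    (hseq : IsSeqClosed (A : Set C)) {I : Type u} (κ : XX C →+ (I →₀ ℚ)) (J : Set I)
    (hJ : Good A κ J) : CJ κ J ≤ A := by
  intro c hc
  obtain ⟨s, hs, hsA⟩ := hApx C I κ J c hc
  refine hseq (x := s) ?_ hs
  intro n
  have h1 : Subgroup.closure {d : C | ∃ θ : I → ℚ, (∀ i ∉ J, θ i = 0) ∧ ∃ x : Hm ℚ,
        Pt κ θ x d} ≤ A := by
    rw [Subgroup.closure_le]
    rintro d ⟨θ, hθ, x, hx⟩
    exact hJ θ hθ x d hx
  exact h1 (hsA n)

theorem isClosed_CJ {C : Type u} [CommGroup C] [TopologicalSpace C]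
    {I : Type u} (κ : XX C →+ (I →₀ ℚ)) (J : Set I) : IsClosed (CJ κ J : Set C) := by
  have : (CJ κ J : Set C) = ⋂ χ : C →ₜ* Circle, ⋂ _ : ∀ i ∈ J, κ (Additive.ofMul χ) i = 0,
      {c | χ c = 1} := by
    ext c; simp [CJ]
  rw [this]
  exact isClosed_iInter fun χ => isClosed_iInter fun _ =>
    isClosed_eq χ.continuous_toFun continuous_const

theorem countable_X1 {C : Type u} [CommGroup C] [TopologicalSpace C]
    {I : Type u} (κ : XX C →+ (I →₀ ℚ)) (hker : (κ.ker : Set (XX C)).Countable) (F : Set I)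
    (hF : F.Finite) :
    {χ : C →ₜ* Circle | ∀ i ∈ Fᶜ, κ (Additive.ofMul χ) i = 0}.Countable := by
  classical
  set S := {χ : C →ₜ* Circle | ∀ i ∈ Fᶜ, κ (Additive.ofMul χ) i = 0} with hS
  have hfinF : Finite F := hF.to_subtype
  -- the map to coordinates in `F`
  let g : (C →ₜ* Circle) → (F → ℚ) := fun χ i => κ (Additive.ofMul χ) i
  have hcount : (range (fun χ : S => g χ)).Countable := Set.to_countable _
  have h1 : S = ⋃ v ∈ range (fun χ : S => g χ), {χ ∈ S | g χ = v} := by
    ext χ
    constructor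
    · intro hχ
      simp only [mem_iUnion]
      exact ⟨g χ, ⟨⟨χ, hχ⟩, rfl⟩, hχ, rfl⟩
    · intro h
      simp only [mem_iUnion] at h
      obtain ⟨v, -, h, -⟩ := h
      exact h
  rw [h1]
  refine hcount.biUnion fun v hv => ?_
  obtain ⟨⟨χ₀, hχ₀⟩, rfl⟩ := hv
  have h2 : {χ ∈ S | g χ = g χ₀} ⊆ (fun ψ : XX C => χ₀ * Additive.toMul ψ) '' (κ.ker : Set (XX C)) := by
    rintro χ ⟨hχS, hχ⟩
    refine ⟨Additive.ofMul (χ₀⁻¹ * χ), ?_, ?_⟩
    · show κ _ = 0
      rw [ofMul_mul, ofMul_inv, map_add, map_neg]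
      ext i
      by_cases hi : i ∈ F
      · have := congrFun hχ ⟨i, hi⟩
        simp only [g] at this
        simp [this]
      · have h3 := hχS i hi
        have h4 := hχ₀ i hi
        simp [h3, h4]
    · show χ₀ * (χ₀⁻¹ * χ) = χ
      rw [mul_inv_cancel_left]
  exact (hker.image _).mono h2


/-- metrizability of the image of `C` modulo the annihilator of countably many characters -/
theorem metrizable_image {K K' : Type u} [TopologicalSpace K] [TopologicalSpace K'] [T2Space K']
    {C : Set K} (hC : IsCompact C) (q : K → K') (hq : Continuous q) {ι : Type u} [Countable ι]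
    (f : ι → C → Circle) (hf : ∀ j, Continuous (f j))
    (hfq : ∀ a b : C, (∀ j, f j a = f j b) ↔ q a = q b) : MetrizableSpace (q '' C) := by
  have hCc : CompactSpace C := isCompact_iff_compactSpace.mp hC
  have hcomp : CompactSpace (q '' C) := isCompact_iff_compactSpace.mp (hC.image hq)
  let r : C → q '' C := fun c => ⟨q c, c, c.2, rfl⟩
  have hr : Continuous r := (hq.comp continuous_subtype_val).subtype_mk _
  have hrs : Function.Surjective r := by
    rintro ⟨_, c, hc, rfl⟩
    exact ⟨⟨c, hc⟩, rfl⟩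
  have hrq : IsQuotientMap r := hr.isClosedMap.isQuotientMap hr hrs
  let g : C → ι → Circle := fun c j => f j c
  have hg : Continuous g := continuous_pi fun j => hf j
  choose t ht using hrs
  let Φ : q '' C → ι → Circle := fun y => g (t y)
  have hΦr : Φ ∘ r = g := by
    funext c j
    have h1 : r (t (r c)) = r c := ht (r c)
    have h2 : q (t (r c)) = q c := congrArg Subtype.val h1
    exact (hfq _ _).mpr h2 j
  have hΦ : Continuous Φ := by
    rw [hrq.continuous_iff, hΦr]
    exact hg
  have hinj : Function.Injective Φ := by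
    intro a b hab
    have h1 : q (t a) = q (t b) := (hfq _ _).mp fun j => congrFun hab j
    have h2 : r (t a) = r (t b) := Subtype.ext h1
    rw [← ht a, ← ht b, h2]
  exact (hΦ.isClosedEmbedding hinj).isEmbedding.metrizableSpace

theorem main2 (hchar : TaskChar.{u}) (hM : TaskM.{u}) (hN : TaskN.{u}) (hF : TaskF.{u})
    (hDiv : TaskDiv.{u}) (hB0 : TaskB0.{u}) (hBad : TaskBad.{u}) (hSigma : TaskSigma.{u})
    (hComb : TaskComb.{u}) (hApx : TaskApx.{u}) (hConn : TaskConn.{u}) (hWeight : TaskWeight.{u})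
    (hLift : TaskLift.{u})
    {G K : Type u} [Group G] [TopologicalSpace G] [IsTopologicalGroup G] [Group K]
    [TopologicalSpace K] [IsTopologicalGroup K] [CompactSpace K] [T2Space K] (i : G →* K)
    (hi : IsEmbedding i) (hd : DenseRange i) (hnil : Group.IsNilpotent G) (hseq : SeqComplete G)
    (hloc : LocallyMinimal G) (hw : ¬ UlamMeasurable (weight (connectedComponent (1 : G)))) :
    i '' connectedComponent (1 : G) = connectedComponent (1 : K) := by
  classical
  have hKn : Group.IsNilpotent K := hN G K i hd hnil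
  have hcen := hF K hKn
  let C : Subgroup K := Subgroup.connectedComponentOfOne K
  have hCcl : IsClosed (C : Set K) := isClosed_connectedComponent
  have hCc : CompactSpace C := isCompact_iff_compactSpace.mp hCcl.isCompact
  have hCcon : ConnectedSpace C :=
    isConnected_iff_connectedSpace.mp (isConnected_connectedComponent (x := (1 : K)))
  letI : CommGroup C := { (inferInstance : Group C) with
    mul_comm := fun a b => Subtype.ext (hcen a.1 a.2 b.1) }
  have hseqK := seqClosed_range i hi hseq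
  obtain ⟨V, hV, hVN⟩ := hM G K i hi hd hloc
  let A : Subgroup C := i.range.comap C.subtype
  have hAseq : IsSeqClosed (A : Set C) := by
    intro x y hx hy
    exact hseqK hx ((continuous_subtype_val.tendsto y).comp hy)
  have hV' : C.subtype ⁻¹' V ∈ 𝓝 (1 : C) := continuous_subtype_val.continuousAt.preimage_mem_nhds hV
  have hess : ∀ L : Subgroup C, IsClosed (L : Set C) → (L : Set C) ⊆ C.subtype ⁻¹' V → L ≠ ⊥ →
      L ⊓ A ≠ ⊥ := by
    intro L hLc hLV hL
    have hnorm : (L.map C.subtype).Normal := by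
      refine ⟨?_⟩
      rintro _ ⟨l, hl, rfl⟩ g
      refine ⟨l, hl, ?_⟩
      have := hcen l.1 l.2 g
      show (l : K) = g * (l : K) * g⁻¹
      rw [← this, mul_inv_cancel_right]
    have hcl' : IsClosed ((L.map C.subtype : Subgroup K) : Set K) := by
      rw [Subgroup.coe_map]
      exact hCcl.isClosedEmbedding_subtypeVal.isClosedMap _ hLc
    obtain ⟨g, hg1, hg⟩ := hVN (L.map C.subtype) hnorm hcl' (by
      rintro _ ⟨l, hl, rfl⟩
      exact hLV hl) (by
      intro hbot
      apply hL
      rw [eq_bot_iff]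
      intro l hl
      have h3 : (l : K) ∈ L.map C.subtype := ⟨l, hl, rfl⟩
      rw [hbot] at h3
      exact Subtype.ext h3)
    obtain ⟨l, hl, hlg⟩ := hg
    intro hbot
    have h4 : l ∈ L ⊓ i.range.comap C.subtype := ⟨hl, g, hlg.symm⟩
    rw [hbot] at h4
    have h5 : l = 1 := h4
    apply hg1
    apply hi.injective
    rw [← hlg, h5, map_one, map_one]
  obtain ⟨F, hFV⟩ := exists_finset hchar (C.subtype ⁻¹' V) hV'
  obtain ⟨I, κ, hκF, hκ, hker⟩ := hB0 C F
  have hbad := hBad C A (C.subtype ⁻¹' V) F hAseq hFV hess I κ hκF hκ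
  have hsig := hSigma C A hAseq I κ
  -- connected subsets of `range i` lie in the image of the component of `G`
  have hconnG : ∀ T : Set K, T ⊆ Set.range i → IsPreconnected T → (1 : K) ∈ T →
      T ⊆ i '' connectedComponent (1 : G) := by
    intro T hT hTc h1
    have h2 : i '' (i ⁻¹' T) = T := by
      rw [Set.image_preimage_eq_inter_range, Set.inter_eq_left.mpr hT]
    have h3 : IsPreconnected (i ⁻¹' T) := by
      rw [← hi.isInducing.isPreconnected_image, h2]
      exact hTc
    have h4 : (1 : G) ∈ i ⁻¹' T := by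
      show i 1 ∈ T
      rw [map_one]; exact h1
    rw [← h2]
    exact Set.image_mono (h3.subset_connectedComponent h4)
  have hsubK : i '' connectedComponent (1 : G) ⊆ connectedComponent (1 : K) := by
    apply IsPreconnected.subset_connectedComponent
    · exact isPreconnected_connectedComponent.image _ hi.continuous.continuousOn
    · exact ⟨1, mem_connectedComponent, map_one i⟩
  -- the coordinate set is not Ulam-measurable
  have hU : ¬ UlamMeasurable (Cardinal.mk I) := by
    intro hU
    have hinf : Infinite I := ulam_infinite hU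
    have hcard : Cardinal.mk (I × ℕ) = Cardinal.mk I := by
      rw [Cardinal.mk_prod, Cardinal.lift_uzero, Cardinal.mk_nat, Cardinal.lift_aleph0]
      exact Cardinal.mul_aleph0_eq (Cardinal.aleph0_le_mk I)
    obtain ⟨e⟩ := Cardinal.eq.mp hcard
    let J : ℕ → Set I := fun n => {x | (e.symm x).2 = n}
    have hJd : Pairwise (Disjoint on J) := by
      intro a b hab
      show Disjoint (J a) (J b)
      rw [Set.disjoint_left]
      intro x hx hx'
      exact hab (Eq.trans (Eq.symm hx) hx')
    obtain ⟨n, hn⟩ := hbad J hJd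
    have hJcard : Cardinal.mk (J n) = Cardinal.mk I := by
      refine Cardinal.mk_congr
        { toFun := fun x => (e.symm x.1).1
          invFun := fun y => ⟨e (y, n), by simp [J]⟩
          left_inv := ?_
          right_inv := ?_ }
      · rintro ⟨x, hx⟩
        apply Subtype.ext
        have hx' : (e.symm x).2 = n := hx
        show e ((e.symm x).1, n) = x
        rw [← hx', Prod.mk.eta, Equiv.apply_symm_apply]
      · intro y
        simp
    have hJinf : (J n).Infinite := by
      rw [← Set.infinite_coe_iff, Cardinal.infinite_iff, hJcard]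
      exact Cardinal.aleph0_le_mk I
    have hle := apx_le hApx A hAseq κ (J n) hn
    have hcon := hConn C I κ (J n)
    let j : connectedComponent (1 : G) → C := fun g => ⟨i g, hsubK ⟨g, g.2, rfl⟩⟩
    have hj : IsEmbedding j := by
      have h1 : IsEmbedding (Subtype.val ∘ j) := by
        have : Subtype.val ∘ j = i ∘ Subtype.val := rfl
        rw [this]
        exact hi.comp IsEmbedding.subtypeVal
      exact IsEmbedding.of_comp
        ((hi.continuous.comp continuous_subtype_val).subtype_mk _) continuous_subtype_val h1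
    have hCJ : (CJ κ (J n) : Set C) ⊆ range j := by
      have h2 : (Subtype.val '' (CJ κ (J n) : Set C) : Set K) ⊆ i '' connectedComponent (1 : G) := by
        apply hconnG
        · rintro _ ⟨c, hc, rfl⟩
          exact hle hc
        · exact hcon.image _ continuous_subtype_val.continuousOn
        · exact ⟨1, (CJ κ (J n)).one_mem, rfl⟩
      intro c hc
      obtain ⟨g, hg, hgc⟩ := h2 ⟨c, hc, rfl⟩
      exact ⟨⟨g, hg⟩, Subtype.ext hgc⟩
    have h3 := hWeight C I κ hκ (J n) hJinf (connectedComponent (1 : G)) j hj hCJ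
    rw [hJcard] at h3
    exact hw (ulam_mono h3 hU)
  obtain ⟨F0, hF0, hgood⟩ := hComb I {J | Good A κ J}
    (fun s hs t hts θ hθ x d hd => hs θ (fun i hi => hθ i (fun h => hi (hts h))) x d hd)
    (fun s hs => hsig s hs) (fun s hs => hbad s hs) hU
  have hC1A : CJ κ F0ᶜ ≤ A := apx_le hApx A hAseq κ F0ᶜ hgood
  have hcount := countable_X1 κ hker F0 hF0
  -- the quotient
  let D : Subgroup K := (CJ κ F0ᶜ).map C.subtype
  have hDcen : ∀ d ∈ D, ∀ k : K, d * k = k * d := by
    rintro _ ⟨c, -, rfl⟩ k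
    exact hcen c.1 c.2 k
  have hDn : D.Normal := by
    refine ⟨?_⟩
    rintro _ ⟨l, hl, rfl⟩ g
    refine ⟨l, hl, ?_⟩
    have := hcen l.1 l.2 g
    show (l : K) = g * (l : K) * g⁻¹
    rw [← this, mul_inv_cancel_right]
  have hDcl : IsClosed (D : Set K) := by
    show IsClosed (((CJ κ F0ᶜ).map C.subtype : Subgroup K) : Set K)
    rw [Subgroup.coe_map]
    exact hCcl.isClosedEmbedding_subtypeVal.isClosedMap _ (isClosed_CJ κ _)
  have hDle : D ≤ i.range := by
    rintro _ ⟨c, hc, rfl⟩
    exact hC1A hc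
  have hmk : Continuous (QuotientGroup.mk : K → K ⧸ D) := continuous_quotient_mk'
  let C' : Set (K ⧸ D) := QuotientGroup.mk '' (C : Set K)
  have hmet : MetrizableSpace C' := by
    have : Countable {χ : C →ₜ* Circle | ∀ i ∈ F0ᶜ, κ (Additive.ofMul χ) i = 0} :=
      hcount.to_subtype
    refine metrizable_image hCcl.isCompact (QuotientGroup.mk : K → K ⧸ D) hmk
      (ι := {χ : C →ₜ* Circle | ∀ i ∈ F0ᶜ, κ (Additive.ofMul χ) i = 0})
      (fun χ c => χ.1 c) (fun χ => χ.1.continuous_toFun) ?_
    intro a b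
    constructor
    · intro h
      rw [QuotientGroup.eq]
      refine ⟨(a : C)⁻¹ * (b : C), ?_, rfl⟩
      intro χ hχ
      rw [map_mul, map_inv]
      have := h ⟨χ, hχ⟩
      rw [this, inv_mul_cancel]
    · intro h χ
      rw [QuotientGroup.eq] at h
      obtain ⟨c, hc, hcab⟩ := h
      have h1 : c = (a : C)⁻¹ * (b : C) := Subtype.ext hcab
      have h2 := hc χ.1 χ.2
      rw [h1, map_mul, map_inv] at h2
      exact inv_mul_eq_one.mp h2
  have hCsub : C' ⊆ (i.range.map (QuotientGroup.mk' D) : Subgroup (K ⧸ D)) := by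
    refine taskC2 C' (hCcl.isCompact.image hmk).isClosed ?_ _ ?_ ?_ ?_ hmet
    · intro W hW hCW
      obtain ⟨m, hm⟩ := TC.powers (K := K) (QuotientGroup.mk ⁻¹' W) (hW.preimage hmk) (by
        intro c hc
        exact hCW ⟨c, hc, rfl⟩)
      refine ⟨m, fun n hn y => ?_⟩
      obtain ⟨x, rfl⟩ := QuotientGroup.mk_surjective y
      exact hm n hn x
    · rw [Subgroup.coe_map]
      have h1 : DenseRange (fun g : G => (QuotientGroup.mk' D) (i g)) :=
        (QuotientGroup.mk'_surjective D).denseRange.comp hd hmk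
      refine h1.mono ?_
      rintro _ ⟨g, rfl⟩
      exact ⟨i g, ⟨g, rfl⟩, rfl⟩
    · intro y y₀ hy hlim
      have hex : ∀ n, ∃ x ∈ i.range, QuotientGroup.mk' D x = y n := fun n => hy n
      choose x hx hxy using hex
      obtain ⟨k, rfl⟩ := QuotientGroup.mk_surjective y₀
      obtain ⟨d, hdD, hdlim⟩ := hLift K D hDn hDcl hDcen x k (by
        refine hlim.congr fun n => ?_
        exact (hxy n).symm)
      refine ⟨k, ?_, rfl⟩
      exact hseqK (fun n => i.range.mul_mem (hx n) (hDle (hdD n))) hdlim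
    · rintro n hn _ ⟨c, hc, rfl⟩
      obtain ⟨d, hd'⟩ := hDiv C n hn ⟨c, hc⟩
      refine ⟨QuotientGroup.mk d.1, ⟨d.1, d.2, rfl⟩, ?_⟩
      have h1 : (d : K) ^ n = c := congrArg Subtype.val hd'
      rw [← h1]
      rfl
  have hCrange : connectedComponent (1 : K) ⊆ i.range := by
    intro c hc
    obtain ⟨x, hx, hxc⟩ := hCsub ⟨c, hc, rfl⟩
    have h1 : (QuotientGroup.mk x : K ⧸ D) = QuotientGroup.mk c := hxc
    rw [QuotientGroup.eq] at h1
    have h2 := i.range.mul_mem hx (hDle h1)
    rwa [mul_inv_cancel_left] at h2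
  exact Set.Subset.antisymm hsubK
    (hconnG _ hCrange isPreconnected_connectedComponent mem_connectedComponent)

end R658.CN
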