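import Mathlib
import Pool.Agent.R658.CN.Stmts2

/-! # TASK APX: approximation of the points of `CJ κ J` (helper806) -/

namespace R658.CN

open Topology Filter Set TopologicalSpace Function

universe u

namespace Apx

/-- the circle is divisible -/
theorem circle_div (n : ℤ) (hn : n ≠ 0) (z : Circle) : ∃ w : Circle, w ^ n = z := by
  refine ⟨Circle.exp (Complex.arg z / n), ?_⟩
  have hn' : (n : ℝ) ≠ 0 := by exact_mod_cast hn
  rw [← Circle.exp_intCast_mul, mul_div_cancel₀ _ hn', Circle.exp_arg]

noncomputable instance divCircle : DivisibleBy (Additive Circle) ℤ :=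
  divisibleByOfSMulRightSurj _ _ fun {n} hn z => by
    obtain ⟨w, hw⟩ := circle_div n hn (Additive.toMul z)
    exact ⟨Additive.ofMul w, by
      change Additive.ofMul (w ^ n) = z
      rw [hw]
      rfl⟩

/-- extension of homomorphisms to the circle -/
theorem ext_hom {A B : Type u} [AddCommGroup A] [AddCommGroup B] (f : A →+ B)
    (g : A →+ Additive Circle) (h : ∀ a, f a = 0 → g a = 0) :
    ∃ y : B →+ Additive Circle, ∀ a, y (f a) = g a := by
  obtain ⟨y, hy⟩ := (Module.Baer.of_divisible (Additive Circle)).extension_property_addMonoidHom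
    (QuotientAddGroup.kerLift f) (QuotientAddGroup.kerLift_injective f)
    (QuotientAddGroup.lift f.ker g fun a ha => h a ha)
  refine ⟨y, fun a => ?_⟩
  have h1 := DFunLike.congr_fun hy (a : A ⧸ f.ker)
  exact h1

theorem Hm_sum {ι Q : Type*} [AddCommGroup Q] (z : Hm Q) (S : Finset ι) (f : ι → Q) :
    z.1 (∑ i ∈ S, f i) = ∏ i ∈ S, z.1 (f i) := by
  classical
  induction S using Finset.induction_on with
  | empty => rw [Finset.sum_empty, Finset.prod_empty, Hm.zero]
  | insert a s ha ih => rw [Finset.sum_insert ha, Finset.prod_insert ha, Hm.add, ih]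

/-- finite nets -/
theorem exists_net : ∃ ρ : ℕ → Hm ℚ → Hm ℚ, (∀ n, (range (ρ n)).Finite) ∧
    ∀ z, Tendsto (fun n => ρ n z) atTop (𝓝 z) := by
  have hemb : IsEmbedding (Subtype.val : Hm ℚ → (ℚ → Circle)) := IsEmbedding.subtypeVal
  have _ : SecondCountableTopology (Hm ℚ) := hemb.secondCountableTopology
  have _ : MetrizableSpace (Hm ℚ) := TopologicalSpace.metrizableSpace_of_t3_secondCountable (Hm ℚ)
  let _ : MetricSpace (Hm ℚ) := TopologicalSpace.metrizableSpaceMetric (Hm ℚ)
  have h1 : ∀ n : ℕ, ∃ ρ : Hm ℚ → Hm ℚ, (range ρ).Finite ∧ ∀ z, dist (ρ z) z < 1 / ((n : ℝ) + 1) := by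
    intro n
    obtain ⟨t, -, ht, hcov⟩ := finite_cover_balls_of_compact (isCompact_univ (X := Hm ℚ))
      (show (0 : ℝ) < 1 / ((n : ℝ) + 1) by positivity)
    have h2 : ∀ z : Hm ℚ, ∃ w ∈ t, dist w z < 1 / ((n : ℝ) + 1) := by
      intro z
      have h3 := hcov (mem_univ z)
      rw [mem_iUnion₂] at h3
      obtain ⟨w, hw, hz⟩ := h3
      refine ⟨w, hw, ?_⟩
      rw [dist_comm]
      exact hz
    choose ρ hρ hρ' using h2
    exact ⟨ρ, ht.subset (by rintro _ ⟨z, rfl⟩; exact hρ z), hρ'⟩
  choose ρ hρ hρ' using h1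
  refine ⟨ρ, hρ, fun z => ?_⟩
  rw [tendsto_iff_dist_tendsto_zero]
  exact squeeze_zero (fun _ => dist_nonneg) (fun n => (hρ' n z).le)
    tendsto_one_div_add_atTop_nhds_zero_nat

end Apx

open Apx in
theorem taskApx (hchar : TaskChar.{u}) (hD : TaskD.{u}) : TaskApx.{u} := by
  intro C _ _ _ _ _ I κ J c hc
  classical
  -- the functional
  let g : XX C →+ Additive Circle :=
    { toFun := fun χ => Additive.ofMul ((Additive.toMul χ) c)
      map_zero' := rfl
      map_add' := fun χ ψ => rfl }
  obtain ⟨y, hy⟩ := ext_hom ((Finsupp.filterAddHom (· ∈ J)).comp κ) g (fun χ hχ => by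
    change Additive.ofMul ((Additive.toMul χ) c) = 0
    have h1 : (Additive.toMul χ) c = 1 := by
      apply hc
      intro i hi
      have h2 := DFunLike.congr_fun hχ i
      change Finsupp.filter (· ∈ J) (κ χ) i = 0 at h2
      rw [Finsupp.filter_apply, if_pos hi] at h2
      exact h2
    rw [h1]
    rfl)
  let Y : I → Hm ℚ := fun i => ⟨fun r => Additive.toMul (y (Finsupp.single i r)), fun a b => by
    change Additive.toMul (y (Finsupp.single i (a + b))) = _
    rw [Finsupp.single_add, map_add]
    rfl⟩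
  obtain ⟨ρ, hρ, hρ'⟩ := exists_net
  let θ : ℕ → Hm ℚ → I → ℚ := fun n z i => if i ∈ J ∧ ρ n (Y i) = z then 1 else 0
  have hpt : ∀ n z, ∃ d : C, Pt κ (θ n z) z d := fun n z =>
    exists_pt hD ((Finsupp.linearCombination ℚ (θ n z)).toAddMonoidHom.comp κ) z
  choose P hP using hpt
  refine ⟨fun n => ∏ z ∈ (hρ n).toFinset, P n z, ?_, fun n => ?_⟩
  · rw [(ev_emb C hchar).isInducing.tendsto_nhds_iff, tendsto_pi_nhds]
    intro χ
    set q : I →₀ ℚ := κ (Additive.ofMul χ) with hq
    have key : ∀ n, χ (∏ z ∈ (hρ n).toFinset, P n z) =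
        ∏ i ∈ q.support, if i ∈ J then (ρ n (Y i)).1 (q i) else 1 := by
      intro n
      rw [map_prod]
      have h1 : ∀ z ∈ (hρ n).toFinset, χ (P n z) = ∏ i ∈ q.support, z.1 (q i • θ n z i) := by
        intro z _
        rw [hP n z χ, Finsupp.linearCombination_apply, Finsupp.sum, Hm_sum]
      rw [Finset.prod_congr rfl h1, Finset.prod_comm]
      refine Finset.prod_congr rfl fun i _ => ?_
      by_cases hi : i ∈ J
      · rw [if_pos hi, Finset.prod_eq_single (ρ n (Y i))]
        · have h2 : θ n (ρ n (Y i)) i = 1 := if_pos ⟨hi, rfl⟩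
          rw [h2, smul_eq_mul, mul_one]
        · intro z _ hz
          have h2 : θ n z i = 0 := if_neg fun h => hz h.2.symm
          rw [h2, smul_zero, Hm.zero]
        · intro h
          exact absurd ((hρ n).mem_toFinset.2 ⟨Y i, rfl⟩) h
      · rw [if_neg hi]
        refine Finset.prod_eq_one fun z _ => ?_
        have h2 : θ n z i = 0 := if_neg fun h => hi h.1
        rw [h2, smul_zero, Hm.zero]
    have key2 : χ c = ∏ i ∈ q.support, if i ∈ J then (Y i).1 (q i) else 1 := by
      have h1 : χ c = Additive.toMul (y (Finsupp.filter (· ∈ J) q)) :=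
        (congrArg Additive.toMul (hy (Additive.ofMul χ))).symm
      have h2 : Finsupp.filter (· ∈ J) q =
          ∑ i ∈ q.support, if i ∈ J then Finsupp.single i (q i) else 0 := by
        have h3 : q = ∑ i ∈ q.support, Finsupp.single i (q i) := (Finsupp.sum_single q).symm
        have h4 : Finsupp.filter (· ∈ J) (∑ i ∈ q.support, Finsupp.single i (q i)) =
            ∑ i ∈ q.support, Finsupp.filter (· ∈ J) (Finsupp.single i (q i)) :=
          map_sum (Finsupp.filterAddHom (· ∈ J)) _ _
        rw [← h3] at h4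
        rw [h4]
        refine Finset.sum_congr rfl fun i _ => ?_
        by_cases hi : i ∈ J
        · rw [if_pos hi, Finsupp.filter_single_of_pos _ hi]
        · rw [if_neg hi, Finsupp.filter_single_of_neg _ hi]
      rw [h1, h2, map_sum, toMul_sum]
      refine Finset.prod_congr rfl fun i _ => ?_
      by_cases hi : i ∈ J
      · rw [if_pos hi, if_pos hi]
      · rw [if_neg hi, if_neg hi, map_zero]
        rfl
    change Tendsto (fun n => χ (∏ z ∈ (hρ n).toFinset, P n z)) atTop (𝓝 (χ c))
    rw [key2]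
    simp only [key]
    refine tendsto_finsetProd _ fun i _ => ?_
    by_cases hi : i ∈ J
    · simp only [if_pos hi]
      have hcont : Continuous fun z : Hm ℚ => z.1 (q i) :=
        (continuous_apply (q i)).comp continuous_subtype_val
      exact (hcont.tendsto (Y i)).comp (hρ' (Y i))
    · simp only [if_neg hi]
      exact tendsto_const_nhds
  · refine Subgroup.prod_mem _ fun z _ => Subgroup.subset_closure ⟨θ n z, fun i hi => ?_, z, hP n z⟩
    exact if_neg fun h => hi h.1

end R658.CN
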