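import Pool.Agent.R658.CN.Stmts

set_option autoImplicit false

/-! # TASK EA: rank dichotomy for the character group -/

namespace R658.CN

open Topology Filter Set TopologicalSpace

universe u

/-- the algebraic dichotomy -/
lemma alg_dichotomy (X : Type u) [AddCommGroup X] [IsAddTorsionFree X] (F : Finset X) :
    Countable X ∨ ∃ Θ : X →+ (ℕ →₀ ℚ), (∀ x ∈ F, Θ x = 0) ∧
      ∀ n : ℕ, ∃ (x : X) (m : ℕ), m ≠ 0 ∧ Θ x = Finsupp.single n (m : ℚ) := by
  classical
  obtain ⟨j, hj⟩ : ∃ j : X →+ DivisibleHull X, j = DivisibleHull.coeAddMonoidHom X := ⟨_, rfl⟩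
  have hinj : Function.Injective j := by
    rw [hj]
    exact DivisibleHull.coe_injective
  obtain ⟨W, hW⟩ : ∃ W : Submodule ℚ (DivisibleHull X), W = Submodule.span ℚ (j '' (F : Set X)) :=
    ⟨_, rfl⟩
  by_cases hfin : Module.Finite ℚ (DivisibleHull X ⧸ W)
  · left
    have hWf : Module.Finite ℚ W := by
      rw [hW]
      exact Module.Finite.span_of_finite ℚ (F.finite_toSet.image j)
    have hVf : Module.Finite ℚ (DivisibleHull X) := Module.Finite.of_submodule_quotient W
    have hc : Countable (DivisibleHull X) :=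
      (Module.finBasis ℚ (DivisibleHull X)).equivFun.toEquiv.injective.countable
    exact hinj.countable
  · right
    obtain ⟨b, -⟩ : ∃ b : Module.Basis (Module.Basis.ofVectorSpaceIndex ℚ (DivisibleHull X ⧸ W)) ℚ
      (DivisibleHull X ⧸ W), b = Module.Basis.ofVectorSpace ℚ (DivisibleHull X ⧸ W) := ⟨_, rfl⟩
    have hinf : Infinite (Module.Basis.ofVectorSpaceIndex ℚ (DivisibleHull X ⧸ W)) := by
      by_contra hn
      have hf : Finite (Module.Basis.ofVectorSpaceIndex ℚ (DivisibleHull X ⧸ W)) :=
        not_infinite_iff_finite.mp hn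
      exact hfin (Module.Finite.of_basis b)
    obtain ⟨e⟩ : Nonempty (ℕ ↪ (Module.Basis.ofVectorSpaceIndex ℚ (DivisibleHull X ⧸ W))) :=
      ⟨Infinite.natEmbedding _⟩
    refine ⟨(Finsupp.comapDomain.addMonoidHom e.injective).comp
      ((b.repr : (DivisibleHull X ⧸ W) →ₗ[ℚ] _).toAddMonoidHom.comp
        ((W.mkQ).toAddMonoidHom.comp j)), ?_, ?_⟩
    · intro x hx
      have h1 : W.mkQ (j x) = 0 := by
        rw [Submodule.mkQ_apply, Submodule.Quotient.mk_eq_zero, hW]
        exact Submodule.subset_span ⟨x, hx, rfl⟩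
      show Finsupp.comapDomain e (b.repr (W.mkQ (j x))) e.injective.injOn = 0
      rw [h1]
      simp
    · intro n
      obtain ⟨v, hv⟩ := W.mkQ_surjective (b (e n))
      obtain ⟨x, s, hxs⟩ : ∃ (x : X) (s : ℕ+), DivisibleHull.mk x s = v := by
        induction v with
        | mk x s => exact ⟨x, s, rfl⟩
      have h2 : j x = (s : ℕ) • v := by
        rw [← hxs, DivisibleHull.nsmul_mk, hj]
        show DivisibleHull.mk x 1 = _
        rw [DivisibleHull.mk_eq_mk_iff_smul_eq_smul]
        simp
      refine ⟨x, s, s.pos.ne', ?_⟩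
      show Finsupp.comapDomain e (b.repr (W.mkQ (j x))) e.injective.injOn = _
      have h3 : b.repr (W.mkQ (j x)) = Finsupp.single (e n) ((s : ℕ) : ℚ) := by
        rw [h2, map_nsmul, hv, map_nsmul, Module.Basis.repr_self]
        simp
      ext k
      rw [Finsupp.comapDomain_apply, h3]
      by_cases hk : n = k
      · rw [hk]
        simp
      · rw [Finsupp.single_eq_of_ne (fun h => hk (e.injective h).symm),
          Finsupp.single_eq_of_ne (fun h => hk h.symm)]

/-- a continuous character of a connected group of finite order is trivial -/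
lemma torsion_free (C : Type u) [CommGroup C] [TopologicalSpace C] [IsTopologicalGroup C]
    [ConnectedSpace C] (χ : C →ₜ* Circle) (n : ℕ) (hn : n ≠ 0) (h : χ ^ n = 1) : χ = 1 := by
  have h1 : ∀ c : C, (χ c) ^ n = 1 := by
    intro c
    have := congrArg (fun f : C →ₜ* Circle => f c) h
    simpa using this
  have h2 : (range χ).Finite := by
    have h3 : {z : ℂ | z ^ n = 1}.Finite := by
      have h4 : {z : ℂ | z ^ n = 1} = ((Polynomial.nthRoots n (1 : ℂ)).toFinset : Set ℂ) := by
        ext z
        simp [Polynomial.mem_nthRoots (Nat.pos_of_ne_zero hn)]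
      rw [h4]
      exact Finset.finite_toSet _
    have h5 : ((fun z : Circle => (z : ℂ)) '' range χ) ⊆ {z : ℂ | z ^ n = 1} := by
      rintro _ ⟨_, ⟨c, rfl⟩, rfl⟩
      have h6 := h1 c
      show ((χ c : Circle) : ℂ) ^ n = 1
      rw [← Circle.coe_pow, h6, Circle.coe_one]
    exact Set.Finite.of_finite_image (h3.subset h5) (Circle.coe_injective.injOn)
  have h3 : IsPreconnected (range χ) := isPreconnected_range χ.continuous_toFun
  have h4 : (range χ).Subsingleton := by
    by_contra h5
    exact (h3.infinite_of_nontrivial (Set.not_subsingleton_iff.mp h5)) h2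
  ext c
  have h5 : χ c = χ 1 := h4 ⟨c, rfl⟩ ⟨1, rfl⟩
  rw [h5, map_one]
  rfl

theorem taskEa (hchar : TaskChar.{u}) : TaskEa.{u} := by
  intro C _ _ _ _ _ _ F
  have htf : IsAddTorsionFree (Additive (C →ₜ* Circle)) := by
    constructor
    intro n hn x y hxy
    have h1 : (Additive.toMul x / Additive.toMul y) ^ n = 1 := by
      have h2 : (Additive.toMul x) ^ n = (Additive.toMul y) ^ n := hxy
      rw [div_pow, h2, div_self']
    have h3 := torsion_free C _ n hn h1
    exact (div_eq_one (a := Additive.toMul x) (b := Additive.toMul y)).mp h3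
  classical
  rcases alg_dichotomy (Additive (C →ₜ* Circle)) (F.image Additive.ofMul) with hc | ⟨Θ, h1, h2⟩
  · left
    have hc' : Countable (C →ₜ* Circle) := hc
    obtain ⟨f, hf⟩ : ∃ f : C → ((C →ₜ* Circle) → Circle), f = fun c χ => χ c := ⟨_, rfl⟩
    have hfc : Continuous f := by
      rw [hf]
      exact continuous_pi fun χ => χ.continuous_toFun
    have hfi : Function.Injective f := by
      intro c d hcd
      by_contra hne
      have h3 : c / d ≠ 1 := fun h => hne (div_eq_one.mp h)
      obtain ⟨χ, hχ⟩ := hchar C (c / d) h3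
      apply hχ
      have h4 : χ c = χ d := by
        have := congrFun hcd χ
        rw [hf] at this
        exact this
      rw [map_div, h4, div_self']
    have hm : MetrizableSpace ((C →ₜ* Circle) → Circle) := inferInstance
    exact (hfc.isClosedEmbedding hfi).isEmbedding.metrizableSpace
  · right
    refine ⟨Θ, fun χ hχ => h1 _ (Finset.mem_image_of_mem _ hχ), fun n => ?_⟩
    obtain ⟨x, m, hm, hx⟩ := h2 n
    exact ⟨Additive.toMul x, m, hm, hx⟩

end R658.CN
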