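import Pool.Agent.R658.CN.Stmts2
import Pool.Agent.R658.CN.TEa

set_option autoImplicit false

/-! # TASK B0: coordinates on the character group of a compact connected abelian group -/

namespace R658.CN

open Topology Filter Set TopologicalSpace

universe u

/-- algebraic coordinates on a torsion free group, killing a finite set -/
lemma alg_coord (X : Type u) [AddCommGroup X] [IsAddTorsionFree X] (F : Finset X) :
    ∃ (I : Type u) (κ : X →+ (I →₀ ℚ)), (∀ x ∈ F, κ x = 0) ∧
      (∀ i : I, ∃ (x : X) (m : ℕ), m ≠ 0 ∧ κ x = Finsupp.single i (m : ℚ)) ∧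
      (κ.ker : Set X).Countable := by
  classical
  obtain ⟨j, hj⟩ : ∃ j : X →+ DivisibleHull X, j = DivisibleHull.coeAddMonoidHom X := ⟨_, rfl⟩
  have hinj : Function.Injective j := by
    rw [hj]
    exact DivisibleHull.coe_injective
  obtain ⟨W, hW⟩ : ∃ W : Submodule ℚ (DivisibleHull X), W = Submodule.span ℚ (j '' (F : Set X)) :=
    ⟨_, rfl⟩
  obtain ⟨b, -⟩ : ∃ b : Module.Basis (Module.Basis.ofVectorSpaceIndex ℚ (DivisibleHull X ⧸ W)) ℚ
      (DivisibleHull X ⧸ W), b = Module.Basis.ofVectorSpace ℚ (DivisibleHull X ⧸ W) := ⟨_, rfl⟩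
  refine ⟨(Module.Basis.ofVectorSpaceIndex ℚ (DivisibleHull X ⧸ W)),
    (((b.repr : (DivisibleHull X ⧸ W) →ₗ[ℚ] _)).toAddMonoidHom.comp
        ((W.mkQ).toAddMonoidHom.comp j)), ?_, ?_, ?_⟩
  · intro x hx
    have h1 : W.mkQ (j x) = 0 := by
      rw [Submodule.mkQ_apply, Submodule.Quotient.mk_eq_zero, hW]
      exact Submodule.subset_span ⟨x, hx, rfl⟩
    show b.repr (W.mkQ (j x)) = 0
    rw [h1, map_zero]
  · intro n
    obtain ⟨v, hv⟩ := W.mkQ_surjective (b n)
    obtain ⟨x, s, hxs⟩ : ∃ (x : X) (s : ℕ+), DivisibleHull.mk x s = v := by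
      induction v with
      | mk x s => exact ⟨x, s, rfl⟩
    have h2 : j x = (s : ℕ) • v := by
      rw [← hxs, DivisibleHull.nsmul_mk, hj]
      show DivisibleHull.mk x 1 = _
      rw [DivisibleHull.mk_eq_mk_iff_smul_eq_smul]
      simp
    refine ⟨x, s, s.pos.ne', ?_⟩
    show b.repr (W.mkQ (j x)) = _
    rw [h2, map_nsmul, hv, map_nsmul, Module.Basis.repr_self]
    simp
  · have hWf : Module.Finite ℚ W := by
      rw [hW]
      exact Module.Finite.span_of_finite ℚ (F.finite_toSet.image j)
    have hWc : Countable W := (Module.finBasis ℚ W).equivFun.toEquiv.injective.countable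
    have hWs : (W : Set (DivisibleHull X)).Countable := by
      have h := hWc.to_set
      exact h
    refine (hWs.preimage_of_injOn (f := j) hinj.injOn).mono ?_
    intro x hx
    have h1 : b.repr (W.mkQ (j x)) = 0 := hx
    have h2 : W.mkQ (j x) = 0 := by
      have := b.repr.injective (h1.trans (map_zero b.repr).symm)
      exact this
    rw [Submodule.mkQ_apply, Submodule.Quotient.mk_eq_zero] at h2
    exact h2

theorem taskB0 (_hchar : TaskChar.{u}) : TaskB0.{u} := by
  intro C _ _ _ _ _ _ F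
  have htf : IsAddTorsionFree (Additive (C →ₜ* Circle)) := by
    constructor
    intro n hn x y hxy
    have h1 : (Additive.toMul x / Additive.toMul y) ^ n = 1 := by
      have h2 : (Additive.toMul x) ^ n = (Additive.toMul y) ^ n := hxy
      rw [div_pow, h2, div_self']
    have h3 := torsion_free C _ n hn h1
    exact (div_eq_one (a := Additive.toMul x) (b := Additive.toMul y)).mp h3
  classical
  obtain ⟨I, κ, h1, h2, h3⟩ := alg_coord (Additive (C →ₜ* Circle)) (F.image Additive.ofMul)
  refine ⟨I, κ, fun χ hχ => h1 _ (Finset.mem_image_of_mem _ hχ), fun i => ?_, h3⟩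
  obtain ⟨x, m, hm, hx⟩ := h2 i
  exact ⟨Additive.toMul x, m, hm, hx⟩

end R658.CN
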