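import Mathlib
import Pool.Agent.R658.CN.Stmts2

/-! # Task BAD: no infinite disjoint family of bad sets -/

namespace R658.CN

open Topology Filter Set TopologicalSpace Function

universe u

section bad

set_option linter.unusedSectionVars false

/-- A continuous homomorphism to the circle on a compact group which is trivial on the connected
component of `1` has bounded exponent. -/
theorem bad_expo {B : Type*} [Group B] [TopologicalSpace B] [IsTopologicalGroup B]
    [CompactSpace B] [T2Space B] (φ : B →* Circle) (hφ : Continuous φ)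
    (h0 : ∀ x ∈ connectedComponent (1 : B), φ x = 1) : ∃ M : ℕ, M ≠ 0 ∧ ∀ x, φ x ^ M = 1 := by
  let U : Set B := {x | ‖((φ x : Circle) : ℂ) - 1‖ < 1}
  have hU : IsOpen U := isOpen_lt
    (((continuous_subtype_val.comp hφ).sub continuous_const).norm) continuous_const
  have hcU : connectedComponent (1 : B) ⊆ U := by
    intro x hx
    have h1 := h0 x hx
    show ‖((φ x : Circle) : ℂ) - 1‖ < 1
    rw [h1]
    simp
  obtain ⟨Z, hZ, h1Z, hZU⟩ : ∃ Z : Set B, IsClopen Z ∧ (1 : B) ∈ Z ∧ Z ⊆ U := by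
    have H1 := hU.isClosed_compl.isCompact.inter_iInter_nonempty
      (fun s : { s : Set B // IsClopen s ∧ (1 : B) ∈ s } => s) fun s => s.2.1.1
    rw [← not_disjoint_iff_nonempty_inter, imp_not_comm, not_forall] at H1
    obtain ⟨si, H2⟩ := H1 (disjoint_compl_left_iff_subset.2 (by
      rw [← connectedComponent_eq_iInter_isClopen]
      exact hcU))
    refine ⟨⋂ U ∈ si, Subtype.val U, ?_, ?_, ?_⟩
    · exact isClopen_biInter_finset fun s _ => s.2.1
    · exact mem_iInter₂.2 fun s _ => s.2.2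
    · rwa [← disjoint_compl_left_iff_subset, disjoint_iff_inter_eq_empty,
        ← not_nonempty_iff_eq_empty]
  obtain ⟨H, hH⟩ := IsTopologicalGroup.exist_openNormalSubgroup_sub_clopen_nhds_of_one hZ h1Z
  have hfin : Finite (B ⧸ H.toSubgroup) := H.toSubgroup.quotient_finite_of_isOpen H.isOpen'
  have hidx : H.toSubgroup.index ≠ 0 := by
    rw [Subgroup.index_eq_card]
    exact Nat.card_pos.ne'
  refine ⟨H.toSubgroup.index, hidx, fun x => ?_⟩
  have h2 : x ^ H.toSubgroup.index ∈ H.toSubgroup := Subgroup.pow_index_mem _ _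
  have h3 : φ (x ^ H.toSubgroup.index) = 1 := by
    apply circle_nss
    intro j
    rw [← map_pow]
    exact hZU (hH (H.toSubgroup.pow_mem h2 j))
  rw [map_pow] at h3
  exact h3

theorem bad_roots_finite {N : ℕ} (hN : N ≠ 0) : ({z : Circle | z ^ N = 1}).Finite := by
  have hroots : ({z : ℂ | z ^ N = 1}).Finite := by
    have : {z : ℂ | z ^ N = 1} ⊆ ((Polynomial.nthRoots N (1 : ℂ)).toFinset : Set ℂ) := by
      intro z hz
      simp only [Finset.mem_coe, Multiset.mem_toFinset]
      rw [Polynomial.mem_nthRoots (Nat.pos_of_ne_zero hN)]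
      exact hz
    exact (Finset.finite_toSet _).subset this
  refine Set.Finite.of_finite_image (f := fun z : Circle => (z : ℂ)) (hroots.subset ?_)
    (fun a _ b _ h => Circle.ext h)
  rintro _ ⟨z, hz, rfl⟩
  show (z : ℂ) ^ N = 1
  have hz' : z ^ N = 1 := hz
  rw [← Circle.coe_pow, hz', Circle.coe_one]

/-- The component of `1` of a subgroup of `Hom(Q, T)`. -/
noncomputable def bad_comp {Q : Type} [AddCommGroup Q] (B : Subgroup (Hm Q)) : Subgroup (Hm Q) :=
  (Subgroup.connectedComponentOfOne B).map B.subtype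

theorem bad_comp_conn {Q : Type} [AddCommGroup Q] (B : Subgroup (Hm Q)) :
    IsPreconnected (bad_comp B : Set (Hm Q)) := by
  have h1 : (bad_comp B : Set (Hm Q)) = B.subtype '' (connectedComponent (1 : B)) := rfl
  rw [h1]
  exact isPreconnected_connectedComponent.image _ continuous_subtype_val.continuousOn

theorem bad_comp_closed {Q : Type} [AddCommGroup Q] (B : Subgroup (Hm Q))
    (hB : IsClosed (B : Set (Hm Q))) : IsClosed (bad_comp B : Set (Hm Q)) := by
  have h1 : (bad_comp B : Set (Hm Q)) = Subtype.val '' (connectedComponent (1 : B)) := rfl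
  rw [h1]
  exact hB.isClosedEmbedding_subtypeVal.isClosedMap _ isClosed_connectedComponent

theorem bad_comp_le {Q : Type} [AddCommGroup Q] (B : Subgroup (Hm Q)) : bad_comp B ≤ B := by
  rintro _ ⟨x, -, rfl⟩
  exact x.2

/-- The annihilator of the component, a `ℚ`-subspace. -/
noncomputable def bad_ann {Q : Type} [AddCommGroup Q] [Module ℚ Q] (B : Subgroup (Hm Q)) :
    Submodule ℚ Q where
  carrier := {q | ∀ y ∈ bad_comp B, y.1 q = 1}
  add_mem' := by
    intro a b ha hb y hy
    rw [Hm.add, ha y hy, hb y hy, one_mul]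
  zero_mem' := fun y _ => Hm.zero y
  smul_mem' := by
    intro r q hq
    have h1 : ∀ y ∈ bad_comp B, y.1 (r • q) ^ r.den = 1 := by
      intro y hy
      rw [← Hm.nsmul]
      have h2 : (r.den : ℕ) • (r • q) = r.num • q := by
        rw [← Nat.cast_smul_eq_nsmul ℚ, smul_smul, ← Int.cast_smul_eq_zsmul ℚ, mul_comm,
          Rat.mul_den_eq_num]
      rw [h2, Hm.zsmul, hq y hy, one_zpow]
    have h5 : IsPreconnected ((fun y : Hm Q => y.1 (r • q)) '' (bad_comp B : Set (Hm Q))) :=
      (bad_comp_conn B).image _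
        ((continuous_apply (r • q)).comp continuous_subtype_val).continuousOn
    have h6 : (fun y : Hm Q => y.1 (r • q)) '' (bad_comp B : Set (Hm Q)) ⊆
        {z : Circle | z ^ r.den = 1} := by
      rintro _ ⟨y, hy, rfl⟩
      exact h1 y hy
    have h7 : ((fun y : Hm Q => y.1 (r • q)) '' (bad_comp B : Set (Hm Q))).Subsingleton :=
      ((bad_roots_finite r.den_nz).subset h6).countable.isTotallyDisconnected _ Subset.rfl h5
    intro y hy
    exact h7 ⟨y, hy, rfl⟩ ⟨1, Subgroup.one_mem _, rfl⟩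

theorem bad_mem_ann {Q : Type} [AddCommGroup Q] [Module ℚ Q] {B : Subgroup (Hm Q)} {q : Q} :
    q ∈ bad_ann B ↔ ∀ y ∈ bad_comp B, y.1 q = 1 := Iff.rfl

/-- bounded exponent of the elements of the annihilator -/
theorem bad_ann_expo {Q : Type} [AddCommGroup Q] [Module ℚ Q] {B : Subgroup (Hm Q)}
    (hB : IsClosed (B : Set (Hm Q))) {q : Q} (hq : q ∈ bad_ann B) :
    ∃ M : ℕ, M ≠ 0 ∧ ∀ x ∈ B, x.1 q ^ M = 1 := by
  have hcomp : CompactSpace B := isCompact_iff_compactSpace.mp hB.isCompact
  let φ : B →* Circle :=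
    { toFun := fun x => x.1.1 q
      map_one' := rfl
      map_mul' := fun x y => rfl }
  have hφ : Continuous φ :=
    (continuous_apply q).comp (continuous_subtype_val.comp continuous_subtype_val)
  obtain ⟨M, hM, h⟩ := bad_expo φ hφ fun x hx => hq x.1 ⟨x, hx, rfl⟩
  exact ⟨M, hM, fun x hx => h ⟨x, hx⟩⟩

/-- an element annihilated by the annihilator is in the component -/
theorem bad_bidual {Q : Type} [AddCommGroup Q] [Module ℚ Q] (hchar0 : TaskChar.{0})
    (hDD : TaskDD) {B : Subgroup (Hm Q)} (hB : IsClosed (B : Set (Hm Q))) {y : Hm Q}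
    (hy : ∀ q ∈ bad_ann B, y.1 q = 1) : y ∈ bad_comp B := by
  by_contra hcon
  have hcl := bad_comp_closed B hB
  have : IsClosed (bad_comp B : Set (Hm Q)) := hcl
  have hne : (QuotientGroup.mk y : Hm Q ⧸ bad_comp B) ≠ 1 := by
    intro h
    exact hcon ((QuotientGroup.eq_one_iff y).1 h)
  have : T2Space (Hm Q ⧸ bad_comp B) := by
    have : (bad_comp B).Normal := inferInstance
    have : IsClosed ((bad_comp B : Subgroup (Hm Q)) : Set (Hm Q)) := hcl
    have : T3Space (Hm Q ⧸ bad_comp B) := QuotientGroup.instT3Space (N := bad_comp B)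
    infer_instance
  obtain ⟨χ, hχ⟩ := hchar0 (Hm Q ⧸ bad_comp B) _ hne
  let ψ : Hm Q →ₜ* Circle :=
    { toMonoidHom := (χ : (Hm Q ⧸ bad_comp B) →* Circle).comp (QuotientGroup.mk' (bad_comp B))
      continuous_toFun := χ.continuous_toFun.comp continuous_quot_mk }
  obtain ⟨q, hq⟩ := hDD Q ψ
  have hψ : ∀ x, ψ x = χ (QuotientGroup.mk x : Hm Q ⧸ bad_comp B) := fun x => rfl
  apply hχ
  rw [← hψ, hq]
  apply hy
  intro z hz
  rw [← hq, hψ, (QuotientGroup.eq_one_iff z).2 hz, map_one]

/-- the character `q ↦ exp(i π q / r)` of `ℚ` -/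
noncomputable def bad_x (r : ℚ) : Hm ℚ :=
  ⟨fun q => Circle.exp (Real.pi * (q / r : ℚ)), fun a b => by
    show Circle.exp _ = Circle.exp _ * Circle.exp _
    rw [← Circle.exp_add, add_div]
    push_cast
    rw [mul_add]⟩

theorem bad_x_self {r : ℚ} (hr : r ≠ 0) : (bad_x r).1 r ≠ 1 := by
  intro h
  have h6 : (bad_x r).1 r = Circle.exp Real.pi := by
    show Circle.exp (Real.pi * (r / r : ℚ)) = _
    rw [div_self hr]
    simp
  rw [h6] at h
  have h8 := congrArg (fun z : Circle => (z : ℂ)) h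
  simp only [Circle.coe_one, Circle.coe_exp, Complex.exp_pi_mul_I] at h8
  norm_num at h8

/-- the map collecting the functionals `θ n` -/
theorem bad_collect {I : Type u} (J : ℕ → Set I) (hJ : Pairwise (Disjoint on J))
    (θ : ℕ → I → ℚ) (hθ : ∀ n, ∀ i ∉ J n, θ n i = 0) :
    ∃ T : (I →₀ ℚ) →ₗ[ℚ] (ℕ →₀ ℚ), ∀ f n, T f n = Finsupp.linearCombination ℚ (θ n) f := by
  classical
  let v : I → (ℕ →₀ ℚ) := fun i =>
    if h : ∃ n, i ∈ J n then Finsupp.single h.choose (θ h.choose i) else 0
  have hv : ∀ i n, v i n = θ n i := by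
    intro i n
    by_cases h : ∃ n, i ∈ J n
    · have h1 : v i = Finsupp.single h.choose (θ h.choose i) := dif_pos h
      have h2 := h.choose_spec
      rw [h1]
      by_cases hn : h.choose = n
      · rw [hn, Finsupp.single_eq_same]
      · rw [Finsupp.single_apply, if_neg hn, hθ n i]
        intro h3
        exact (Set.disjoint_left.1 (hJ hn)) h2 h3
    · have h1 : v i = 0 := dif_neg h
      rw [h1, hθ n i fun h3 => h ⟨n, h3⟩]
      rfl
  refine ⟨Finsupp.linearCombination ℚ v, fun f n => ?_⟩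
  rw [Finsupp.linearCombination_apply, Finsupp.linearCombination_apply, Finsupp.sum, Finsupp.sum,
    Finsupp.finsetSum_apply]
  refine Finset.sum_congr rfl fun i _ => ?_
  rw [Finsupp.smul_apply, hv]

/-- TASK BAD -/
theorem taskBad (hchar : TaskChar.{u}) (hchar0 : TaskChar.{0}) (hD : TaskD.{u}) (hDD : TaskDD) :
    TaskBad.{u} := by
  classical
  intro C _ _ _ _ _ _ A V F hseq hV hess I κ hκF hco J hJ
  by_contra hcon
  push Not at hcon
  have hcon' : ∀ n, ∃ (θ : I → ℚ) (x : Hm ℚ) (d : C), (∀ i ∉ J n, θ i = 0) ∧ Pt κ θ x d ∧ d ∉ A := by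
    intro n
    have h1 := hcon n
    unfold Good at h1
    push Not at h1
    obtain ⟨θ, h2, x, d, h3, h4⟩ := h1
    exact ⟨θ, x, d, h2, h3, h4⟩
  choose θ x d hθ hpt hdA using hcon'
  obtain ⟨T, hT⟩ := bad_collect J hJ θ hθ
  let Θ : Additive (C →ₜ* Circle) →+ (ℕ →₀ ℚ) := T.toAddMonoidHom.comp κ
  have hΘ : ∀ χ n, Θ χ n = Finsupp.linearCombination ℚ (θ n) (κ χ) := fun χ n => hT _ _
  have hinj := ev_inj C hchar
  obtain ⟨G, hGc, hG⟩ := exists_hom hchar hD Θ
  let B : Subgroup (Hm (ℕ →₀ ℚ)) := A.comap G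
  have hBseq : IsSeqClosed (B : Set (Hm (ℕ →₀ ℚ))) := by
    intro x y hx hy
    exact hseq hx ((hGc.tendsto y).comp hy)
  have hBc : IsClosed (B : Set (Hm (ℕ →₀ ℚ))) := hBseq.isClosed
  -- the image of `Θ` contains nonzero multiples of the coordinate vectors
  have himg : ∀ n, ∃ (χ : C →ₜ* Circle) (r : ℚ), r ≠ 0 ∧
      Θ (Additive.ofMul χ) = Finsupp.single n r := by
    intro n
    obtain ⟨i, hi⟩ : ∃ i, θ n i ≠ 0 := by
      by_contra h0
      push Not at h0
      apply hdA n
      have h1 : d n = 1 := by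
        apply hinj
        funext χ
        show χ (d n) = χ 1
        rw [hpt n χ, map_one]
        have h2 : θ n = 0 := funext h0
        rw [h2, Finsupp.linearCombination_zero, LinearMap.zero_apply, Hm.zero]
      rw [h1]
      exact A.one_mem
    obtain ⟨χ, m, hm, hχ⟩ := hco i
    refine ⟨χ, m * θ n i, mul_ne_zero (Nat.cast_ne_zero.2 hm) hi, ?_⟩
    ext n'
    rw [hΘ, hχ, Finsupp.linearCombination_single, smul_eq_mul]
    by_cases hn : n = n'
    · rw [hn, Finsupp.single_eq_same]
    · rw [Finsupp.single_apply, if_neg hn]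
      have h1 : i ∈ J n := by
        by_contra h2
        exact hi (hθ n i h2)
      have h2 : i ∉ J n' := fun h3 => (Set.disjoint_left.1 (hJ hn)) h1 h3
      rw [hθ n' i h2, mul_zero]
  -- the annihilator is finite dimensional
  have hfd : Module.Finite ℚ (bad_ann B) := by
    by_contra hinf
    let b := Module.Free.chooseBasis ℚ (bad_ann B)
    have hι : Infinite (Module.Free.ChooseBasisIndex ℚ (bad_ann B)) := by
      by_contra h
      rw [not_infinite_iff_finite] at h
      exact hinf (Module.Finite.of_basis b)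
    let em := Infinite.natEmbedding (Module.Free.ChooseBasisIndex ℚ (bad_ann B))
    choose M hM hM' using fun n : ℕ => bad_ann_expo hBc (b (em n)).2
    obtain ⟨f, hf⟩ : ∃ f : (ℕ →₀ ℚ) →ₗ[ℚ] ℚ, ∀ n, f (b (em n)) =
        1 / ((M n : ℚ) * (n.factorial : ℚ)) := by
      obtain ⟨f, hf⟩ := LinearMap.exists_extend (p := bad_ann B) (b.constr ℚ (Function.extend em
        (fun n => (1 / ((M n : ℚ) * (n.factorial : ℚ)) : ℚ)) 0))
      refine ⟨f, fun n => ?_⟩
      have h1 := LinearMap.congr_fun hf (b (em n))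
      rw [Module.Basis.constr_basis, em.injective.extend_apply] at h1
      exact h1
    -- the homomorphism from `Hom(ℚ, T)`
    obtain ⟨G₁, hG₁c, hG₁⟩ := exists_hom hchar hD (f.toAddMonoidHom.comp Θ)
    have hG₁G : ∀ x : Hm ℚ, ∃ y : Hm (ℕ →₀ ℚ), (∀ q, y.1 q = x.1 (f q)) ∧ G y = G₁ x := by
      intro x
      refine ⟨⟨fun q => x.1 (f q), fun a b => by
        show x.1 (f (a + b)) = x.1 (f a) * x.1 (f b)
        rw [map_add, Hm.add]⟩, fun q => rfl, ?_⟩
      apply hinj
      funext χ
      show χ (G _) = χ (G₁ x)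
      rw [hG, hG₁]
      rfl
    have hcl : IsClosed ((G₁.range : Subgroup C) : Set C) := by
      rw [MonoidHom.coe_range]
      exact (isCompact_range hG₁c).isClosed
    refine hess G₁.range hcl ?_ ?_ ?_
    · rintro _ ⟨x, rfl⟩
      apply hV
      intro χ hχ
      rw [hG₁]
      show x.1 (f (T (κ (Additive.ofMul χ)))) = 1
      rw [hκF χ hχ, map_zero, map_zero, Hm.zero]
    · -- nontrivial
      intro hbot
      have hf0 : f ≠ 0 := by
        intro h0
        have h1 := hf 0
        rw [h0, LinearMap.zero_apply] at h1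
        have h2 : (M 0 : ℚ) ≠ 0 := by exact_mod_cast hM 0
        have h3 : (1 / ((M 0 : ℚ) * ((0 : ℕ).factorial : ℚ)) : ℚ) ≠ 0 := by
          rw [Nat.factorial_zero, Nat.cast_one, mul_one]
          exact one_div_ne_zero h2
        exact h3 h1.symm
      obtain ⟨n, hn⟩ : ∃ n, f (Finsupp.single n 1) ≠ 0 := by
        by_contra h0
        push Not at h0
        apply hf0
        ext n
        simpa using h0 n
      obtain ⟨χ, r, hr, hχ⟩ := himg n
      set r' : ℚ := f (Finsupp.single n r) with hr'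
      have hr0 : r' ≠ 0 := by
        have h1 : r' = r * f (Finsupp.single n 1) := by
          rw [hr', ← smul_eq_mul, ← map_smul, Finsupp.smul_single, smul_eq_mul, mul_one]
        rw [h1]
        exact mul_ne_zero hr hn
      have h4 : G₁ (bad_x r') = 1 := by
        have : G₁ (bad_x r') ∈ G₁.range := ⟨_, rfl⟩
        rw [hbot] at this
        exact this
      have h5 := hG₁ (bad_x r') χ
      rw [h4, map_one] at h5
      have h6 : (f.toAddMonoidHom.comp Θ) (Additive.ofMul χ) = r' := by
        show f (Θ (Additive.ofMul χ)) = r'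
        rw [hχ]
      rw [h6] at h5
      exact bad_x_self hr0 h5.symm
    · rw [eq_bot_iff]
      rintro c ⟨⟨x, rfl⟩, hxA⟩
      obtain ⟨y, hy, hGy⟩ := hG₁G x
      have hyB : y ∈ B := by
        show G y ∈ A
        rw [hGy]; exact hxA
      have h1 : x = 1 := by
        apply eq_one_of_factorial
        intro n
        have h2 := hM' n y hyB
        rw [hy, hf, ← Hm.nsmul] at h2
        rw [← h2]
        have h3 : (M n : ℚ) ≠ 0 := by exact_mod_cast hM n
        rw [nsmul_eq_mul]
        field_simp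
      rw [h1, map_one]
      exact Subgroup.one_mem _
  -- a coordinate which does not occur in the annihilator
  obtain ⟨n, hn⟩ : ∃ n : ℕ, ∀ q ∈ bad_ann B, q n = 0 := by
    obtain ⟨S, hS⟩ := Module.Finite.iff_fg.1 hfd
    obtain ⟨n, hn⟩ := Infinite.exists_notMem_finset (S.biUnion fun q => q.support)
    refine ⟨n, fun q hq => ?_⟩
    have h1 : Submodule.span ℚ (S : Set (ℕ →₀ ℚ)) ≤
        LinearMap.ker (Finsupp.lapply n : (ℕ →₀ ℚ) →ₗ[ℚ] ℚ) := by
      rw [Submodule.span_le]
      intro q hq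
      rw [SetLike.mem_coe, LinearMap.mem_ker, Finsupp.lapply_apply]
      by_contra h2
      exact hn (Finset.mem_biUnion.2 ⟨q, hq, Finsupp.mem_support_iff.2 h2⟩)
    rw [hS] at h1
    exact h1 hq
  -- the point
  let y : Hm (ℕ →₀ ℚ) := ⟨fun q => (x n).1 (q n), fun a b => by
    show (x n).1 ((a + b) n) = (x n).1 (a n) * (x n).1 (b n)
    rw [Finsupp.add_apply, Hm.add]⟩
  have hy : y ∈ bad_comp B := by
    refine bad_bidual hchar0 hDD hBc fun q hq => ?_
    show (x n).1 (q n) = 1
    rw [hn q hq, Hm.zero]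
  have hyA : G y ∈ A := bad_comp_le B hy
  apply hdA n
  have h1 : d n = G y := by
    apply hinj
    funext χ
    show χ (d n) = χ (G y)
    rw [hpt n χ, hG]
    show _ = (x n).1 (Θ (Additive.ofMul χ) n)
    rw [hΘ]
  rw [h1]
  exact hyA

end bad

end R658.CN
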