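import Mathlib
import Pool.Agent.R658.CN.Stmts2

namespace R658.CN

open Topology Filter Set TopologicalSpace Function

universe u

section comb
variable {I : Type u} {𝓖 : Set (Set I)}

/-- atoms of the ideal -/
def IsAt (𝓖 : Set (Set I)) (J : Set I) : Prop :=
  J ∉ 𝓖 ∧ ∀ S : Set I, S ∩ J ∉ 𝓖 → J \ S ∈ 𝓖

theorem comb_union (hsigma : ∀ s : ℕ → Set I, (∀ n, s n ∈ 𝓖) → (⋃ n, s n) ∈ 𝓖)
    {A B : Set I} (hA : A ∈ 𝓖) (hB : B ∈ 𝓖) : A ∪ B ∈ 𝓖 := by
  have h := hsigma (fun n => if n = 0 then A else B) (by
    intro n
    by_cases h : n = 0 <;> simp [h, hA, hB])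
  have e : (⋃ n : ℕ, (if n = 0 then A else B)) = A ∪ B := by
    ext x
    simp only [mem_iUnion, mem_union]
    constructor
    · rintro ⟨n, hn⟩
      by_cases h : n = 0
      · rw [if_pos h] at hn; exact Or.inl hn
      · rw [if_neg h] at hn; exact Or.inr hn
    · rintro (h | h)
      · exact ⟨0, by simpa using h⟩
      · exact ⟨1, by simpa using h⟩
  rwa [e] at h

theorem comb_atom (hdisj : ∀ s : ℕ → Set I, Pairwise (Disjoint on s) → ∃ n, s n ∈ 𝓖)
    (B : Set I) (hB : B ∉ 𝓖) : ∃ J ⊆ B, IsAt 𝓖 J := by
  by_contra hcon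
  push Not at hcon
  have step : ∀ B' : {B' : Set I // B' ⊆ B ∧ B' ∉ 𝓖}, ∃ C : {B' : Set I // B' ⊆ B ∧ B' ∉ 𝓖},
      (C : Set I) ⊆ B' ∧ (B' : Set I) \ C ∉ 𝓖 := by
    rintro ⟨B', hB', hbad⟩
    have h := hcon B' hB'
    unfold IsAt at h
    push Not at h
    obtain ⟨S, hS1, hS2⟩ := h hbad
    refine ⟨⟨S ∩ B', inter_subset_right.trans hB', hS1⟩, inter_subset_right, ?_⟩
    have : B' \ (S ∩ B') = B' \ S := by
      ext x
      simp only [mem_diff, mem_inter_iff]
      tauto
    simpa only [this] using hS2
  choose f hf1 hf2 using step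
  let s : ℕ → {B' : Set I // B' ⊆ B ∧ B' ∉ 𝓖} := fun n => f^[n] ⟨B, subset_rfl, hB⟩
  have hs : ∀ n, s (n + 1) = f (s n) := fun n => Function.iterate_succ_apply' f n _
  have hanti : ∀ m n, m ≤ n → (s n : Set I) ⊆ s m := by
    intro m n hmn
    induction n, hmn using Nat.le_induction with
    | base => exact subset_rfl
    | succ n _ ih =>
      rw [hs n]
      exact (hf1 _).trans ih
  obtain ⟨n, hn⟩ := hdisj (fun n => (s n : Set I) \ s (n + 1)) (by
    intro m n hmn
    rcases lt_or_gt_of_ne hmn with h | h
    · rw [Function.onFun, Set.disjoint_left]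
      intro x hx hx'
      exact hx.2 (hanti (m + 1) n h hx'.1)
    · rw [Function.onFun, Set.disjoint_left]
      intro x hx hx'
      exact hx'.2 (hanti (n + 1) m h hx.1))
  simp only [hs n] at hn
  exact hf2 (s n) hn

end comb

theorem taskComb : TaskComb.{u} := by
  classical
  intro I 𝓖 hdown hsigma hdisj hU
  have hempty : (∅ : Set I) ∈ 𝓖 := by
    obtain ⟨n, hn⟩ := hdisj (fun _ => ∅) (by
      intro m n _
      simp [Function.onFun])
    exact hn
  have hatom : ∀ J : Set I, IsAt 𝓖 J → ∃ a ∈ J, ({a} : Set I) ∉ 𝓖 := by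
    rintro J ⟨hJ, hJa⟩
    by_contra hcon
    push Not at hcon
    apply hU
    have hgood : ∀ S : Set I, S ∩ J ∈ 𝓖 → J \ S ∉ 𝓖 := by
      intro S h1 h2
      apply hJ
      have := comb_union hsigma h1 h2
      have e : S ∩ J ∪ J \ S = J := by
        ext x
        simp only [mem_union, mem_inter_iff, mem_diff]
        tauto
      rwa [e] at this
    have hcount : ∀ s : ℕ → Set I, (∀ n, s n ∩ J ∉ 𝓖) → (⋂ n, s n) ∩ J ∉ 𝓖 := by
      intro s hs h
      have h2 := hsigma (fun n => J \ s n) (fun n => hJa _ (hs n))
      apply hgood _ h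
      have e : J \ (⋂ n, s n) = ⋃ n, J \ s n := by
        ext x
        simp only [mem_diff, mem_iInter, mem_iUnion, not_forall]
        constructor
        · rintro ⟨h, n, hn⟩; exact ⟨n, h, hn⟩
        · rintro ⟨n, h, hn⟩; exact ⟨h, n, hn⟩
      rw [e]
      exact h2
    let F : Filter I :=
      { sets := {S | S ∩ J ∉ 𝓖}
        univ_sets := by simpa using hJ
        sets_of_superset := by
          intro x y hx hxy hy
          exact hx (hdown _ hy _ (inter_subset_inter_left _ hxy))
        inter_sets := by
          intro x y hx hy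
          have h := hcount (fun n => if n = 0 then x else y) (by
            intro n
            by_cases h : n = 0
            · simpa [h] using hx
            · simpa [h] using hy)
          have e : (⋂ n : ℕ, (if n = 0 then x else y)) = x ∩ y := by
            ext z
            simp only [mem_iInter, mem_inter_iff]
            constructor
            · intro h
              exact ⟨by simpa using h 0, by simpa using h 1⟩
            · rintro ⟨h1, h2⟩ n
              by_cases h : n = 0
              · rw [if_pos h]; exact h1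
              · rw [if_neg h]; exact h2
          rw [e] at h
          exact h }
    have hF : ∀ S : Set I, S ∈ F ↔ S ∩ J ∉ 𝓖 := fun S => Iff.rfl
    refine ⟨I, rfl, Ultrafilter.ofComplNotMemIff F ?_, ?_, ?_⟩
    · intro S
      rw [hF, hF, not_not]
      have e : Sᶜ ∩ J = J \ S := by
        ext x
        simp only [mem_inter_iff, mem_compl_iff, mem_diff]
        tauto
      rw [e]
      constructor
      · intro h h'
        exact hgood S h' h
      · intro h
        exact hJa S h
    · intro a ha
      have ha' : ({a} : Set I) ∩ J ∉ 𝓖 := ha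
      by_cases h : a ∈ J
      · have e : ({a} : Set I) ∩ J = {a} := by
          ext x
          simp only [mem_inter_iff, mem_singleton_iff]
          constructor
          · exact fun h => h.1
          · rintro rfl; exact ⟨rfl, h⟩
        rw [e] at ha'
        exact ha' (hcon a h)
      · have e : ({a} : Set I) ∩ J = ∅ := by
          ext x
          simp only [mem_inter_iff, mem_singleton_iff, mem_empty_iff_false, iff_false]
          rintro ⟨rfl, h'⟩
          exact h h'
        rw [e] at ha'
        exact ha' hempty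
    · intro s hs
      exact hcount s hs
  refine ⟨{a | ({a} : Set I) ∉ 𝓖}, ?_, ?_⟩
  · by_contra hinf
    have hinf' : Set.Infinite {a : I | ({a} : Set I) ∉ 𝓖} := hinf
    let e := hinf'.natEmbedding
    obtain ⟨n, hn⟩ := hdisj (fun n => {((e n : {a : I | ({a} : Set I) ∉ 𝓖}) : I)}) (by
      intro m n hmn
      rw [Function.onFun, Set.disjoint_singleton]
      intro h
      exact hmn (e.injective (Subtype.ext h)))
    exact (e n).2 hn
  · by_contra hbad
    obtain ⟨J, hJ, hJa⟩ := comb_atom hdisj _ hbad
    obtain ⟨a, ha, ha'⟩ := hatom J hJa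
    exact hJ ha ha'

end R658.CN
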