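import Mathlib
import Pool.Agent.R658.CN.Stmts2

/-! # TASK CONN of project MP_12f6a1_al: `CJ κ J` is connected -/

namespace R658.CN

open Topology Filter Set TopologicalSpace Function

universe u

/-- the one-parameter subgroup -/
noncomputable def oneP (t : ℝ) : Hm ℚ :=
  ⟨fun q => Circle.exp (2 * Real.pi * (t * (q : ℝ))), fun a b => by
    show Circle.exp _ = Circle.exp _ * Circle.exp _
    rw [← Circle.exp_add]
    push_cast
    ring_nf⟩

theorem oneP_cont : Continuous oneP := by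
  refine Continuous.subtype_mk (continuous_pi fun q => ?_) _
  exact Circle.exp.continuous.comp (by fun_prop)

/-- every element of `Hom(ℚ, T)` is a limit of elements of the one-parameter subgroup -/
theorem oneP_dense (x : Hm ℚ) : x ∈ closure (range oneP) := by
  -- choose `s n` with `x (1/n!) = exp (2 π s n)`
  have hs : ∀ n : ℕ, ∃ s : ℝ, x.1 (1 / (n.factorial : ℚ)) = Circle.exp (2 * Real.pi * s) := by
    intro n
    obtain ⟨s, hs⟩ : ∃ s : ℝ, Circle.exp s = x.1 (1 / (n.factorial : ℚ)) :=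
      ⟨_, Circle.exp_arg _⟩
    refine ⟨s / (2 * Real.pi), ?_⟩
    rw [← hs]
    congr 1
    have := Real.pi_pos
    field_simp
  choose s hs using hs
  have hlim : Tendsto (fun n : ℕ => oneP ((n.factorial : ℝ) * s n)) atTop (𝓝 x) := by
    rw [tendsto_subtype_rng, tendsto_pi_nhds]
    intro q
    refine tendsto_const_nhds.congr' ?_
    filter_upwards [eventually_ge_atTop q.den] with n hn
    obtain ⟨k, hk⟩ : q.den ∣ n.factorial := Nat.dvd_factorial q.den_pos hn
    have hnf : (n.factorial : ℚ) ≠ 0 := by exact_mod_cast n.factorial_ne_zero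
    have hd : (q.den : ℚ) ≠ 0 := by exact_mod_cast q.den_nz
    have hkq : (n.factorial : ℚ) = q.den * k := by exact_mod_cast hk
    have hk0 : (k : ℚ) ≠ 0 := by
      intro h0
      rw [h0, mul_zero] at hkq
      exact hnf hkq
    have hqk : (q.num : ℚ) = q * q.den := (Rat.mul_den_eq_num q).symm
    have h1 : q = (q.num * (k : ℤ)) • (1 / (n.factorial : ℚ)) := by
      rw [zsmul_eq_mul]
      push_cast
      rw [hkq, hqk]
      field_simp
    have h2 : x.1 q = (x.1 (1 / (n.factorial : ℚ))) ^ (q.num * (k : ℤ)) := by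
      conv_lhs => rw [h1]
      rw [Hm.zsmul]
    rw [h2, hs n]
    show _ = Circle.exp (2 * Real.pi * ((n.factorial : ℝ) * s n * (q : ℝ)))
    rw [← Circle.exp_zsmul]
    congr 1
    have h3 : (n.factorial : ℝ) * (q : ℝ) = (q.num * (k : ℤ) : ℤ) := by
      have h4 : (n.factorial : ℚ) * q = (q.num * (k : ℤ) : ℤ) := by
        push_cast
        rw [hkq, hqk]; ring
      exact_mod_cast congrArg (fun r : ℚ => (r : ℝ)) h4
    rw [zsmul_eq_mul, ← h3]
    ring
  exact mem_closure_of_tendsto hlim (Eventually.of_forall fun n => ⟨_, rfl⟩)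

instance : PreconnectedSpace (Hm ℚ) := by
  constructor
  have h1 : IsPreconnected (range oneP) := isPreconnected_range oneP_cont
  have h2 := h1.closure
  have h3 : closure (range oneP) = (univ : Set (Hm ℚ)) := by
    rw [eq_univ_iff_forall]; exact oneP_dense
  rwa [h3] at h2

section

set_option linter.unusedSectionVars false

variable {C : Type u} [CommGroup C] [TopologicalSpace C] [IsTopologicalGroup C] [CompactSpace C]
  [T2Space C]

theorem CJ_closed {I : Type u} (κ : XX C →+ (I →₀ ℚ)) (J : Set I) : IsClosed (CJ κ J : Set C) := by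
  have : (CJ κ J : Set C) = ⋂ χ : C →ₜ* Circle, ⋂ _ : ∀ i ∈ J, κ (Additive.ofMul χ) i = 0,
      {c | χ c = 1} := by
    ext c
    simp only [mem_iInter]
    exact Iff.rfl
  rw [this]
  refine isClosed_iInter fun χ => isClosed_iInter fun _ => ?_
  exact isClosed_eq χ.continuous_toFun continuous_const

theorem Pt_mem_CJ {I : Type u} (κ : XX C →+ (I →₀ ℚ)) (J : Set I) (θ : I → ℚ)
    (hθ : ∀ i ∉ J, θ i = 0) (x : Hm ℚ) (d : C) (h : Pt κ θ x d) : d ∈ CJ κ J := by
  intro χ hχ
  rw [h χ]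
  have : Finsupp.linearCombination ℚ θ (κ (Additive.ofMul χ)) = 0 := by
    rw [Finsupp.linearCombination_apply]
    refine Finset.sum_eq_zero fun i _ => ?_
    show (κ (Additive.ofMul χ)) i • θ i = 0
    by_cases hi : i ∈ J
    · rw [hχ i hi, zero_smul]
    · rw [hθ i hi, smul_zero]
  rw [this, Hm.zero]

end

/-- TASK CONN -/
theorem taskConn (hchar : TaskChar.{u}) (hD : TaskD.{u}) (hApx : TaskApx.{u}) : TaskConn.{u} := by
  intro C _ _ _ _ _ I κ J
  set P : Set C := {d : C | ∃ θ : I → ℚ, (∀ i ∉ J, θ i = 0) ∧ ∃ x : Hm ℚ, Pt κ θ x d} with hP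
  set S : Subgroup C := Subgroup.closure P with hS
  have hSle : S ≤ CJ κ J := by
    rw [hS, Subgroup.closure_le]
    rintro d ⟨θ, hθ, x, hx⟩
    exact Pt_mem_CJ κ J θ hθ x d hx
  have hcl : (CJ κ J : Set C) = closure (S : Set C) := by
    apply Subset.antisymm
    · intro c hc
      obtain ⟨s, hs, hs'⟩ := hApx C I κ J c hc
      exact mem_closure_of_tendsto hs (Eventually.of_forall hs')
    · exact closure_minimal hSle (CJ_closed κ J)
  rw [hcl]
  apply IsPreconnected.closure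
  apply isPreconnected_of_forall (1 : C)
  intro y hy
  have key : ∀ y ∈ S, ∃ T : Set C, T ⊆ (S : Set C) ∧ (1 : C) ∈ T ∧ y ∈ T ∧ IsPreconnected T := by
    intro y hy
    refine Subgroup.closure_induction (p := fun y _ => ∃ T : Set C, T ⊆ (S : Set C) ∧ (1 : C) ∈ T ∧
      y ∈ T ∧ IsPreconnected T) ?_ ?_ ?_ ?_ hy
    · rintro d ⟨θ, hθ, x, hx⟩
      obtain ⟨G, hGc, hG⟩ := exists_hom hchar hD
        ((Finsupp.linearCombination ℚ θ).toAddMonoidHom.comp κ)
      refine ⟨range G, ?_, ⟨1, map_one G⟩, ⟨x, ?_⟩, isPreconnected_range hGc⟩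
      · rintro _ ⟨z, rfl⟩
        apply Subgroup.subset_closure
        exact ⟨θ, hθ, z, fun χ => hG z χ⟩
      · apply ev_inj C hchar
        funext χ
        show χ (G x) = χ d
        rw [hG, hx χ]
        rfl
    · exact ⟨{1}, by simp [S.one_mem], rfl, rfl, isPreconnected_singleton⟩
    · rintro a b _ _ ⟨Ta, ha1, ha2, ha3, ha4⟩ ⟨Tb, hb1, hb2, hb3, hb4⟩
      refine ⟨(fun p : C × C => p.1 * p.2) '' (Ta ×ˢ Tb), ?_, ⟨(1, 1), ⟨ha2, hb2⟩, by simp⟩,
        ⟨(a, b), ⟨ha3, hb3⟩, rfl⟩, (ha4.prod hb4).image _ continuous_mul.continuousOn⟩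
      rintro _ ⟨⟨p, q⟩, ⟨hp, hq⟩, rfl⟩
      exact S.mul_mem (ha1 hp) (hb1 hq)
    · rintro a _ ⟨Ta, ha1, ha2, ha3, ha4⟩
      refine ⟨(fun p : C => p⁻¹) '' Ta, ?_, ⟨1, ha2, by simp⟩, ⟨a, ha3, rfl⟩,
        ha4.image _ continuous_inv.continuousOn⟩
      rintro _ ⟨p, hp, rfl⟩
      exact S.inv_mem (ha1 hp)
  exact key y hy

end R658.CN
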