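import Mathlib
import Pool.Agent.R658.CN.Stmts

/-! # Project MP_0bb520_al: task D (duality) -/

namespace R658.CN

open Topology Filter Set TopologicalSpace MeasureTheory

universe u

namespace TD

variable {C : Type u} [CommGroup C] [TopologicalSpace C] [IsTopologicalGroup C] [CompactSpace C]
    [T2Space C]

/-- The pair of functions attached to a character. -/
noncomputable def g (h : (C →ₜ* Circle) →* Circle) :
    (C →ₜ* Circle) →* (C → ℂ) × (C → ℂ) where
  toFun ψ := (fun c => (ψ c : ℂ), fun c => ((h ψ)⁻¹ : Circle) * (ψ c : ℂ))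
  map_one' := by
    ext c <;> simp
  map_mul' ψ φ := by
    ext c
    · simp
    · simp
      ring

/-- Pairs of integrable functions with the same integral. -/
def P [MeasurableSpace C] (μ : Measure C) (p : (C → ℂ) × (C → ℂ)) : Prop :=
  Integrable p.1 μ ∧ Integrable p.2 μ ∧ ∫ c, p.1 c ∂μ = ∫ c, p.2 c ∂μ

theorem integral_char [MeasurableSpace C] [BorelSpace C] (μ : Measure C)
    [μ.IsHaarMeasure] (ψ : C →ₜ* Circle) (hψ : ψ ≠ 1) : ∫ c, (ψ c : ℂ) ∂μ = 0 := by
  obtain ⟨c0, hc0⟩ : ∃ c0, ψ c0 ≠ 1 := by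
    by_contra hcon
    push Not at hcon
    exact hψ (ContinuousMonoidHom.ext hcon)
  have h1 : ∫ c, (ψ (c0 * c) : ℂ) ∂μ = ∫ c, (ψ c : ℂ) ∂μ :=
    integral_mul_left_eq_self (fun c => (ψ c : ℂ)) c0
  have h2 : ∫ c, (ψ (c0 * c) : ℂ) ∂μ = (ψ c0 : ℂ) * ∫ c, (ψ c : ℂ) ∂μ := by
    rw [← integral_const_mul]
    congr 1
    ext c
    rw [map_mul, Circle.coe_mul]
  rw [h2] at h1
  have h3 : ((ψ c0 : ℂ) - 1) * ∫ c, (ψ c : ℂ) ∂μ = 0 := by
    rw [sub_mul, one_mul, h1, sub_self]
  rcases mul_eq_zero.1 h3 with h4 | h4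
  · exfalso
    apply hc0
    have h5 : (ψ c0 : ℂ) = 1 := sub_eq_zero.1 h4
    exact Circle.ext (by simpa using h5)
  · exact h4

theorem P_span [MeasurableSpace C] [BorelSpace C] (μ : Measure C)
    [μ.IsHaarMeasure] (h : (C →ₜ* Circle) →* Circle) (p : (C → ℂ) × (C → ℂ))
    (hp : p ∈ Submodule.span ℂ (Set.range (g h))) : P μ p := by
  induction hp using Submodule.span_induction with
  | mem x hx =>
    obtain ⟨ψ, rfl⟩ := hx
    have hc0 : Continuous ψ := ψ.continuous_toFun
    have hc : Continuous fun c => (ψ c : ℂ) := by fun_prop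
    have hi : Integrable (fun c => (ψ c : ℂ)) μ :=
      hc.integrable_of_hasCompactSupport (HasCompactSupport.of_compactSpace _)
    refine ⟨hi, hi.const_mul _, ?_⟩
    change ∫ c, (ψ c : ℂ) ∂μ = ∫ c, ((h ψ)⁻¹ : Circle) * (ψ c : ℂ) ∂μ
    rw [integral_const_mul]
    by_cases hψ : ψ = 1
    · subst hψ
      simp
    · rw [integral_char μ ψ hψ, mul_zero]
  | zero => exact ⟨integrable_zero _ _ _, integrable_zero _ _ _, rfl⟩
  | add x y _ _ hx hy =>
    refine ⟨hx.1.add hy.1, hx.2.1.add hy.2.1, ?_⟩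
    change ∫ c, (x.1 c + y.1 c) ∂μ = ∫ c, (x.2 c + y.2 c) ∂μ
    rw [integral_add hx.1 hy.1, integral_add hx.2.1 hy.2.1, hx.2.2, hy.2.2]
  | smul a x _ hx =>
    refine ⟨hx.1.smul a, hx.2.1.smul a, ?_⟩
    change ∫ c, a • x.1 c ∂μ = ∫ c, a • x.2 c ∂μ
    rw [integral_smul, integral_smul, hx.2.2]

theorem P_adjoin [MeasurableSpace C] [BorelSpace C] (μ : Measure C)
    [μ.IsHaarMeasure] (h : (C →ₜ* Circle) →* Circle) (p : (C → ℂ) × (C → ℂ))
    (hp : p ∈ Algebra.adjoin ℂ (Set.range (g h))) : P μ p := by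
  apply P_span μ h p
  rw [← Subalgebra.mem_toSubmodule, Algebra.adjoin_eq_span] at hp
  have : ((Submonoid.closure (Set.range (g h)) : Submonoid _) : Set ((C → ℂ) × (C → ℂ))) =
      Set.range (g h) := by
    rw [← MonoidHom.coe_mrange, Submonoid.closure_eq]
  rw [this] at hp
  exact hp

/-- The element whose powers are used. -/
noncomputable def elt (h : (C →ₜ* Circle) →* Circle) (F : Finset (C →ₜ* Circle)) :
    (C → ℂ) × (C → ℂ) := ∑ χ ∈ F, (2 + g h χ + g h χ⁻¹)

theorem elt_mem (h : (C →ₜ* Circle) →* Circle) (F : Finset (C →ₜ* Circle)) (N : ℕ) :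
    elt h F ^ N ∈ Algebra.adjoin ℂ (Set.range (g h)) := by
  apply pow_mem
  apply sum_mem
  intro χ _
  apply add_mem
  · apply add_mem
    · exact_mod_cast (Algebra.adjoin ℂ (Set.range (g h))).natCast_mem 2
    · exact Algebra.subset_adjoin ⟨χ, rfl⟩
  · exact Algebra.subset_adjoin ⟨χ⁻¹, rfl⟩

/-- The real function. -/
noncomputable def fr (h : (C →ₜ* Circle) →* Circle) (F : Finset (C →ₜ* Circle)) (c : C) : ℝ :=
  ∑ χ ∈ F, (2 + 2 * (((h χ)⁻¹ * χ c : Circle) : ℂ).re)

theorem circle_add_inv (z : Circle) : (z : ℂ) + ((z⁻¹ : Circle) : ℂ) = ((2 * (z : ℂ).re : ℝ) : ℂ) := by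
  rw [Circle.coe_inv_eq_conj, Complex.add_conj]

theorem elt_snd (h : (C →ₜ* Circle) →* Circle) (F : Finset (C →ₜ* Circle)) (c : C) :
    (elt h F).2 c = (fr h F c : ℂ) := by
  unfold elt fr
  rw [Prod.snd_sum, Finset.sum_apply, Complex.ofReal_sum]
  apply Finset.sum_congr rfl
  intro χ _
  have h1 : (g h χ).2 c = (((h χ)⁻¹ * χ c : Circle) : ℂ) := by simp [g]
  have h0 : (χ⁻¹ : C →ₜ* Circle) c = (χ c)⁻¹ := rfl
  have h2 : (g h χ⁻¹).2 c = ((((h χ)⁻¹ * χ c)⁻¹ : Circle) : ℂ) := by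
    simp [g, h0, mul_comm]
  change (2 : ℂ) + (g h χ).2 c + (g h χ⁻¹).2 c = _
  rw [h1, h2, add_assoc, circle_add_inv]
  push_cast
  ring

theorem elt_fst (h : (C →ₜ* Circle) →* Circle) (F : Finset (C →ₜ* Circle)) (c : C) :
    (elt h F).1 c = (fr (1 : (C →ₜ* Circle) →* Circle) F c : ℂ) := by
  unfold elt fr
  rw [Prod.fst_sum, Finset.sum_apply, Complex.ofReal_sum]
  apply Finset.sum_congr rfl
  intro χ _
  have h1 : (g h χ).1 c = ((χ c : Circle) : ℂ) := by simp [g]
  have h0 : (χ⁻¹ : C →ₜ* Circle) c = (χ c)⁻¹ := rfl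
  have h2 : (g h χ⁻¹).1 c = (((χ c)⁻¹ : Circle) : ℂ) := by
    simp [g, h0]
  change (2 : ℂ) + (g h χ).1 c + (g h χ⁻¹).1 c = _
  rw [h1, h2, add_assoc, circle_add_inv]
  simp

theorem fr_cont (h : (C →ₜ* Circle) →* Circle) (F : Finset (C →ₜ* Circle)) :
    Continuous (fr h F) := by
  unfold fr
  apply continuous_finsetSum
  intro χ _
  have hc0 : Continuous χ := χ.continuous_toFun
  fun_prop

theorem re_le (z : Circle) : -1 ≤ (z : ℂ).re ∧ (z : ℂ).re ≤ 1 := by
  have h := Complex.abs_re_le_norm (z : ℂ)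
  rw [Circle.norm_coe] at h
  exact abs_le.1 h

theorem re_eq_one (z : Circle) (hz : (z : ℂ).re = 1) : z = 1 := by
  have h1 : ‖(z : ℂ)‖ = 1 := Circle.norm_coe z
  have h2 : (z : ℂ).im = 0 := by
    have h3 : (z : ℂ).re ^ 2 + (z : ℂ).im ^ 2 = 1 := by
      have := Complex.sq_norm (z : ℂ)
      rw [h1, Complex.normSq_apply] at this
      nlinarith
    rw [hz] at h3
    nlinarith
  apply Circle.ext
  apply Complex.ext
  · simpa using hz
  · simpa using h2

theorem fr_nonneg (h : (C →ₜ* Circle) →* Circle) (F : Finset (C →ₜ* Circle)) (c : C) :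
    0 ≤ fr h F c := by
  unfold fr
  apply Finset.sum_nonneg
  intro χ _
  have := re_le ((h χ)⁻¹ * χ c)
  linarith

theorem fr_lt (h : (C →ₜ* Circle) →* Circle) (F : Finset (C →ₜ* Circle)) (c : C)
    (hc : ∃ χ ∈ F, χ c ≠ h χ) : fr h F c < 4 * F.card := by
  obtain ⟨χ, hχ, hne⟩ := hc
  have h1 : fr h F c < ∑ χ ∈ F, (4 : ℝ) := by
    unfold fr
    apply Finset.sum_lt_sum
    · intro ψ _
      have := re_le ((h ψ)⁻¹ * ψ c)
      linarith
    · refine ⟨χ, hχ, ?_⟩
      have h2 := (re_le ((h χ)⁻¹ * χ c)).2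
      rcases h2.eq_or_lt with h3 | h3
      · exfalso
        apply hne
        have := re_eq_one _ h3
        rw [inv_mul_eq_one] at this
        exact this.symm
      · linarith
  rw [Finset.sum_const, nsmul_eq_mul] at h1
  linarith

theorem integral_eq [MeasurableSpace C] [BorelSpace C] (μ : Measure C)
    [μ.IsHaarMeasure] (h : (C →ₜ* Circle) →* Circle) (F : Finset (C →ₜ* Circle)) (N : ℕ) :
    ∫ c, fr h F c ^ N ∂μ = ∫ c, fr 1 F c ^ N ∂μ := by
  obtain ⟨_, _, h3⟩ := P_adjoin μ h _ (elt_mem h F N)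
  have e1 : ∀ c, (elt h F ^ N).1 c = ((fr 1 F c ^ N : ℝ) : ℂ) := by
    intro c
    rw [Prod.pow_fst, Pi.pow_apply, elt_fst]
    push_cast
    rfl
  have e2 : ∀ c, (elt h F ^ N).2 c = ((fr h F c ^ N : ℝ) : ℂ) := by
    intro c
    rw [Prod.pow_snd, Pi.pow_apply, elt_snd]
    push_cast
    rfl
  simp only [e1, e2] at h3
  rw [integral_complex_ofReal, integral_complex_ofReal] at h3
  exact_mod_cast h3.symm

theorem finite_case (h : (C →ₜ* Circle) →* Circle) (F : Finset (C →ₜ* Circle)) :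
    ∃ c : C, ∀ χ ∈ F, χ c = h χ := by
  by_contra hcon
  push Not at hcon
  let _ : MeasurableSpace C := borel C
  have : BorelSpace C := ⟨rfl⟩
  let μ : Measure C := Measure.haar
  have hfin : IsFiniteMeasure μ := inferInstance
  have hlt : ∀ c, fr h F c < 4 * F.card := fun c => fr_lt h F c (hcon c)
  obtain ⟨c0, _, hc0⟩ := isCompact_univ.exists_isMaxOn (s := (univ : Set C)) univ_nonempty
    (fr_cont h F).continuousOn
  have hmax : ∀ c, fr h F c ≤ fr h F c0 := fun c => hc0 (mem_univ c)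
  set M := fr h F c0 with hM
  have hM0 : 0 ≤ M := fr_nonneg h F c0
  obtain ⟨M', hM1, hM2⟩ := exists_between (hlt c0)
  have hM'0 : 0 < M' := lt_of_le_of_lt hM0 hM1
  set U : Set C := {c | M' < fr 1 F c} with hU
  have hUo : IsOpen U := isOpen_lt continuous_const (fr_cont 1 F)
  have h1U : (1 : C) ∈ U := by
    have : fr (1 : (C →ₜ* Circle) →* Circle) F 1 = 4 * F.card := by
      unfold fr
      simp
      ring
    change M' < fr 1 F 1
    rw [this]
    exact hM2
  have hUpos : 0 < μ U := hUo.measure_pos μ ⟨1, h1U⟩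
  set m : ℝ := μ.real U with hm
  have hmpos : 0 < m := by
    rw [hm, Measure.real]
    exact ENNReal.toReal_pos hUpos.ne' (measure_ne_top μ U)
  have key : ∀ N : ℕ, m * M' ^ N ≤ μ.real univ * M ^ N := by
    intro N
    have i1 : Integrable (fun c => fr 1 F c ^ N) μ :=
      ((fr_cont 1 F).pow N).integrable_of_hasCompactSupport (HasCompactSupport.of_compactSpace _)
    have i2 : Integrable (fun c => fr h F c ^ N) μ :=
      ((fr_cont h F).pow N).integrable_of_hasCompactSupport (HasCompactSupport.of_compactSpace _)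
    calc m * M' ^ N = ∫ c in U, M' ^ N ∂μ := by
          rw [setIntegral_const, smul_eq_mul]
      _ ≤ ∫ c in U, fr 1 F c ^ N ∂μ := by
          apply setIntegral_mono_on
          · exact integrableOn_const (measure_ne_top μ U)
          · exact i1.integrableOn
          · exact hUo.measurableSet
          · intro c hc
            exact pow_le_pow_left₀ hM'0.le (le_of_lt hc) N
      _ ≤ ∫ c, fr 1 F c ^ N ∂μ := by
          apply setIntegral_le_integral i1
          exact Eventually.of_forall fun c => pow_nonneg (fr_nonneg 1 F c) N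
      _ = ∫ c, fr h F c ^ N ∂μ := (integral_eq μ h F N).symm
      _ ≤ ∫ c, M ^ N ∂μ := by
          apply integral_mono i2 (integrable_const _)
          intro c
          exact pow_le_pow_left₀ (fr_nonneg h F c) (hmax c) N
      _ = μ.real univ * M ^ N := by rw [integral_const, smul_eq_mul]
  have hlim : Tendsto (fun N : ℕ => μ.real univ * (M / M') ^ N) atTop (𝓝 (μ.real univ * 0)) := by
    apply Tendsto.const_mul
    apply tendsto_pow_atTop_nhds_zero_of_lt_one (div_nonneg hM0 hM'0.le)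
    rw [div_lt_one hM'0]
    exact hM1
  rw [mul_zero] at hlim
  have hle : m ≤ 0 := by
    apply ge_of_tendsto' hlim
    intro N
    rw [div_pow, ← mul_div_assoc, le_div_iff₀ (pow_pos hM'0 N)]
    exact key N
  linarith

end TD

open TD in
theorem taskD : TaskD.{u} := by
  intro C _ _ _ _ _ h
  have hne : (univ ∩ ⋂ χ : C →ₜ* Circle, {c : C | χ c = h χ}).Nonempty := by
    apply isCompact_univ.inter_iInter_nonempty
    · intro χ
      exact isClosed_eq χ.continuous_toFun continuous_const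
    · intro F
      obtain ⟨c, hc⟩ := finite_case h F
      refine ⟨c, mem_univ _, ?_⟩
      simp only [mem_iInter]
      intro χ hχ
      exact hc χ hχ
  obtain ⟨c, _, hc⟩ := hne
  exact ⟨c, fun χ => by simpa using mem_iInter.1 hc χ⟩

end R658.CN
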