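import Mathlib
import Pool.Agent.R658.CN.Stmts2

/-! # TASK DD of project MP_12f6a1_al: the characters of `Hom(Q, T)` are the evaluations -/

namespace R658.CN

open Topology Filter Set TopologicalSpace Function

universe u

/-- the injection of `ℚ/ℤ` in the circle -/
noncomputable def qz : AddCircle (1 : ℚ) →+ Additive Circle :=
  QuotientAddGroup.lift (AddSubgroup.zmultiples (1 : ℚ))
    { toFun := fun q => Additive.ofMul (Circle.exp (2 * Real.pi * (q : ℝ)))
      map_zero' := by simp
      map_add' := by
        intro a b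
        rw [← ofMul_mul, ← Circle.exp_add]
        push_cast
        rw [mul_add] }
    (by
      rintro x ⟨n, rfl⟩
      show Additive.ofMul (Circle.exp (2 * Real.pi * ((n • (1 : ℚ) : ℚ) : ℝ))) = 0
      rw [← ofMul_one]
      congr 1
      have : ((n • (1 : ℚ) : ℚ) : ℝ) = (n : ℝ) := by simp
      rw [this]
      exact Circle.exp_two_pi_mul_int n)

theorem qz_inj (a : AddCircle (1 : ℚ)) (h : qz a = 0) : a = 0 := by
  obtain ⟨q, rfl⟩ := QuotientAddGroup.mk_surjective a
  have h1 : Additive.ofMul (Circle.exp (2 * Real.pi * (q : ℝ))) = 0 := h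
  rw [← ofMul_one] at h1
  have h2 : Circle.exp (2 * Real.pi * (q : ℝ)) = 1 := Additive.ofMul.injective h1
  obtain ⟨n, hn⟩ := Circle.exp_eq_one.mp h2
  have hpi := Real.pi_pos
  have h3 : (q : ℝ) = n := by
    have : (2 * Real.pi) * ((q : ℝ) - n) = 0 := by rw [mul_sub, hn]; ring
    rcases mul_eq_zero.mp this with h | h
    · exfalso; linarith
    · linarith
  have h4 : q = (n : ℚ) := by exact_mod_cast h3
  rw [QuotientAddGroup.eq_zero_iff]
  refine ⟨n, ?_⟩
  rw [h4]
  simp

/-- an abelian group has enough characters with values in the circle -/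
theorem exists_circle_char {A : Type u} [AddCommGroup A] (a : A) (ha : a ≠ 0) :
    ∃ c : A →+ Additive Circle, c a ≠ 0 := by
  obtain ⟨c, hc⟩ := CharacterModule.exists_character_apply_ne_zero_of_ne_zero ha
  exact ⟨qz.comp (show A →+ AddCircle (1 : ℚ) from c), fun h => hc (qz_inj _ h)⟩

/-- the evaluation at `q` -/
def evq {Q : Type} [AddCommGroup Q] (q : Q) : Hm Q →ₜ* Circle where
  toFun := fun x => x.1 q
  map_one' := rfl
  map_mul' := fun _ _ => rfl
  continuous_toFun := (continuous_apply q).comp continuous_subtype_val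

/-- the evaluations as a homomorphism -/
def evHom (Q : Type) [AddCommGroup Q] : Q →+ Additive (Hm Q →ₜ* Circle) where
  toFun := fun q => Additive.ofMul (evq q)
  map_zero' := by
    rw [← ofMul_one]
    congr 1
    ext x
    show ((x.1 0 : Circle) : ℂ) = 1
    rw [Hm.zero]; rfl
  map_add' := by
    intro a b
    rw [← ofMul_mul]
    congr 1
    ext x
    show ((x.1 (a + b) : Circle) : ℂ) = ((x.1 a * x.1 b : Circle) : ℂ)
    rw [Hm.add]

/-- TASK DD -/
theorem taskDD (_hchar : TaskChar.{0}) (hD : TaskD.{0}) : TaskDD := by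
  intro Q _ ψ
  by_cases hψ : Additive.ofMul ψ ∈ (evHom Q).range
  · obtain ⟨q, hq⟩ := hψ
    refine ⟨q, fun x => ?_⟩
    have h1 : evq q = ψ := Additive.ofMul.injective hq
    rw [← h1]
    rfl
  · exfalso
    have ha : (QuotientAddGroup.mk (Additive.ofMul ψ) :
        Additive (Hm Q →ₜ* Circle) ⧸ (evHom Q).range) ≠ 0 := by
      intro h
      exact hψ ((QuotientAddGroup.eq_zero_iff _).mp h)
    obtain ⟨c, hc⟩ := exists_circle_char _ ha
    let h : (Hm Q →ₜ* Circle) →* Circle :=
      { toFun := fun χ => Additive.toMul (c (QuotientAddGroup.mk (Additive.ofMul χ)))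
        map_one' := by
          rw [ofMul_one]
          have : (QuotientAddGroup.mk (0 : Additive (Hm Q →ₜ* Circle)) :
            Additive (Hm Q →ₜ* Circle) ⧸ (evHom Q).range) = 0 := rfl
          rw [this, map_zero]
          rfl
        map_mul' := by
          intro χ χ'
          rw [ofMul_mul, QuotientAddGroup.mk_add, map_add]
          rfl }
    obtain ⟨z, hz⟩ := hD (Hm Q) h
    have hz1 : z = 1 := by
      apply Subtype.ext
      funext q
      have h1 : evq q z = h (evq q) := hz (evq q)
      have h2 : h (evq q) = 1 := by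
        show Additive.toMul (c (QuotientAddGroup.mk (Additive.ofMul (evq q)))) = 1
        have : (QuotientAddGroup.mk (Additive.ofMul (evq q)) :
            Additive (Hm Q →ₜ* Circle) ⧸ (evHom Q).range) = 0 :=
          (QuotientAddGroup.eq_zero_iff _).mpr ⟨q, rfl⟩
        rw [this, map_zero]
        rfl
      have h3 : z.1 q = 1 := by rw [← h2]; exact h1
      rw [h3]
      rfl
    have h4 : ψ z = h ψ := hz ψ
    rw [hz1, map_one] at h4
    apply hc
    show c (QuotientAddGroup.mk (Additive.ofMul ψ)) = 0
    have h5 : Additive.toMul (c (QuotientAddGroup.mk (Additive.ofMul ψ))) = 1 := h4.symm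
    exact Additive.toMul.injective h5

end R658.CN
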