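import Mathlib
import Pool.Agent.R658.CN.Stmts

/-! # TASK DIV: compact connected abelian groups are divisible (helper883) -/

namespace R658.CN

open Topology Filter Set

universe u

theorem circle_pow_finite (n : ℕ) (hn : n ≠ 0) : {z : Circle | z ^ n = 1}.Finite := by
  have h : {z : Circle | z ^ n = 1} ⊆
      (fun z : Circle => (z : ℂ)) ⁻¹' ((Polynomial.nthRoots n (1 : ℂ)).toFinset : Set ℂ) := by
    intro z hz
    simp only [mem_preimage, Finset.mem_coe, Multiset.mem_toFinset]
    rw [Polynomial.mem_nthRoots (Nat.pos_of_ne_zero hn)]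
    have : z ^ n = 1 := hz
    rw [← Circle.coe_pow, this, Circle.coe_one]
  exact (Set.Finite.preimage (Circle.coe_injective.injOn) (Finset.finite_toSet _)).subset h

/-- a continuous homomorphism from a connected group to the circle of finite order is trivial -/
theorem trivial_of_pow {C : Type u} [Group C] [TopologicalSpace C] [PreconnectedSpace C]
    (ψ : C →* Circle) (hψ : Continuous ψ) (n : ℕ) (hn : n ≠ 0) (h : ∀ x, ψ x ^ n = 1) (x : C) :
    ψ x = 1 := by
  have h1 : IsPreconnected (range ψ) := isPreconnected_range hψ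
  have h2 : (range ψ).Finite := (circle_pow_finite n hn).subset (by rintro _ ⟨y, rfl⟩; exact h y)
  have h3 : (range ψ).Subsingleton := by
    exact h2.countable.isTotallyDisconnected _ subset_rfl h1
  have := h3 ⟨x, rfl⟩ ⟨1, rfl⟩
  rwa [map_one] at this

theorem taskDiv (hchar : TaskChar.{u}) : TaskDiv.{u} := by
  intro C _ _ _ _ _ _ n hn c
  set D : Subgroup C := (powMonoidHom n : C →* C).range with hD
  have hDc : IsClosed (D : Set C) := by
    have : (D : Set C) = range (fun x : C => x ^ n) := by ext y; simp [hD]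
    rw [this]
    exact (isCompact_range (continuous_pow n)).isClosed
  have : IsClosed (D : Set C) := hDc
  by_contra hcon
  have hc : (QuotientGroup.mk c : C ⧸ D) ≠ 1 := by
    intro h
    rw [QuotientGroup.eq_one_iff] at h
    obtain ⟨d, hd⟩ := h
    exact hcon ⟨d, hd⟩
  obtain ⟨χ, hχ⟩ := hchar (C ⧸ D) (QuotientGroup.mk c) hc
  apply hχ
  have := trivial_of_pow ((χ : (C ⧸ D) →* Circle).comp (QuotientGroup.mk' D))
    (χ.continuous_toFun.comp continuous_quotient_mk') n hn ?_ c
  · exact this
  · intro x
    rw [← map_pow]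
    change χ (QuotientGroup.mk (x ^ n)) = 1
    have : (QuotientGroup.mk (x ^ n) : C ⧸ D) = 1 := by
      rw [QuotientGroup.eq_one_iff]; exact ⟨x, rfl⟩
    rw [this, map_one]

end R658.CN
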