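import Mathlib
import Pool.Agent.R658.CN.Stmts

/-! # Project MP_0bb520_al, Task F (helper258 for helper658): the identity component of a compact
nilpotent group is central -/

namespace R658.CN

open Topology Filter Set TopologicalSpace
open scoped commutatorElement

universe u

/-- The circle has no small subgroups. -/
theorem circle_no_small (z : Circle) (h : ∀ n : ℕ, 0 < ((z ^ n : Circle) : ℂ).re) : z = 1 := by
  have hsq : ∀ w : Circle, (w : ℂ).re ^ 2 + (w : ℂ).im ^ 2 = 1 := by
    intro w
    have := Circle.normSq_coe w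
    rw [Complex.normSq_apply] at this
    nlinarith
  have h2 : ∀ w : Circle, 0 < (w : ℂ).re → 2 * (1 - (w : ℂ).re) ≤ 1 - ((w ^ 2 : Circle) : ℂ).re := by
    intro w hw
    have h3 := hsq w
    have h4 : ((w ^ 2 : Circle) : ℂ).re = (w : ℂ).re ^ 2 - (w : ℂ).im ^ 2 := by
      rw [Circle.coe_pow, pow_two, Complex.mul_re]
      ring
    rw [h4]
    have h5 : (w : ℂ).re ≤ 1 := by nlinarith [sq_nonneg (w : ℂ).im]
    nlinarith
  have h1 : ∀ k : ℕ, 2 ^ k * (1 - (z : ℂ).re) ≤ 1 - ((z ^ (2 ^ k) : Circle) : ℂ).re := by
    intro k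
    induction k with
    | zero => simp
    | succ k ih =>
      have := h2 (z ^ (2 ^ k)) (h _)
      rw [← pow_mul, ← pow_succ] at this
      rw [pow_succ]
      linarith
  have hre : (z : ℂ).re = 1 := by
    have hle : (z : ℂ).re ≤ 1 := by nlinarith [sq_nonneg (z : ℂ).im, hsq z]
    by_contra hne
    have hlt : 0 < 1 - (z : ℂ).re := by
      have := lt_of_le_of_ne hle hne
      linarith
    obtain ⟨k, hk⟩ := pow_unbounded_of_one_lt (1 / (1 - (z : ℂ).re)) (one_lt_two (α := ℝ))
    rw [div_lt_iff₀ hlt] at hk
    have h3 := h1 k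
    have h4 := h (2 ^ k)
    linarith
  have him : (z : ℂ).im = 0 := by
    have := hsq z
    rw [hre] at this
    nlinarith [sq_nonneg (z : ℂ).im]
  apply Circle.ext
  rw [Circle.coe_one]
  exact Complex.ext (by simpa using hre) (by simpa using him)

section

variable {K : Type u} [Group K] [TopologicalSpace K] [IsTopologicalGroup K] [CompactSpace K]
  [T2Space K]

theorem comm_mul_left (x x' k : K) (h : ⁅x', k⁆ ∈ Subgroup.center K) :
    ⁅x * x', k⁆ = ⁅x, k⁆ * ⁅x', k⁆ := by
  rw [Subgroup.mem_center_iff] at h
  calc ⁅x * x', k⁆ = (x * ⁅x', k⁆) * (k * x⁻¹ * k⁻¹) := by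
        simp only [commutatorElement_def]; group
    _ = (⁅x', k⁆ * x) * (k * x⁻¹ * k⁻¹) := by rw [h x]
    _ = ⁅x', k⁆ * ⁅x, k⁆ := by simp only [commutatorElement_def]; group
    _ = ⁅x, k⁆ * ⁅x', k⁆ := (h _).symm

theorem comm_mul_right (x k k' : K) (h : ⁅x, k'⁆ ∈ Subgroup.center K) :
    ⁅x, k * k'⁆ = ⁅x, k⁆ * ⁅x, k'⁆ := by
  rw [Subgroup.mem_center_iff] at h
  calc ⁅x, k * k'⁆ = ⁅x, k⁆ * ((k * ⁅x, k'⁆) * k⁻¹) := by
        simp only [commutatorElement_def]; group
    _ = ⁅x, k⁆ * ((⁅x, k'⁆ * k) * k⁻¹) := by rw [h k]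
    _ = ⁅x, k⁆ * ⁅x, k'⁆ := by rw [mul_inv_cancel_right]

theorem central_step (hchar : TaskChar.{u})
    (hc : ∀ x ∈ connectedComponent (1 : K), ∀ k : K, ⁅x, k⁆ ∈ Subgroup.center K) :
    ∀ x ∈ connectedComponent (1 : K), ∀ k : K, x * k = k * x := by
  have hclosed : IsClosed (Subgroup.center K : Set K) := by
    have h1 : (Subgroup.center K : Set K) = ⋂ g : K, {z | g * z = z * g} := by
      ext z
      simp [Subgroup.mem_center_iff]
    rw [h1]
    exact isClosed_iInter fun g => isClosed_eq (by fun_prop) (by fun_prop)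
  haveI : CompactSpace (Subgroup.center K) := isCompact_iff_compactSpace.1 hclosed.isCompact
  set c0 : Subgroup K := Subgroup.connectedComponentOfOne K with hc0
  have hmem : ∀ x : c0, ∀ k : K, ⁅(x : K), k⁆ ∈ Subgroup.center K := fun x k => hc x x.2 k
  haveI hconn : PreconnectedSpace c0 :=
    isPreconnected_iff_preconnectedSpace.1 (isPreconnected_connectedComponent (x := (1 : K)))
  have main : ∀ χ : (Subgroup.center K) →ₜ* Circle, ∀ x : c0, ∀ k : K,
      χ ⟨⁅(x : K), k⁆, hmem x k⟩ = 1 := by
    intro χ
    let B : c0 →* (K → Circle) :=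
      { toFun := fun x k => χ ⟨⁅(x : K), k⁆, hmem x k⟩
        map_one' := by
          funext k
          have : (⟨⁅((1 : c0) : K), k⁆, hmem 1 k⟩ : Subgroup.center K) = 1 := by
            apply Subtype.ext
            simp [commutatorElement_def]
          simp only [this, map_one]
          rfl
        map_mul' := fun x y => by
          funext k
          have : (⟨⁅((x * y : c0) : K), k⁆, hmem (x * y) k⟩ : Subgroup.center K)
              = ⟨⁅(x : K), k⁆, hmem x k⟩ * ⟨⁅(y : K), k⁆, hmem y k⟩ := by
            apply Subtype.ext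
            exact comm_mul_left (x : K) (y : K) k (hmem y k)
          simp only [this, map_mul]
          rfl }
    have hB : ∀ x k, B x k = χ ⟨⁅(x : K), k⁆, hmem x k⟩ := fun x k => rfl
    have hpow : ∀ (x : c0) (k : K) (n : ℕ), B x (k ^ n) = (B x k) ^ n := by
      intro x k n
      induction n with
      | zero =>
        rw [pow_zero, pow_zero, hB]
        have : (⟨⁅(x : K), (1 : K)⁆, hmem x 1⟩ : Subgroup.center K) = 1 := by
          apply Subtype.ext
          simp [commutatorElement_def]
        rw [this, map_one]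
      | succ n ih =>
        rw [pow_succ, pow_succ, ← ih, hB, hB, hB, ← map_mul]
        congr 1
        apply Subtype.ext
        exact comm_mul_right (x : K) (k ^ n) k (hmem x k)
    have hcont : Continuous fun z : c0 × K => ((B z.1 z.2 : Circle) : ℂ).re := by
      refine Complex.continuous_re.comp (continuous_subtype_val.comp ?_)
      refine χ.continuous_toFun.comp ?_
      refine Continuous.subtype_mk ?_ _
      simp only [commutatorElement_def]
      fun_prop
    have hev : ∀ᶠ x in 𝓝 (1 : c0), ∀ k ∈ (Set.univ : Set K), 0 < ((B x k : Circle) : ℂ).re := by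
      refine isCompact_univ.eventually_forall_of_forall_eventually fun k _ => ?_
      refine hcont.continuousAt.eventually (lt_mem_nhds ?_)
      have h1 : B 1 k = 1 := by rw [map_one]; rfl
      change 0 < ((B 1 k : Circle) : ℂ).re
      rw [h1]
      simp
    have hker : (B.ker : Set c0) ∈ 𝓝 (1 : c0) := by
      refine Filter.mem_of_superset hev fun x hx => ?_
      rw [SetLike.mem_coe, MonoidHom.mem_ker]
      funext k
      refine circle_no_small _ fun n => ?_
      rw [← hpow]
      exact hx _ (Set.mem_univ _)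
    have hopen : IsOpen (B.ker : Set c0) := Subgroup.isOpen_of_mem_nhds _ hker
    have hclopen : IsClopen (B.ker : Set c0) := ⟨Subgroup.isClosed_of_isOpen _ hopen, hopen⟩
    have huniv := hclopen.eq_univ ⟨1, B.ker.one_mem⟩
    intro x k
    have hx : x ∈ (B.ker : Set c0) := by rw [huniv]; trivial
    rw [SetLike.mem_coe, MonoidHom.mem_ker] at hx
    have h2 : B x k = 1 := by rw [hx]; rfl
    exact h2
  intro x hx k
  by_contra hne
  have h1 : (⟨⁅x, k⁆, hc x hx k⟩ : Subgroup.center K) ≠ 1 := by
    intro h
    apply hne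
    have h2 : ⁅x, k⁆ = 1 := congrArg Subtype.val h
    exact commutatorElement_eq_one_iff_mul_comm.1 h2
  letI cg : CommGroup (Subgroup.center K) :=
    { (inferInstance : Group (Subgroup.center K)) with
      mul_comm := fun a b => by
        apply Subtype.ext
        exact (Subgroup.mem_center_iff.1 a.2 b).symm }
  obtain ⟨χ, hχ⟩ := @hchar (Subgroup.center K) cg _ (inferInstance : IsTopologicalGroup (Subgroup.center K)) _ _ _ h1
  exact hχ (main χ ⟨x, hx⟩ k)

end

/-- the statement proved by induction on the nilpotency class -/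
def PInd (G : Type u) [Group G] [Group.IsNilpotent G] : Prop :=
  ∀ [TopologicalSpace G] [IsTopologicalGroup G] [CompactSpace G] [T2Space G],
    ∀ x ∈ connectedComponent (1 : G), ∀ k : G, x * k = k * x

theorem pInd (hchar : TaskChar.{u}) (G : Type u) [Group G] [Group.IsNilpotent G] : PInd G := by
  refine Group.nilpotent_center_quotient_ind (P := fun G [Group G] [Group.IsNilpotent G] => PInd G)
    G ?_ ?_
  · intro G _ _ _ _ _ _ x _ k
    exact Subsingleton.elim _ _
  · intro G _ _ ih _ _ _ _ x hx k
    have hclosed : IsClosed (Subgroup.center G : Set G) := by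
      have h1 : (Subgroup.center G : Set G) = ⋂ g : G, {z | g * z = z * g} := by
        ext z
        simp [Subgroup.mem_center_iff]
      rw [h1]
      exact isClosed_iInter fun g => isClosed_eq (by fun_prop) (by fun_prop)
    haveI : T3Space (G ⧸ Subgroup.center G) := by
      haveI := hclosed
      infer_instance
    haveI : T2Space (G ⧸ Subgroup.center G) := inferInstance
    have ih' := ih
    refine central_step hchar ?_ x hx k
    intro y hy l
    have hy' : (QuotientGroup.mk' (Subgroup.center G) y) ∈
        connectedComponent (1 : G ⧸ Subgroup.center G) := by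
      have h1 : Continuous (QuotientGroup.mk' (Subgroup.center G)) := continuous_quotient_mk'
      have h2 := h1.image_connectedComponent_subset (1 : G)
      rw [map_one] at h2
      exact h2 ⟨y, hy, rfl⟩
    have h2 := ih' _ hy' (QuotientGroup.mk' (Subgroup.center G) l)
    have h3 : QuotientGroup.mk' (Subgroup.center G) ⁅y, l⁆ = 1 := by
      rw [map_commutatorElement]
      exact commutatorElement_eq_one_iff_mul_comm.2 h2
    exact (QuotientGroup.eq_one_iff _).1 h3

theorem taskF (hchar : TaskChar.{u}) : TaskF.{u} := by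
  intro K _ _ _ _ _ hnil x hx k
  haveI := hnil
  exact pInd hchar K x hx k

end R658.CN
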