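import Mathlib
import Pool.Agent.R658.CN.Stmts2

/-! # TASK LIFT: lifting convergent sequences modulo a compact central subgroup (helper806)

Zorn's lemma for the closed subgroups `E ≤ D` and cosets `S n ⊆ (k⁻¹ * x n) D` of `E` which converge to `E`. -/

namespace R658.CN

open Topology Filter Set TopologicalSpace Function
open scoped Pointwise

universe u

namespace Lift

variable {K : Type u} [Group K] [TopologicalSpace K]

/-- partial lifts -/
structure PL (D : Subgroup K) (y : ℕ → K) (p : Subgroup K × (ℕ → Set K)) : Prop where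
  cl : IsClosed (p.1 : Set K)
  le : p.1 ≤ D
  co : ∀ n, ∃ d ∈ D, p.2 n = {w | (y n * d)⁻¹ * w ∈ p.1}
  lim : ∀ V : Set K, IsOpen V → (p.1 : Set K) ⊆ V → ∀ᶠ n in atTop, p.2 n ⊆ V

variable [IsTopologicalGroup K] [CompactSpace K] [T2Space K]

omit [T2Space K] in
theorem chain {D : Subgroup K} {y : ℕ → K} (c : Set (Subgroup K × (ℕ → Set K)))
    (hc : ∀ p ∈ c, PL D y p) (hch : IsChain (· ≤ ·) c) (hne : c.Nonempty) :
    ∃ q, PL D y q ∧ ∀ p ∈ c, q ≤ p := by
  have hne' : Nonempty c := hne.to_subtype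
  have hdir1 : Directed (· ⊇ ·) fun i : c => (i.1.1 : Set K) := by
    intro i j
    rcases hch.total i.2 j.2 with h | h
    · exact ⟨i, Subset.rfl, h.1⟩
    · exact ⟨j, h.1, Subset.rfl⟩
  have hdir2 : ∀ n, Directed (· ⊇ ·) fun i : c => i.1.2 n := by
    intro n i j
    rcases hch.total i.2 j.2 with h | h
    · exact ⟨i, Subset.rfl, h.2 n⟩
    · exact ⟨j, h.2 n, Subset.rfl⟩
  have hcoe : ((⨅ i : c, i.1.1 : Subgroup K) : Set K) = ⋂ i : c, (i.1.1 : Set K) :=
    Subgroup.coe_iInf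
  have hclS : ∀ n (i : c), IsClosed (i.1.2 n) := by
    intro n i
    obtain ⟨d, -, hd⟩ := (hc i.1 i.2).co n
    rw [hd]
    exact (hc i.1 i.2).cl.preimage (continuous_const_mul ((y n * d)⁻¹))
  refine ⟨(⨅ i : c, i.1.1, fun n => ⋂ i : c, i.1.2 n), ⟨?_, ?_, ?_, ?_⟩, ?_⟩
  · change IsClosed ((⨅ i : c, i.1.1 : Subgroup K) : Set K)
    rw [hcoe]
    exact isClosed_iInter fun i => (hc i.1 i.2).cl
  · obtain ⟨p, hp⟩ := hne
    exact (iInf_le (fun i : c => i.1.1) ⟨p, hp⟩).trans (hc p hp).le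
  · intro n
    obtain ⟨w0, hw0⟩ := IsCompact.nonempty_iInter_of_directed_nonempty_isCompact_isClosed
      (fun i : c => i.1.2 n) (hdir2 n) (fun i => by
        obtain ⟨d, -, hd⟩ := (hc i.1 i.2).co n
        refine ⟨y n * d, ?_⟩
        rw [hd]
        change (y n * d)⁻¹ * (y n * d) ∈ i.1.1
        rw [inv_mul_cancel]
        exact i.1.1.one_mem) (fun i => (hclS n i).isCompact) (hclS n)
    rw [mem_iInter] at hw0
    have hiff : ∀ (i : c) (w : K), w ∈ i.1.2 n ↔ w0⁻¹ * w ∈ i.1.1 := by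
      intro i w
      obtain ⟨d, -, hd⟩ := (hc i.1 i.2).co n
      have h0 := hw0 i
      rw [hd] at h0 ⊢
      change (y n * d)⁻¹ * w0 ∈ i.1.1 at h0
      change (y n * d)⁻¹ * w ∈ i.1.1 ↔ _
      have e1 : (y n * d)⁻¹ * w = ((y n * d)⁻¹ * w0) * (w0⁻¹ * w) := by group
      rw [e1]
      exact i.1.1.mul_mem_cancel_left h0
    refine ⟨(y n)⁻¹ * w0, ?_, ?_⟩
    · obtain ⟨p, hp⟩ := hne
      obtain ⟨d, hdD, hd⟩ := (hc p hp).co n
      have h0 := hw0 ⟨p, hp⟩
      change w0 ∈ p.2 n at h0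
      rw [hd] at h0
      change (y n * d)⁻¹ * w0 ∈ p.1 at h0
      have e1 : (y n)⁻¹ * w0 = d * ((y n * d)⁻¹ * w0) := by group
      rw [e1]
      exact D.mul_mem hdD ((hc p hp).le h0)
    · ext w
      change w ∈ (⋂ i : c, i.1.2 n) ↔ (y n * ((y n)⁻¹ * w0))⁻¹ * w ∈ (⨅ i : c, i.1.1)
      rw [mul_inv_cancel_left, mem_iInter, Subgroup.mem_iInf]
      exact forall_congr' fun i => hiff i w
  · intro V hV hEV
    change ((⨅ i : c, i.1.1 : Subgroup K) : Set K) ⊆ V at hEV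
    rw [hcoe] at hEV
    obtain ⟨i, hi⟩ := exists_subset_nhds_of_compactSpace hdir1 (fun i => (hc i.1 i.2).cl)
      (U := V) fun w hw => hV.mem_nhds (hEV hw)
    filter_upwards [(hc i.1 i.2).lim V hV hi] with n hn
    exact (iInter_subset (fun i : c => i.1.2 n) i).trans hn
  · intro p hp
    exact ⟨iInf_le (fun i : c => i.1.1) ⟨p, hp⟩,
      fun n => iInter_subset (fun i : c => i.1.2 n) ⟨p, hp⟩⟩

theorem step (hchar : TaskChar.{u}) {D : Subgroup K} (hDc : ∀ d ∈ D, ∀ k : K, d * k = k * d)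
    {y : ℕ → K} {p : Subgroup K × (ℕ → Set K)} (hp : PL D y p) {e0 : K} (he0 : e0 ∈ p.1)
    (hne : e0 ≠ 1) : ∃ q, PL D y q ∧ q ≤ p ∧ ¬ p ≤ q := by
  obtain ⟨E, S⟩ := p
  change e0 ∈ E at he0
  let _ : CommGroup E :=
    { (inferInstance : Group E) with
      mul_comm := fun a b => Subtype.ext (hDc a (hp.le a.2) b) }
  have hcl0 : IsClosed (E : Set K) := hp.cl
  have _ : CompactSpace E := isCompact_iff_compactSpace.mp hcl0.isCompact
  have _ : IsTopologicalGroup E := inferInstanceAs (IsTopologicalGroup E)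
  obtain ⟨χ, hχ⟩ := hchar E ⟨e0, he0⟩ (fun h => hne (congrArg Subtype.val h))
  have hcl : IsClosedEmbedding (Subtype.val : E → K) := hcl0.isClosedEmbedding_subtypeVal
  have hχc : Continuous χ := χ.continuous_toFun
  obtain ⟨f, hf⟩ : ∃ f : C(K, ℂ), ∀ e : E, f e = χ e := by
    obtain ⟨g, hg⟩ := ContinuousMap.exists_extension hcl
      (⟨fun e => (χ e : ℂ), continuous_subtype_val.comp hχc⟩ : C(E, ℂ))
    exact ⟨g, fun e => DFunLike.congr_fun hg e⟩
  have hf1 : f 1 = 1 := by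
    have := hf 1
    rw [map_one] at this
    exact this
  choose d hdD hS using hp.co
  change ∀ n, S n = {w | (y n * d n)⁻¹ * w ∈ E} at hS
  have hmin : ∀ n, ∃ e ∈ (E : Set K), IsMinOn (fun e => ‖f (y n * d n * e) - 1‖) E e := fun n =>
    hcl0.isCompact.exists_isMinOn ⟨1, E.one_mem⟩
      (((f.continuous.comp (continuous_const_mul (y n * d n))).sub
        continuous_const).norm).continuousOn
  choose e heE hemin using hmin
  have hmemS : ∀ n, ∀ e' ∈ E, y n * d n * e' ∈ S n := by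
    intro n e' he'
    rw [hS n]
    change (y n * d n)⁻¹ * (y n * d n * e') ∈ E
    rw [inv_mul_cancel_left]
    exact he'
  have htend : Tendsto (fun n => f (y n * d n * e n)) atTop (𝓝 1) := by
    rw [Metric.tendsto_nhds]
    intro ε hε
    have hU : IsOpen {w : K | ‖f w - 1‖ < ε} :=
      isOpen_lt ((f.continuous.sub continuous_const).norm) continuous_const
    have h1U : (1 : K) ∈ {w : K | ‖f w - 1‖ < ε} := by
      change ‖f 1 - 1‖ < ε
      rw [hf1, sub_self, norm_zero]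
      exact hε
    filter_upwards [hp.lim ({w : K | ‖f w - 1‖ < ε} * (E : Set K)) hU.mul_right
      (fun e he => ⟨1, h1U, e, he, one_mul e⟩)] with n hn
    have hz := hmemS n 1 E.one_mem
    obtain ⟨u, hu, e1, he1, hue⟩ := hn hz
    have h2 := hemin n (E.inv_mem he1)
    change ‖f (y n * d n * e n) - 1‖ ≤ ‖f (y n * d n * e1⁻¹) - 1‖ at h2
    have h3 : y n * d n * e1⁻¹ = u := by
      have h4 : u * e1 = y n * d n * 1 := hue
      rw [mul_one] at h4
      rw [← h4, mul_inv_cancel_right]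
    rw [h3] at h2
    rw [dist_eq_norm]
    exact lt_of_le_of_lt h2 hu
  let E' : Subgroup K :=
    { carrier := {w | ∃ h : w ∈ E, χ ⟨w, h⟩ = 1}
      mul_mem' := by
        rintro a b ⟨ha, ha'⟩ ⟨hb, hb'⟩
        refine ⟨E.mul_mem ha hb, ?_⟩
        have h1 : χ (⟨a, ha⟩ * ⟨b, hb⟩) = 1 := by rw [map_mul, ha', hb', one_mul]
        exact h1
      one_mem' := ⟨E.one_mem, map_one χ⟩
      inv_mem' := by
        rintro a ⟨ha, ha'⟩
        refine ⟨E.inv_mem ha, ?_⟩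
        have h1 : χ (⟨a, ha⟩⁻¹) = 1 := by rw [map_inv, ha', inv_one]
        exact h1 }
  have hE'E : E' ≤ E := fun w hw => hw.1
  have hE'cl : IsClosed (E' : Set K) := by
    have h1 : (E' : Set K) = Subtype.val '' {e : E | χ e = 1} := by
      ext w
      constructor
      · rintro ⟨h, h'⟩
        exact ⟨⟨w, h⟩, h', rfl⟩
      · rintro ⟨e, he, rfl⟩
        exact ⟨e.2, he⟩
    rw [h1]
    exact hcl.isClosedMap _ (isClosed_eq hχc continuous_const)
  refine ⟨(E', fun n => {w | (y n * d n * e n)⁻¹ * w ∈ E'}), ⟨hE'cl, hE'E.trans hp.le,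
    fun n => ⟨d n * e n, D.mul_mem (hdD n) (hp.le (heE n)), ?_⟩, ?_⟩, ⟨hE'E, fun n w hw => ?_⟩,
    fun h => ?_⟩
  · change {w | (y n * d n * e n)⁻¹ * w ∈ E'} = {w | (y n * (d n * e n))⁻¹ * w ∈ E'}
    rw [mul_assoc]
  · intro V hV hE'V
    by_contra hcon
    rw [not_eventually] at hcon
    have hex : ∀ n, ∃ e' ∈ E', ¬ {w | (y n * d n * e n)⁻¹ * w ∈ E'} ⊆ V →
        y n * d n * e n * e' ∉ V := by
      intro n
      by_cases hn : {w | (y n * d n * e n)⁻¹ * w ∈ E'} ⊆ V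
      · exact ⟨1, E'.one_mem, fun h => absurd hn h⟩
      · rw [not_subset] at hn
        obtain ⟨w, hw, hwV⟩ := hn
        refine ⟨(y n * d n * e n)⁻¹ * w, hw, fun _ => ?_⟩
        rw [mul_inv_cancel_left]
        exact hwV
    choose e' he' hV' using hex
    have hNB : (atTop ⊓ 𝓟 {n | ¬ {w | (y n * d n * e n)⁻¹ * w ∈ E'} ⊆ V}).NeBot :=
      frequently_iff_neBot.1 hcon
    have hle := Ultrafilter.of_le (atTop ⊓ 𝓟 {n | ¬ {w | (y n * d n * e n)⁻¹ * w ∈ E'} ⊆ V})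
    set 𝒰 := Ultrafilter.of (atTop ⊓ 𝓟 {n | ¬ {w | (y n * d n * e n)⁻¹ * w ∈ E'} ⊆ V}) with h𝒰
    have hle1 : (𝒰 : Filter ℕ) ≤ atTop := hle.trans inf_le_left
    have hle2 : {n | ¬ {w | (y n * d n * e n)⁻¹ * w ∈ E'} ⊆ V} ∈ (𝒰 : Filter ℕ) :=
      le_principal_iff.1 (hle.trans inf_le_right)
    obtain ⟨w0, hw0⟩ : ∃ w0, Tendsto (fun n => y n * d n * e n) 𝒰 (𝓝 w0) :=
      ⟨_, (𝒰.map fun n => y n * d n * e n).le_nhds_lim⟩
    obtain ⟨e2, he2⟩ : ∃ e2, Tendsto e' 𝒰 (𝓝 e2) := ⟨_, (𝒰.map e').le_nhds_lim⟩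
    have hw0E : w0 ∈ E := by
      by_contra hnot
      obtain ⟨U1, U2, hU1, hU2, hEU, hwU, hdisj⟩ := normal_separation hcl0
        (isClosed_singleton (x := w0)) (disjoint_singleton_right.2 hnot)
      have h1 : ∀ᶠ n in (𝒰 : Filter ℕ), y n * d n * e n ∈ U1 :=
        ((hp.lim U1 hU1 hEU).mono fun n hn => hn (hmemS n _ (heE n))).filter_mono hle1
      have h2 : ∀ᶠ n in (𝒰 : Filter ℕ), y n * d n * e n ∈ U2 :=
        hw0.eventually (hU2.mem_nhds (hwU rfl))
      obtain ⟨n, hn1, hn2⟩ := (h1.and h2).exists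
      exact disjoint_left.1 hdisj hn1 hn2
    have hfw : f w0 = 1 :=
      tendsto_nhds_unique ((f.continuous.tendsto w0).comp hw0) (htend.mono_left hle1)
    have hw0E' : w0 ∈ E' := by
      refine ⟨hw0E, ?_⟩
      have h1 := hf ⟨w0, hw0E⟩
      rw [show ((⟨w0, hw0E⟩ : E) : K) = w0 from rfl, hfw] at h1
      exact Circle.ext (by rw [← h1, Circle.coe_one])
    have he2E' : e2 ∈ E' := hE'cl.mem_of_tendsto he2 (Eventually.of_forall he')
    have h3 : ∀ᶠ n in (𝒰 : Filter ℕ), y n * d n * e n * e' n ∈ V :=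
      (hw0.mul he2).eventually (hV.mem_nhds (hE'V (E'.mul_mem hw0E' he2E')))
    obtain ⟨n, hn1, hn2⟩ := (h3.and hle2).exists
    exact hV' n hn2 hn1
  · change w ∈ S n
    have h1 : y n * d n * e n * ((y n * d n * e n)⁻¹ * w) = w := mul_inv_cancel_left _ _
    rw [← h1, mul_assoc (y n * d n)]
    exact hmemS n _ (E.mul_mem (heE n) (hE'E hw))
  · obtain ⟨h1, h2⟩ := h.1 he0
    exact hχ h2

end Lift

open Lift in
theorem taskLift (hchar : TaskChar.{u}) (_hD : TaskD.{u}) : TaskLift.{u} := by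
  intro K _ _ _ _ _ D hDn hDcl hDc x k hx
  have hclI : IsClosed (D : Set K) := hDcl
  -- the first partial lift
  have h0 : PL D (fun n => k⁻¹ * x n) (D, fun n => {w | (k⁻¹ * x n)⁻¹ * w ∈ D}) := by
    refine ⟨hDcl, le_rfl, fun n => ⟨1, D.one_mem, by rw [mul_one]⟩, fun V hV hDV => ?_⟩
    change (D : Set K) ⊆ V at hDV
    let Cc : Set (K ⧸ D) := QuotientGroup.mk '' ((fun v => k * v) '' Vᶜ)
    have hCc : IsClosed Cc :=
      ((hV.isClosed_compl.isCompact.image (continuous_const_mul k)).image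
        QuotientGroup.continuous_mk).isClosed
    have hk : (QuotientGroup.mk k : K ⧸ D) ∉ Cc := by
      rintro ⟨_, ⟨v, hv, rfl⟩, h⟩
      rw [QuotientGroup.eq] at h
      apply hv
      apply hDV
      have e1 : (k * v)⁻¹ * k = v⁻¹ := by group
      change (k * v)⁻¹ * k ∈ D at h
      rw [e1] at h
      exact D.inv_mem_iff.1 h
    filter_upwards [hx (hCc.isOpen_compl.mem_nhds hk)] with n hn
    intro w hw
    by_contra hwV
    apply hn
    refine ⟨k * w, ⟨w, hwV, rfl⟩, ?_⟩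
    rw [QuotientGroup.eq]
    have e1 : (k * w)⁻¹ * x n = ((k⁻¹ * x n)⁻¹ * w)⁻¹ := by group
    rw [e1]
    exact D.inv_mem hw
  -- Zorn's lemma
  obtain ⟨m, -, hm⟩ := zorn_le_nonempty₀ (α := (Subgroup K × (ℕ → Set K))ᵒᵈ)
    {p | PL D (fun n => k⁻¹ * x n) (OrderDual.ofDual p)} (fun c hc hch p hp => by
      obtain ⟨q, hq, hq'⟩ := chain (D := D) (y := fun n => k⁻¹ * x n)
        (OrderDual.ofDual '' c) (by
          rintro _ ⟨p, hp, rfl⟩
          exact hc hp) (by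
          rintro _ ⟨a, ha, rfl⟩ _ ⟨b, hb, rfl⟩ hab
          exact (hch ha hb fun h => hab (by rw [h])).symm) ⟨_, ⟨p, hp, rfl⟩⟩
      exact ⟨OrderDual.toDual q, hq, fun z hz => hq' _ ⟨z, hz, rfl⟩⟩)
    (OrderDual.toDual (D, fun n => {w | (k⁻¹ * x n)⁻¹ * w ∈ D})) h0
  have hmP : PL D (fun n => k⁻¹ * x n) (OrderDual.ofDual m) := hm.1
  have hbot : ∀ e ∈ (OrderDual.ofDual m).1, e = 1 := by
    intro e he
    by_contra hne
    obtain ⟨q, hq, hqm, hmq⟩ := step hchar hDc hmP he hne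
    exact hmq (hm.2 (y := OrderDual.toDual q) hq hqm)
  obtain ⟨⟨E, S⟩, hES⟩ : ∃ q, q = OrderDual.ofDual m := ⟨_, rfl⟩
  rw [← hES] at hmP hbot
  choose d hdD hS using hmP.co
  change ∀ n, S n = {w | (k⁻¹ * x n * d n)⁻¹ * w ∈ E} at hS
  refine ⟨d, hdD, ?_⟩
  have h1 : Tendsto (fun n => k⁻¹ * x n * d n) atTop (𝓝 1) := by
    intro U hU
    obtain ⟨V, hVU, hV, h1V⟩ := mem_nhds_iff.1 hU
    have h2 := hmP.lim V hV (fun e he => by rw [hbot e he]; exact h1V)
    rw [mem_map]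
    filter_upwards [h2] with n hn
    apply hVU
    apply hn
    change k⁻¹ * x n * d n ∈ S n
    rw [hS n]
    change (k⁻¹ * x n * d n)⁻¹ * (k⁻¹ * x n * d n) ∈ E
    rw [inv_mul_cancel]
    exact E.one_mem
  have h2 := h1.const_mul k
  rw [mul_one] at h2
  refine h2.congr fun n => ?_
  group

end R658.CN
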