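import Mathlib
import Pool.Agent.R658.CN.Stmts

/-! # TASK M: a dense locally minimal subgroup of a compact group is locally essential (helper883) -/

namespace R658.CN

open Topology Filter Set
open scoped Pointwise

universe u

theorem taskM : TaskM.{u} := by
  intro G K _ τ _ _ _ _ _ _ i hi hd hmin
  obtain ⟨U, hU, hUmin⟩ := hmin
  have hU' : U ∈ comap i (𝓝 (1 : K)) := by
    have h := hi.nhds_eq_comap 1
    rw [map_one] at h
    rwa [← h]
  obtain ⟨O, hO, hOU⟩ := mem_comap.1 hU'
  obtain ⟨V, hVo, hV1, hVV⟩ := exists_open_nhds_one_mul_subset hO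
  refine ⟨V, hVo.mem_nhds hV1, ?_⟩
  intro N hN hNc hNV hNbot
  by_contra hcon
  push Not at hcon
  apply hNbot
  have hcon' : ∀ g : G, i g ∈ N → g = 1 := by
    intro g hg
    by_contra hne
    exact hcon g hne hg
  have := hN
  have : IsClosed (N : Set K) := hNc
  set q : K →* K ⧸ N := QuotientGroup.mk' N with hq
  set f : G →* K ⧸ N := q.comp i with hf
  have hqc : Continuous q := continuous_quotient_mk'
  have hic : Continuous i := hi.continuous
  have hfinj : Function.Injective f := by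
    rw [injective_iff_map_eq_one]
    intro g hg
    apply hcon'
    have : (QuotientGroup.mk (i g) : K ⧸ N) = 1 := hg
    rwa [QuotientGroup.eq_one_iff] at this
  have hfc : Continuous f := hqc.comp hic
  have hpre : ∀ O' : Set K, IsOpen O' → (1 : K) ∈ O' → i ⁻¹' O' ∈ @nhds G τ 1 := by
    intro O' h1 h2
    exact hic.continuousAt.preimage_mem_nhds (by rw [map_one]; exact h1.mem_nhds h2)
  have hle : τ ≤ TopologicalSpace.induced f inferInstance := continuous_iff_le_induced.1 hfc
  let σ : TopologicalSpace G := TopologicalSpace.induced f inferInstance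
  have hσg : @IsTopologicalGroup G σ _ := topologicalGroup_induced f
  have hσ2 : @T2Space G σ :=
    @T2Space.of_injective_continuous G (K ⧸ N) σ _ _ f hfinj continuous_induced_dom
  have hnh : @nhds G σ 1 = comap f (𝓝 (1 : K ⧸ N)) := by
    rw [nhds_induced, map_one]
  have hUσ : U ∈ @nhds G σ 1 := by
    rw [hnh, mem_comap]
    refine ⟨q '' V, ?_, ?_⟩
    · have : IsOpen (q '' V) := QuotientGroup.isOpenMap_coe _ hVo
      exact this.mem_nhds ⟨1, hV1, map_one q⟩
    · intro g hg
      obtain ⟨v, hv, hvg⟩ := hg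
      apply hOU
      have h2 : v⁻¹ * i g ∈ N := by
        rw [← QuotientGroup.eq]
        exact hvg
      have : i g = v * (v⁻¹ * i g) := by group
      change i g ∈ O
      rw [this]
      exact hVV (mul_mem_mul hv (hNV h2))
  have heq : σ = τ := hUmin σ hσg hσ2 hle hUσ
  rw [eq_bot_iff]
  intro k hk
  rw [Subgroup.mem_bot]
  by_contra hk1
  obtain ⟨O', B, hO'o, hBo, h1O', hkB, hdis⟩ := t2_separation (Ne.symm hk1)
  have hkcl : k ∉ closure O' := by
    intro h
    obtain ⟨z, hz1, hz2⟩ := mem_closure_iff.1 h B hBo hkB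
    exact disjoint_left.1 hdis hz2 hz1
  have h3 : i ⁻¹' O' ∈ @nhds G σ 1 := by
    rw [heq]
    exact hpre O' hO'o h1O'
  rw [hnh, mem_comap] at h3
  obtain ⟨W, hW, hWs⟩ := h3
  obtain ⟨W', hW'W, hW'o, hW'1⟩ := mem_nhds_iff.1 hW
  apply hkcl
  rw [mem_closure_iff]
  intro E hE hkE
  have hA : IsOpen (E ∩ q ⁻¹' W') := hE.inter (hW'o.preimage hqc)
  have hkA : k ∈ E ∩ q ⁻¹' W' := by
    refine ⟨hkE, ?_⟩
    have : q k = 1 := (QuotientGroup.eq_one_iff k).2 hk
    change q k ∈ W'
    rw [this]; exact hW'1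
  obtain ⟨g, hg⟩ := hd.exists_mem_open hA ⟨k, hkA⟩
  refine ⟨i g, hg.1, ?_⟩
  exact hWs (hW'W hg.2)

end R658.CN
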