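import Mathlib
import Pool.Agent.R658.CN.Stmts

/-! # TASK N: nilpotency passes to the closure (helper883) -/

namespace R658.CN

open Topology Filter Set
open scoped commutatorElement

universe u

theorem lcs_le_closure {G K : Type u} [Group G] [Group K] [TopologicalSpace K]
    [IsTopologicalGroup K] (i : G →* K) (hd : DenseRange i) (n : ℕ) :
    (⊤ : Subgroup K).lowerCentralSeries n ≤
      (((⊤ : Subgroup G).lowerCentralSeries n).map i).topologicalClosure := by
  induction n with
  | zero =>
    intro x _
    change x ∈ closure ((((⊤ : Subgroup G).lowerCentralSeries 0).map i : Subgroup K) : Set K)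
    have : ((((⊤ : Subgroup G).lowerCentralSeries 0).map i : Subgroup K) : Set K) = range i := by
      ext y; simp
    rw [this]
    exact hd x
  | succ n ih =>
    rw [Subgroup.lowerCentralSeries_succ, Subgroup.commutator_def, Subgroup.closure_le]
    rintro z ⟨x, hx, k, -, rfl⟩
    have hx' : x ∈ closure ((((⊤ : Subgroup G).lowerCentralSeries n).map i : Subgroup K) : Set K) :=
      ih hx
    have hk' : k ∈ closure (range i) := hd k
    have hmem : (x, k) ∈ closure (((((⊤ : Subgroup G).lowerCentralSeries n).map i :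
        Subgroup K) : Set K) ×ˢ range i) := by
      rw [closure_prod_eq]; exact ⟨hx', hk'⟩
    have hcont : Continuous fun p : K × K => ⁅p.1, p.2⁆ := by
      simp only [commutatorElement_def]; fun_prop
    have h1 : (fun p : K × K => ⁅p.1, p.2⁆) (x, k) ∈
        closure ((fun p : K × K => ⁅p.1, p.2⁆) ''
          (((((⊤ : Subgroup G).lowerCentralSeries n).map i : Subgroup K) : Set K) ×ˢ range i)) :=
      image_closure_subset_closure_image hcont ⟨_, hmem, rfl⟩
    refine closure_mono ?_ h1
    rintro _ ⟨⟨a, b⟩, ⟨ha, ⟨g, hg⟩⟩, rfl⟩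
    obtain ⟨a', ha', haa⟩ := ha
    refine ⟨⁅a', g⁆, ?_, ?_⟩
    · exact Subgroup.commutator_mem_commutator ha' (Subgroup.mem_top _)
    · simp only at hg haa ⊢
      rw [map_commutatorElement, ← hg, ← haa]

theorem taskN : TaskN.{u} := by
  intro G K _ _ _ _ _ i hd hG
  rw [Subgroup.nilpotent_iff_lowerCentralSeries] at hG ⊢
  obtain ⟨n, hn⟩ := hG
  refine ⟨n, ?_⟩
  rw [eq_bot_iff]
  intro x hx
  have h := lcs_le_closure i hd n hx
  rw [hn] at h
  have h2 : x ∈ closure (((⊥ : Subgroup G).map i : Subgroup K) : Set K) := h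
  rw [Subgroup.map_bot, Subgroup.coe_bot, closure_singleton] at h2
  exact h2

end R658.CN
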