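import Mathlib
import Pool.Agent.R658.CN.Stmts2

namespace R658.CN

open Topology Filter Set TopologicalSpace Function

universe u

section sigma
set_option linter.unusedSectionVars false

variable {C : Type u} [CommGroup C] [TopologicalSpace C] [IsTopologicalGroup C] [CompactSpace C]
  [T2Space C] {I : Type u}

theorem lc_add (θ θ₁ θ₂ : I → ℚ) (h : ∀ i, θ i = θ₁ i + θ₂ i) (f : I →₀ ℚ) :
    Finsupp.linearCombination ℚ θ f =
      Finsupp.linearCombination ℚ θ₁ f + Finsupp.linearCombination ℚ θ₂ f := by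
  simp only [Finsupp.linearCombination_apply]
  rw [← Finsupp.sum_add]
  apply Finsupp.sum_congr
  intro i _
  rw [h i, smul_add]

theorem lc_congr (θ θ' : I → ℚ) (f : I →₀ ℚ) (h : ∀ i ∈ f.support, θ i = θ' i) :
    Finsupp.linearCombination ℚ θ f = Finsupp.linearCombination ℚ θ' f := by
  simp only [Finsupp.linearCombination_apply]
  apply Finsupp.sum_congr
  intro i hi
  rw [h i hi]

theorem exists_Pt (hD : TaskD.{u}) (κ : XX C →+ (I →₀ ℚ)) (θ : I → ℚ) (x : Hm ℚ) :
    ∃ d : C, Pt κ θ x d :=
  exists_pt hD ((Finsupp.linearCombination ℚ θ).toAddMonoidHom.comp κ) x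

theorem good_mono (A : Subgroup C) (κ : XX C →+ (I →₀ ℚ)) {J J' : Set I} (h : J' ⊆ J)
    (hJ : Good A κ J) : Good A κ J' :=
  fun θ hθ x d hd => hJ θ (fun i hi => hθ i (fun h' => hi (h h'))) x d hd

theorem good_union (hD : TaskD.{u}) (A : Subgroup C) (κ : XX C →+ (I →₀ ℚ)) {J J' : Set I}
    (hJ : Good A κ J) (hJ' : Good A κ J') : Good A κ (J ∪ J') := by
  classical
  intro θ hθ x d hd
  let θ₁ : I → ℚ := fun i => if i ∈ J then θ i else 0
  let θ₂ : I → ℚ := fun i => if i ∈ J then 0 else θ i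
  have h12 : ∀ i, θ i = θ₁ i + θ₂ i := by
    intro i
    by_cases h : i ∈ J <;> simp [θ₁, θ₂, h]
  obtain ⟨d₁, hd₁⟩ := exists_Pt hD κ θ₁ x
  have h1 : d₁ ∈ A := hJ θ₁ (fun i hi => by simp [θ₁, hi]) x d₁ hd₁
  have h2 : d * d₁⁻¹ ∈ A := by
    apply hJ' θ₂ _ x
    · intro χ
      rw [map_mul, map_inv, hd χ, hd₁ χ, lc_add θ θ₁ θ₂ h12, Hm.add]
      rw [mul_comm, inv_mul_cancel_left]
    · intro i hi
      by_cases h : i ∈ J
      · simp [θ₂, h]
      · simp only [θ₂, if_neg h]
        apply hθ
        rintro (h' | h')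
        · exact h h'
        · exact hi h'
  have := A.mul_mem h2 h1
  rwa [inv_mul_cancel_right] at this

theorem good_empty (hchar : TaskChar.{u}) (A : Subgroup C) (κ : XX C →+ (I →₀ ℚ)) :
    Good A κ ∅ := by
  intro θ hθ x d hd
  have : d = 1 := by
    apply ev_inj C hchar
    funext χ
    show χ d = χ 1
    rw [hd χ, map_one]
    have h0 : Finsupp.linearCombination ℚ θ (κ (Additive.ofMul χ)) = 0 := by
      rw [Finsupp.linearCombination_apply]
      apply Finset.sum_eq_zero
      intro i _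
      simp only [hθ i (Set.notMem_empty i)]
      exact smul_zero _
    rw [h0, Hm.zero]
  rw [this]
  exact A.one_mem

end sigma

theorem taskSigma (hchar : TaskChar.{u}) (hD : TaskD.{u}) : TaskSigma.{u} := by
  classical
  intro C _ _ _ _ _ A hA I κ J hJ θ hθ x d hd
  have hfin : ∀ N : ℕ, Good A κ {i | ∃ m < N, i ∈ J m} := by
    intro N
    induction N with
    | zero =>
      have : {i : I | ∃ m < 0, i ∈ J m} = ∅ := by
        ext i; simp
      rw [this]
      exact good_empty hchar A κ
    | succ N ih =>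
      refine good_mono A κ ?_ (good_union hD A κ ih (hJ N))
      rintro i ⟨m, hm, hi⟩
      rcases Nat.lt_succ_iff_lt_or_eq.1 hm with h | h
      · exact Or.inl ⟨m, h, hi⟩
      · subst h; exact Or.inr hi
  let θN : ℕ → I → ℚ := fun N i => if ∃ m < N, i ∈ J m then θ i else 0
  choose D hDp using fun N => exists_Pt hD κ (θN N) x
  have hDA : ∀ N, D N ∈ A := fun N => by
    apply hfin N (θN N) _ x (D N) (hDp N)
    intro i hi
    exact if_neg hi
  have hlim : Tendsto D atTop (𝓝 d) := by
    rw [(ev_emb C hchar).isInducing.tendsto_nhds_iff]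
    rw [tendsto_pi_nhds]
    intro χ
    apply tendsto_const_nhds.congr'
    -- eventually equal
    have hev : ∀ᶠ N : ℕ in atTop, ∀ i ∈ (κ (Additive.ofMul χ)).support, θN N i = θ i := by
      rw [Filter.eventually_all_finset]
      intro i _
      by_cases h : ∃ m, i ∈ J m
      · obtain ⟨m, hm⟩ := h
        filter_upwards [eventually_gt_atTop m] with N hN
        exact if_pos ⟨m, hN, hm⟩
      · have h0 : θ i = 0 := hθ i (by simpa using h)
        filter_upwards with N
        simp [θN, h0]
    filter_upwards [hev] with N hN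
    show χ d = χ (D N)
    rw [hd χ, hDp N χ]
    rw [lc_congr _ _ _ hN]
  exact hA hDA hlim

end R658.CN
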