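import Mathlib
import Pool.Agent.R658.CN.Stmts2
import Pool.Agent.R658.CN.TConn

/-! # TASK WEIGHT of project MP_12f6a1_al: lower bound for the weight -/

namespace R658.CN

open Topology Filter Set TopologicalSpace Function

universe u

/-- there is a basis whose size is the weight -/
theorem exists_basis_weight (Z : Type u) [TopologicalSpace Z] :
    ∃ B : Set (Set Z), IsTopologicalBasis B ∧ Cardinal.mk B = weight Z := by
  have hne : {κ : Cardinal.{u} | ∃ B : Set (Set Z), IsTopologicalBasis B ∧ Cardinal.mk B = κ}.Nonempty :=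
    ⟨_, {U | IsOpen U}, isTopologicalBasis_opens, rfl⟩
  exact csInf_mem hne

/-- two coordinates are separated by a point of `CJ κ J` -/
theorem exists_sep (hD : TaskD.{u}) {C : Type u} [CommGroup C] [TopologicalSpace C]
    [IsTopologicalGroup C] [CompactSpace C] [T2Space C] {I : Type u} (κ : XX C →+ (I →₀ ℚ))
    (J : Set I) (i i' : I) (hi : i ∈ J) (hne : i ≠ i') (χ χ' : C →ₜ* Circle) (m m' : ℕ)
    (hm : m ≠ 0) (h : κ (Additive.ofMul χ) = Finsupp.single i (m : ℚ))
    (h' : κ (Additive.ofMul χ') = Finsupp.single i' (m' : ℚ)) :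
    ∃ c ∈ CJ κ J, χ c ≠ χ' c := by
  classical
  let x : Hm ℚ := ⟨fun q => Circle.exp (Real.pi * (q / m : ℚ)), fun a b => by
      show Circle.exp _ = Circle.exp _ * Circle.exp _
      rw [← Circle.exp_add, add_div]
      push_cast
      rw [mul_add]⟩
  let θ : I → ℚ := fun j => if j = i then 1 else 0
  obtain ⟨c, hc⟩ := exists_pt hD ((Finsupp.linearCombination ℚ θ).toAddMonoidHom.comp κ) x
  have hc' : Pt κ θ x c := hc
  have hθ : ∀ j ∉ J, θ j = 0 := by
    intro j hj
    have : j ≠ i := fun e => hj (e ▸ hi)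
    simp [θ, this]
  refine ⟨c, Pt_mem_CJ κ J θ hθ x c hc', ?_⟩
  rw [hc' χ, hc' χ', h, h', Finsupp.linearCombination_single, Finsupp.linearCombination_single]
  have e1 : (m : ℚ) • θ i = m := by simp [θ]
  have e2 : (m' : ℚ) • θ i' = 0 := by simp [θ, hne.symm]
  rw [e1, e2, Hm.zero]
  show Circle.exp (Real.pi * ((m / m : ℚ) : ℝ)) ≠ 1
  have hm' : (m : ℚ) ≠ 0 := by exact_mod_cast hm
  rw [div_self hm']
  intro h7
  have h8 := congrArg (fun z : Circle => (z : ℂ)) h7
  simp only [Rat.cast_one, mul_one, Circle.coe_one, Circle.coe_exp, Complex.exp_pi_mul_I] at h8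
  norm_num at h8

/-- the circle is covered by finitely many small balls -/
theorem exists_net : ∃ A : Set Circle, A.Finite ∧ ∀ z : Circle, ∃ a ∈ A, dist z a < 1 / 2 := by
  obtain ⟨A, _, hA, hA'⟩ := Metric.finite_approx_of_totallyBounded
    (isCompact_univ (X := Circle)).totallyBounded (1 / 2) (by norm_num)
  refine ⟨A, hA, fun z => ?_⟩
  have := hA' (mem_univ z)
  simpa using this

/-- TASK WEIGHT -/
theorem taskWeight (_hchar : TaskChar.{u}) (hD : TaskD.{u}) : TaskWeight.{u} := by
  classical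
  intro C _ _ _ _ _ I κ hκ J hJ Z _ j hj hrange
  obtain ⟨B, hB, hBw⟩ := exists_basis_weight Z
  obtain ⟨A, hA, hA'⟩ := exists_net
  choose χ m hm hχ using hκ
  -- the compact set in `Z`
  set K : Set Z := j ⁻¹' (CJ κ J : Set C) with hK
  have hKc : IsCompact K :=
    hj.isInducing.isCompact_preimage' (CJ_closed κ J).isCompact hrange
  -- the code of a coordinate
  have hcode : ∀ i : I, ∃ F : Finset (B × A), (∀ z ∈ K, ∃ p ∈ F, z ∈ (p.1 : Set Z)) ∧
      ∀ p ∈ F, ∀ z ∈ (p.1 : Set Z), dist (χ i (j z)) (p.2 : Circle) < 1 / 2 := by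
    intro i
    have hloc : ∀ z : Z, ∃ p : B × A, z ∈ (p.1 : Set Z) ∧
        ∀ y ∈ (p.1 : Set Z), dist (χ i (j y)) (p.2 : Circle) < 1 / 2 := by
      intro z
      obtain ⟨a, ha, haz⟩ := hA' (χ i (j z))
      have hopen : IsOpen {y : Z | dist (χ i (j y)) a < 1 / 2} :=
        isOpen_lt (((χ i).continuous_toFun.comp hj.continuous).dist continuous_const)
          continuous_const
      obtain ⟨b, hb, hzb, hbs⟩ := hB.exists_subset_of_mem_open (show z ∈ _ from haz) hopen
      exact ⟨(⟨b, hb⟩, ⟨a, ha⟩), hzb, fun y hy => hbs hy⟩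
    choose p hp hp' using hloc
    obtain ⟨t, ht⟩ := hKc.elim_finite_subcover (fun z : Z => ((p z).1 : Set Z))
      (fun z => hB.isOpen (p z).1.2) (fun z _ => mem_iUnion.mpr ⟨z, hp z⟩)
    refine ⟨t.image p, ?_, ?_⟩
    · intro z hz
      obtain ⟨y, hy, hzy⟩ := mem_iUnion₂.mp (ht hz)
      exact ⟨p y, Finset.mem_image_of_mem p hy, hzy⟩
    · intro q hq
      obtain ⟨y, _, rfl⟩ := Finset.mem_image.mp hq
      exact hp' y
  choose F hF1 hF2 using hcode
  have hinj : Function.Injective (fun i : J => F i.1) := by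
    rintro ⟨i, hi⟩ ⟨i', hi'⟩ hii
    by_contra hne
    have hne' : i ≠ i' := fun e => hne (Subtype.ext e)
    have hFF : F i = F i' := hii
    have hclose : ∀ c ∈ CJ κ J, ‖(((χ i c) * (χ i' c)⁻¹ : Circle) : ℂ) - 1‖ < 1 := by
      intro c hc
      obtain ⟨z, rfl⟩ := hrange hc
      obtain ⟨p, hp, hzp⟩ := hF1 i z hc
      have h1 := hF2 i p hp z hzp
      have h2 := hF2 i' p (hFF ▸ hp) z hzp
      have h3 : dist (χ i (j z)) (χ i' (j z)) < 1 := by
        calc dist (χ i (j z)) (χ i' (j z)) ≤ dist (χ i (j z)) (p.2 : Circle) +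
              dist (χ i' (j z)) (p.2 : Circle) := dist_triangle_right _ _ _
          _ < 1 := by linarith
      have h4 : dist (χ i (j z)) (χ i' (j z)) = ‖((χ i (j z) : Circle) : ℂ) - (χ i' (j z) : Circle)‖ := by
        exact dist_eq_norm ((χ i (j z) : Circle) : ℂ) ((χ i' (j z) : Circle) : ℂ)
      rw [h4] at h3
      have h5 : (((χ i (j z)) * (χ i' (j z))⁻¹ : Circle) : ℂ) - 1 =
          (((χ i (j z) : Circle) : ℂ) - (χ i' (j z) : Circle)) * (((χ i' (j z))⁻¹ : Circle) : ℂ) := by
        rw [sub_mul, ← Circle.coe_mul, ← Circle.coe_mul, mul_inv_cancel, Circle.coe_one]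
      rw [h5, norm_mul, Circle.norm_coe, mul_one]
      exact h3
    obtain ⟨c, hc, hcne⟩ := exists_sep hD κ J i i' hi hne' (χ i) (χ i') (m i) (m i') (hm i)
      (hχ i) (hχ i')
    apply hcne
    have h6 : (χ i c) * (χ i' c)⁻¹ = 1 := by
      apply circle_nss
      intro n
      have h7 := hclose (c ^ n) ((CJ κ J).pow_mem hc n)
      have h8 : (χ i (c ^ n)) * (χ i' (c ^ n))⁻¹ = ((χ i c) * (χ i' c)⁻¹) ^ n := by
        rw [map_pow, map_pow, mul_pow, inv_pow]
      rw [h8] at h7
      exact h7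
    exact mul_inv_eq_one.mp h6
  have hle : Cardinal.mk J ≤ Cardinal.mk (Finset (B × A)) := Cardinal.mk_le_of_injective hinj
  have hJi : Infinite J := hJ.to_subtype
  have hfin : Infinite (Finset (B × A)) := Infinite.of_injective _ hinj
  have hAf : Finite A := hA
  have hBi : Infinite B := by
    by_contra hB'
    rw [not_infinite_iff_finite] at hB'
    have : Finite (B × A) := inferInstance
    exact not_finite (Finset (B × A))
  have : Infinite (B × A) := by
    by_contra h
    rw [not_infinite_iff_finite] at h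
    exact not_finite (Finset (B × A))
  rw [Cardinal.mk_finset_of_infinite] at hle
  refine hle.trans ?_
  rw [← hBw]
  have h9 : Cardinal.mk (B × A) ≤ Cardinal.mk (B × B) := by
    obtain ⟨e⟩ : Nonempty (A ↪ B) := by
      obtain ⟨n, ⟨e⟩⟩ := Finite.exists_equiv_fin A
      exact ⟨e.toEmbedding.trans ((Fin.valEmbedding).trans (Infinite.natEmbedding B))⟩
    exact Cardinal.mk_le_of_injective (f := Prod.map id e) (injective_id.prodMap e.injective)
  refine h9.trans ?_
  have : Cardinal.mk (B × B) = Cardinal.mk B * Cardinal.mk B := by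
    simp
  rw [this, Cardinal.mul_eq_self (Cardinal.aleph0_le_mk B)]

end R658.CN
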